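import Mathlib

/-! Machine side, part 1: the greedy machine as a function on lists. -/

namespace Pool.Agent.H502R3.MA

/-- `s` contains 312 (reading the list from left to right). -/
def C312 (s : List ℕ) : Prop :=
  ∃ p q u : ℕ, List.Sublist [p, q, u] s ∧ q < u ∧ u < p

/-- `w` contains 231. -/
def C231 (w : List ℕ) : Prop := ∃ a b c : ℕ, List.Sublist [a, b, c] w ∧ c < a ∧ a < b

open Classical in
/-- process one input letter -/
noncomputable def feed (a : ℕ) : List ℕ → List ℕ → List ℕ × List ℕ
  | [], out => ([a], out)
  | b :: m, out => if C312 (a :: b :: m) then feed a m (out ++ [b]) else (a :: b :: m, out)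

/-- run on a list of input letters -/
noncomputable def runFrom : List ℕ → List ℕ → List ℕ → List ℕ × List ℕ
  | [], st, out => (st, out)
  | a :: l, st, out => runFrom l (feed a st out).1 (feed a st out).2

noncomputable def fin (l st out : List ℕ) : List ℕ :=
  (runFrom l st out).2 ++ (runFrom l st out).1

noncomputable def final (l : List ℕ) : List ℕ := fin l [] []

def step (s t : List ℕ × List ℕ × List ℕ) : Prop :=
  (∃ (a : ℕ) (r : List ℕ), s.1 = a :: r ∧
      ¬ (∃ p q u : ℕ, List.Sublist [p, q, u] (a :: s.2.1) ∧ q < u ∧ u < p) ∧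
      t = (r, a :: s.2.1, s.2.2)) ∨
  (∃ (b : ℕ) (m : List ℕ), s.2.1 = b :: m ∧
      (s.1 = [] ∨ ∃ (a : ℕ) (r : List ℕ), s.1 = a :: r ∧
        (∃ p q u : ℕ, List.Sublist [p, q, u] (a :: s.2.1) ∧ q < u ∧ u < p)) ∧
      t = (s.1, m, s.2.2 ++ [b]))

theorem feed_pos (a b : ℕ) (m out : List ℕ) (h : C312 (a :: b :: m)) :
    feed a (b :: m) out = feed a m (out ++ [b]) := by
  rw [feed, if_pos h]

theorem feed_neg (a : ℕ) (m out : List ℕ) (h : ¬ C312 (a :: m)) :
    feed a m out = (a :: m, out) := by
  cases m with
  | nil => rfl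
  | cons b m => rw [feed, if_neg h]

theorem step_fin (s t : List ℕ × List ℕ × List ℕ) (h : step s t) :
    fin s.1 s.2.1 s.2.2 = fin t.1 t.2.1 t.2.2 := by
  rcases h with ⟨a, r, h1, h2, h3⟩ | ⟨b, m, h1, h2, h3⟩
  · subst h3
    rw [h1]
    simp only [fin, runFrom]
    rw [feed_neg a s.2.1 s.2.2 h2]
  · subst h3
    rcases h2 with h2 | ⟨a, r, h2, h3⟩
    · simp only [h2, h1, fin, runFrom]
      simp
    · rw [h1] at h3
      simp only [h2, h1, fin, runFrom]
      rw [feed_pos a b m s.2.2 h3]

theorem reach_fin (s t : List ℕ × List ℕ × List ℕ) (h : Relation.ReflTransGen step s t) :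
    fin s.1 s.2.1 s.2.2 = fin t.1 t.2.1 t.2.2 := by
  induction h with
  | refl => rfl
  | tail _ h2 ih => rw [ih, step_fin _ _ h2]

theorem reach_empty (st : List ℕ) : ∀ out : List ℕ,
    Relation.ReflTransGen step (([] : List ℕ), st, out) (([] : List ℕ), ([] : List ℕ), out ++ st) := by
  induction st with
  | nil => intro out; simp; exact Relation.ReflTransGen.refl
  | cons b m ih =>
    intro out
    have h1 := ih (out ++ [b])
    have e : out ++ [b] ++ m = out ++ b :: m := by simp
    rw [e] at h1
    refine Relation.ReflTransGen.head ?_ h1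
    exact Or.inr ⟨b, m, rfl, Or.inl rfl, rfl⟩

theorem not_C312_single (a : ℕ) : ¬ C312 [a] := by
  rintro ⟨p, q, u, h, _⟩
  have := h.length_le
  simp at this

theorem reach_feed (a : ℕ) (r : List ℕ) : ∀ (st out : List ℕ),
    Relation.ReflTransGen step (a :: r, st, out) (r, (feed a st out).1, (feed a st out).2) := by
  intro st
  induction st with
  | nil =>
    intro out
    apply Relation.ReflTransGen.single
    refine Or.inl ⟨a, r, rfl, ?_, rfl⟩
    exact not_C312_single a
  | cons b m ih =>
    intro out
    by_cases h : C312 (a :: b :: m)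
    · rw [feed_pos a b m out h]
      refine Relation.ReflTransGen.head ?_ (ih (out ++ [b]))
      exact Or.inr ⟨b, m, rfl, Or.inr ⟨a, r, rfl, h⟩, rfl⟩
    · rw [feed_neg a (b :: m) out h]
      apply Relation.ReflTransGen.single
      exact Or.inl ⟨a, r, rfl, h, rfl⟩

theorem reach_run (l : List ℕ) : ∀ (st out : List ℕ),
    Relation.ReflTransGen step (l, st, out)
      (([] : List ℕ), (runFrom l st out).1, (runFrom l st out).2) := by
  induction l with
  | nil => intro st out; exact Relation.ReflTransGen.refl
  | cons a l ih =>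
    intro st out
    exact (reach_feed a l st out).trans (ih _ _)

theorem reach_iff (l w : List ℕ) :
    Relation.ReflTransGen step (l, ([] : List ℕ), ([] : List ℕ))
      (([] : List ℕ), ([] : List ℕ), w) ↔ w = final l := by
  constructor
  · intro h
    have := reach_fin _ _ h
    simp only [final]
    rw [this]
    simp [fin, runFrom]
  · rintro rfl
    exact (reach_run l [] []).trans (reach_empty _ _)

/-! ### Equivariance -/

theorem C312_map (f : ℕ → ℕ) (hf : StrictMono f) (s : List ℕ) : C312 (s.map f) ↔ C312 s := by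
  constructor
  · rintro ⟨p, q, u, h, h1, h2⟩
    rw [List.sublist_map_iff] at h
    obtain ⟨l, hl, he⟩ := h
    match l, he with
    | [p', q', u'], he =>
      simp only [List.map_cons, List.map_nil, List.cons.injEq, and_true] at he
      obtain ⟨e1, e2, e3⟩ := he
      subst e1; subst e2; subst e3
      exact ⟨p', q', u', hl, hf.lt_iff_lt.mp h1, hf.lt_iff_lt.mp h2⟩
  · rintro ⟨p, q, u, h, h1, h2⟩
    exact ⟨f p, f q, f u, h.map f, hf h1, hf h2⟩

theorem C231_map (f : ℕ → ℕ) (hf : StrictMono f) (s : List ℕ) : C231 (s.map f) ↔ C231 s := by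
  constructor
  · rintro ⟨p, q, u, h, h1, h2⟩
    rw [List.sublist_map_iff] at h
    obtain ⟨l, hl, he⟩ := h
    match l, he with
    | [p', q', u'], he =>
      simp only [List.map_cons, List.map_nil, List.cons.injEq, and_true] at he
      obtain ⟨e1, e2, e3⟩ := he
      subst e1; subst e2; subst e3
      exact ⟨p', q', u', hl, hf.lt_iff_lt.mp h1, hf.lt_iff_lt.mp h2⟩
  · rintro ⟨p, q, u, h, h1, h2⟩
    exact ⟨f p, f q, f u, h.map f, hf h1, hf h2⟩

theorem C231_mono {s t : List ℕ} (h : s.Sublist t) (hs : C231 s) : C231 t := by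
  obtain ⟨a, b, c, h1, h2⟩ := hs
  exact ⟨a, b, c, h1.trans h, h2⟩

theorem feed_map (f : ℕ → ℕ) (hf : StrictMono f) (a : ℕ) : ∀ (st out : List ℕ),
    feed (f a) (st.map f) (out.map f) =
      ((feed a st out).1.map f, (feed a st out).2.map f) := by
  intro st
  induction st with
  | nil => intro out; simp [feed]
  | cons b m ih =>
    intro out
    have e : f a :: (b :: m).map f = (a :: b :: m).map f := rfl
    by_cases h : C312 (a :: b :: m)
    · rw [feed_pos a b m out h]
      have h' : C312 (f a :: f b :: m.map f) := (C312_map f hf (a :: b :: m)).mpr h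
      rw [List.map_cons, feed_pos _ _ _ _ h']
      have := ih (out ++ [b])
      rw [List.map_append] at this
      exact this
    · rw [feed_neg a (b :: m) out h]
      have h' : ¬ C312 (f a :: (b :: m).map f) := by
        rw [e, C312_map f hf]; exact h
      rw [feed_neg _ _ _ h']
      simp

theorem runFrom_map (f : ℕ → ℕ) (hf : StrictMono f) (l : List ℕ) : ∀ (st out : List ℕ),
    runFrom (l.map f) (st.map f) (out.map f) =
      ((runFrom l st out).1.map f, (runFrom l st out).2.map f) := by
  induction l with
  | nil => intro st out; simp [runFrom]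
  | cons a l ih =>
    intro st out
    simp only [List.map_cons, runFrom]
    rw [feed_map f hf]
    exact ih _ _

theorem runFrom_append (l : List ℕ) (v : ℕ) : ∀ (st out : List ℕ),
    runFrom (l ++ [v]) st out = feed v (runFrom l st out).1 (runFrom l st out).2 := by
  induction l with
  | nil => intro st out; simp [runFrom]
  | cons a l ih =>
    intro st out
    simp only [List.cons_append, runFrom]
    exact ih _ _

/-- `feed` pops a prefix and pushes. -/
theorem feed_split (a : ℕ) : ∀ (st out : List ℕ), ∃ pop rest, st = pop ++ rest ∧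
    feed a st out = (a :: rest, out ++ pop) := by
  intro st
  induction st with
  | nil => intro out; exact ⟨[], [], rfl, by simp [feed]⟩
  | cons b m ih =>
    intro out
    by_cases h : C312 (a :: b :: m)
    · obtain ⟨pop, rest, h1, h2⟩ := ih (out ++ [b])
      refine ⟨b :: pop, rest, by rw [h1]; rfl, ?_⟩
      rw [feed_pos a b m out h, h2]
      simp
    · exact ⟨[], b :: m, rfl, by rw [feed_neg a (b :: m) out h]; simp⟩

/-- `feed` pops all of `P` if each element of `P` has a larger element in `R` below `v`. -/
theorem feed_pop (v : ℕ) (R : List ℕ) : ∀ (P out : List ℕ),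
    (∀ p ∈ P, ∃ q ∈ R, p < q ∧ q < v) → feed v (P ++ R) out = feed v R (out ++ P) := by
  intro P
  induction P with
  | nil => intro out _; simp
  | cons b m ih =>
    intro out h
    obtain ⟨q, hq, h1, h2⟩ := h b (by simp)
    have hC : C312 (v :: b :: (m ++ R)) := by
      refine ⟨v, b, q, ?_, h1, h2⟩
      apply List.Sublist.cons_cons
      apply List.Sublist.cons_cons
      rw [List.singleton_sublist]
      exact List.mem_append_right _ hq
    rw [List.cons_append, feed_pos _ _ _ _ hC, ih (out ++ [b]) (fun p hp => h p (by simp [hp]))]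
    simp

/-! ### Insertions -/

/-- shift the values `≥ v` up by one -/
def bump (v x : ℕ) : ℕ := if v ≤ x then x + 1 else x

theorem bump_strictMono (v : ℕ) : StrictMono (bump v) := by
  intro a b h
  unfold bump
  split_ifs <;> omega

theorem bump_lt {v x : ℕ} (h : x < v) : bump v x = x := by
  unfold bump; rw [if_neg (by omega)]

theorem bump_ge {v x : ℕ} (h : v ≤ x) : bump v x = x + 1 := by
  unfold bump; rw [if_pos h]

/-- append a last letter of rank `v` -/
def ins (v : ℕ) (l : List ℕ) : List ℕ := l.map (bump v) ++ [v]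

noncomputable def run (l : List ℕ) : List ℕ × List ℕ := runFrom l [] []

theorem run_ins (v : ℕ) (l : List ℕ) :
    run (ins v l) = feed v ((run l).1.map (bump v)) ((run l).2.map (bump v)) := by
  unfold run ins
  rw [runFrom_append]
  have h := runFrom_map (bump v) (bump_strictMono v) l [] []
  simp only [List.map_nil] at h
  rw [h]

theorem final_eq (l : List ℕ) : final l = (run l).2 ++ (run l).1 := rfl

/-- sortable words -/
def Sortable (l : List ℕ) : Prop := ¬ C231 (final l)

theorem sortable_of_ins (v : ℕ) (l : List ℕ) (h : Sortable (ins v l)) : Sortable l := by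
  intro hC
  apply h
  rw [final_eq, run_ins]
  obtain ⟨pop, rest, h1, h2⟩ := feed_split v ((run l).1.map (bump v)) ((run l).2.map (bump v))
  rw [h2]
  have h3 : C231 ((final l).map (bump v)) := (C231_map _ (bump_strictMono v) _).mpr hC
  rw [final_eq, List.map_append, h1] at h3
  apply C231_mono _ h3
  rw [← List.append_assoc]
  apply List.Sublist.append_left
  exact List.sublist_cons_self _ _

end Pool.Agent.H502R3.MA
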