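import Mathlib
import Pool.Agent.H502R3.MA1

/-! Machine side, part 2: configurations. -/

namespace Pool.Agent.H502R3.MA

open Finset

theorem sublist3_append {a b c : ℕ} {X Y : List ℕ} (h : List.Sublist [a, b, c] (X ++ Y)) :
    (List.Sublist [a, b, c] X) ∨ (List.Sublist [a, b] X ∧ c ∈ Y) ∨
    (a ∈ X ∧ List.Sublist [b, c] Y) ∨ List.Sublist [a, b, c] Y := by
  rw [List.sublist_append_iff] at h
  obtain ⟨l1, l2, h1, h2, h3⟩ := h
  match l1, h1 with
  | [], h1 => simp at h1; subst h1; exact Or.inr (Or.inr (Or.inr h3))
  | [x], h1 =>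
    simp only [List.cons_append, List.nil_append, List.cons.injEq] at h1
    obtain ⟨rfl, rfl⟩ := h1
    exact Or.inr (Or.inr (Or.inl ⟨List.singleton_sublist.mp h2, h3⟩))
  | [x, y], h1 =>
    simp only [List.cons_append, List.nil_append, List.cons.injEq] at h1
    obtain ⟨rfl, rfl, rfl⟩ := h1
    exact Or.inr (Or.inl ⟨h2, List.singleton_sublist.mp h3⟩)
  | [x, y, z], h1 =>
    simp only [List.cons_append, List.nil_append, List.cons.injEq] at h1
    obtain ⟨rfl, rfl, rfl, _⟩ := h1
    exact Or.inl h2
  | x :: y :: z :: w :: l, h1 =>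
    simp at h1

theorem sublist2_append {a b : ℕ} {X Y : List ℕ} (h : List.Sublist [a, b] (X ++ Y)) :
    (List.Sublist [a, b] X) ∨ (a ∈ X ∧ b ∈ Y) ∨ List.Sublist [a, b] Y := by
  rw [List.sublist_append_iff] at h
  obtain ⟨l1, l2, h1, h2, h3⟩ := h
  match l1, h1 with
  | [], h1 => simp at h1; subst h1; exact Or.inr (Or.inr h3)
  | [x], h1 =>
    simp only [List.cons_append, List.nil_append, List.cons.injEq] at h1
    obtain ⟨rfl, rfl⟩ := h1
    exact Or.inr (Or.inl ⟨List.singleton_sublist.mp h2, List.singleton_sublist.mp h3⟩)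
  | [x, y], h1 =>
    simp only [List.cons_append, List.nil_append, List.cons.injEq] at h1
    obtain ⟨rfl, rfl, _⟩ := h1
    exact Or.inl h2
  | x :: y :: z :: l, h1 =>
    simp at h1

def decr (base : ℕ) : ℕ → List ℕ
  | 0 => []
  | d + 1 => (base + d) :: decr base d

theorem mem_decr (base d x : ℕ) : x ∈ decr base d ↔ base ≤ x ∧ x < base + d := by
  induction d with
  | zero => simp [decr]
  | succ d ih =>
    simp only [decr, List.mem_cons, ih]
    omega

theorem decr_pair (base d : ℕ) : ∀ x y, List.Sublist [x, y] (decr base d) → y < x := by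
  induction d with
  | zero => intro x y h; simp [decr] at h
  | succ d ih =>
    intro x y h
    simp only [decr] at h
    rcases List.sublist_cons_iff.mp h with h | ⟨r, hr, h⟩
    · exact ih x y h
    · simp only [List.cons.injEq] at hr
      obtain ⟨rfl, rfl⟩ := hr
      have := (mem_decr base d y).mp (List.singleton_sublist.mp h)
      omega

def stk : ℕ → List (ℕ × ℕ) → List ℕ
  | _, [] => []
  | base, (d, g) :: bs => decr base d ++ stk (base + d + g) bs

def tot : List (ℕ × ℕ) → ℕ
  | [] => 0
  | (d, g) :: bs => d + g + tot bs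

theorem tot_append (a b : List (ℕ × ℕ)) : tot (a ++ b) = tot a + tot b := by
  induction a with
  | nil => simp [tot]
  | cons p a ih => obtain ⟨d, g⟩ := p; simp only [List.cons_append, tot, ih]; ring

theorem stk_append (base : ℕ) (a b : List (ℕ × ℕ)) :
    stk base (a ++ b) = stk base a ++ stk (base + tot a) b := by
  induction a generalizing base with
  | nil => simp [tot, stk]
  | cons p a ih =>
    obtain ⟨d, g⟩ := p
    simp only [List.cons_append, stk, tot, ih, List.append_assoc]
    congr 3
    ring

theorem stk_mem (base : ℕ) (bs : List (ℕ × ℕ)) (x : ℕ) (h : x ∈ stk base bs) :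
    base ≤ x ∧ x < base + tot bs := by
  induction bs generalizing base with
  | nil => simp [stk] at h
  | cons p bs ih =>
    obtain ⟨d, g⟩ := p
    simp only [stk, List.mem_append, mem_decr, tot] at h ⊢
    rcases h with h | h
    · omega
    · have := ih _ h
      omega

theorem decr_map_lt (v base d : ℕ) (h : base + d ≤ v) : (decr base d).map (bump v) = decr base d := by
  induction d with
  | zero => rfl
  | succ d ih =>
    simp only [decr, List.map_cons]
    rw [ih (by omega), bump_lt (by omega)]

theorem decr_map_ge (v base d : ℕ) (h : v ≤ base) :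
    (decr base d).map (bump v) = decr (base + 1) d := by
  induction d with
  | zero => rfl
  | succ d ih =>
    simp only [decr, List.map_cons]
    rw [ih, bump_ge (by omega)]
    congr 1
    omega

theorem stk_map_ge (v base : ℕ) (bs : List (ℕ × ℕ)) (h : v ≤ base) :
    (stk base bs).map (bump v) = stk (base + 1) bs := by
  induction bs generalizing base with
  | nil => rfl
  | cons p bs ih =>
    obtain ⟨d, g⟩ := p
    simp only [stk, List.map_append]
    rw [decr_map_ge v base d h, ih (base + d + g) (by omega)]
    congr 2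
    omega

theorem stk_map_lt (v base : ℕ) (bs : List (ℕ × ℕ)) (h : base + tot bs ≤ v) :
    (stk base bs).map (bump v) = stk base bs := by
  induction bs generalizing base with
  | nil => rfl
  | cons p bs ih =>
    obtain ⟨d, g⟩ := p
    simp only [stk, List.map_append, tot] at h ⊢
    rw [decr_map_lt v base d (by omega), ih (base + d + g) (by omega)]

theorem stk_not312 (bs : List (ℕ × ℕ)) : ∀ base, ¬ C312 (stk base bs) := by
  induction bs with
  | nil => intro base; rintro ⟨p, q, u, h, _⟩; simp [stk] at h
  | cons pp bs ih =>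
    obtain ⟨d, g⟩ := pp
    intro base
    rintro ⟨p, q, u, h, h1, h2⟩
    simp only [stk] at h
    rcases sublist3_append h with h | ⟨h, h3⟩ | ⟨h, h3⟩ | h
    · have : List.Sublist [q, u] (decr base d) :=
        List.Sublist.trans (List.sublist_cons_self _ _) h
      have := decr_pair base d q u this
      omega
    · have h4 := stk_mem _ _ _ h3
      have h5 := (mem_decr base d p).mp (h.subset (by simp))
      omega
    · have h4 := stk_mem _ _ _ (h3.subset (by simp : q ∈ [q, u]))
      have h5 := (mem_decr base d p).mp h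
      omega
    · exact ih _ ⟨p, q, u, h, h1, h2⟩

theorem stk_not231 (bs : List (ℕ × ℕ)) : ∀ base, ¬ C231 (stk base bs) := by
  induction bs with
  | nil => intro base; rintro ⟨p, q, u, h, _⟩; simp [stk] at h
  | cons pp bs ih =>
    obtain ⟨d, g⟩ := pp
    intro base
    rintro ⟨p, q, u, h, h1, h2⟩
    simp only [stk] at h
    rcases sublist3_append h with h | ⟨h, h3⟩ | ⟨h, h3⟩ | h
    · have : List.Sublist [p, q] (decr base d) :=
        List.Sublist.trans (List.Sublist.cons_cons _ (List.Sublist.cons_cons _ (List.nil_sublist _))) h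
      have := decr_pair base d p q this
      omega
    · have h4 := stk_mem _ _ _ h3
      have h5 := (mem_decr base d p).mp (h.subset (by simp))
      omega
    · have h4 := stk_mem _ _ _ (h3.subset (by simp : u ∈ [q, u]))
      have h5 := (mem_decr base d p).mp h
      omega
    · exact ih _ ⟨p, q, u, h, h1, h2⟩

/-- a descent pair in the stack lies in one block, which is an interval -/
theorem stk_interval (bs : List (ℕ × ℕ)) : ∀ base b c, List.Sublist [b, c] (stk base bs) →
    c < b → ∀ x, c ≤ x → x ≤ b → x ∈ stk base bs := by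
  induction bs with
  | nil => intro base b c h; simp [stk] at h
  | cons pp bs ih =>
    obtain ⟨d, g⟩ := pp
    intro base b c h hcb x h1 h2
    simp only [stk] at h ⊢
    rcases sublist2_append h with h | ⟨h, h3⟩ | h
    · have h4 := (mem_decr base d b).mp (h.subset (by simp))
      have h5 := (mem_decr base d c).mp (h.subset (by simp))
      rw [List.mem_append, mem_decr]
      left
      omega
    · have h4 := (mem_decr base d b).mp h
      have h5 := stk_mem _ _ _ h3
      omega
    · rw [List.mem_append]
      right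
      exact ih _ b c h hcb x h1 h2

/-- an ascent pair in the stack uses two different blocks -/
theorem stk_asc (pre : List (ℕ × ℕ)) (d g : ℕ) (base : ℕ) (x y : ℕ)
    (h : List.Sublist [x, y] (stk base (pre ++ [(d, g)]))) (hxy : x < y) :
    x < base + tot pre := by
  rw [stk_append] at h
  simp only [stk, List.append_nil] at h
  rcases sublist2_append h with h | ⟨h, _⟩ | h
  · exact (stk_mem _ _ _ (h.subset (by simp))).2
  · exact (stk_mem _ _ _ h).2
  · have := decr_pair _ _ _ _ h
    omega

/-- Configurations. -/
structure Cfg (l O : List ℕ) (l0 u : ℕ) (bs : List (ℕ × ℕ)) : Prop where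
  run_eq : run l = (stk (l0 + u) bs, O)
  len : l.length = l0 + u + tot bs
  memO : ∀ x, x ∈ O ↔ x < l0 + u + tot bs ∧ x ∉ stk (l0 + u) bs
  dpos : ∀ p ∈ bs, 1 ≤ p.1
  asc : ∀ x y, List.Sublist [x, y] O → x < y → x < l0
  top : l0 = 0 ∨ ∃ y, List.Sublist [l0 - 1, y] O ∧ l0 - 1 < y
  av : ¬ C231 O

theorem Cfg.sortable' {l O : List ℕ} {l0 u : ℕ} {bs : List (ℕ × ℕ)} (h : Cfg l O l0 u bs) :
    ¬ C231 (O ++ stk (l0 + u) bs) := by
  rintro ⟨a, b, c, h1, h2, h3⟩
  rcases sublist3_append h1 with h4 | ⟨h4, h5⟩ | ⟨h4, h5⟩ | h4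
  · exact h.av ⟨a, b, c, h4, h2, h3⟩
  · have := h.asc a b h4 h3
    have := stk_mem _ _ _ h5
    omega
  · have h6 := stk_interval _ _ b c h5 (by omega) a (by omega) (by omega)
    exact ((h.memO a).mp h4).2 h6
  · exact stk_not231 _ _ ⟨a, b, c, h4, h2, h3⟩

theorem Cfg.sortable {l O : List ℕ} {l0 u : ℕ} {bs : List (ℕ × ℕ)} (h : Cfg l O l0 u bs) :
    Sortable l := by
  unfold Sortable
  rw [final_eq, h.run_eq]
  exact h.sortable'

theorem not312_push (v base d g : ℕ) (bs : List (ℕ × ℕ)) (hv : v ≤ base + d + g) :
    ¬ C312 (v :: (stk base ((d, g) :: bs)).map (bump v)) := by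
  rintro ⟨p, q, u, h, h1, h2⟩
  rcases List.sublist_cons_iff.mp h with h | ⟨r, hr, h⟩
  · have : C312 ((stk base ((d, g) :: bs)).map (bump v)) := ⟨p, q, u, h, h1, h2⟩
    rw [C312_map _ (bump_strictMono v)] at this
    exact stk_not312 _ _ this
  · simp only [List.cons.injEq] at hr
    obtain ⟨rfl, rfl⟩ := hr
    rw [List.sublist_map_iff] at h
    obtain ⟨l, hl, he⟩ := h
    match l, he with
    | [q', u'], he =>
      simp only [List.map_cons, List.map_nil, List.cons.injEq, and_true] at he
      obtain ⟨e1, e2⟩ := he
      have hq' : q' < p := by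
        by_contra hc
        rw [bump_ge (by omega)] at e1
        omega
      have hu' : u' < p := by
        by_contra hc
        rw [bump_ge (by omega)] at e2
        omega
      rw [bump_lt hq'] at e1
      rw [bump_lt hu'] at e2
      subst e1; subst e2
      simp only [stk] at hl
      rcases sublist2_append hl with h4 | ⟨_, h4⟩ | h4
      · have := decr_pair _ _ _ _ h4
        omega
      · have := stk_mem _ _ _ h4
        omega
      · have := stk_mem _ _ _ (h4.subset (by simp : u ∈ [q, u]))
        omega

theorem not312_push' (v base : ℕ) (bs : List (ℕ × ℕ)) (hv : v ≤ base) :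
    ¬ C312 (v :: (stk base bs).map (bump v)) := by
  cases bs with
  | nil => simp only [stk, List.map_nil]; exact not_C312_single v
  | cons p bs => obtain ⟨d, g⟩ := p; exact not312_push v base d g bs (by omega)

theorem run_low {l O : List ℕ} {l0 u : ℕ} {bs : List (ℕ × ℕ)} (h : Cfg l O l0 u bs)
    (v : ℕ) (hv : v ≤ l0 + u) :
    run (ins v l) = (v :: stk (l0 + u + 1) bs, O.map (bump v)) := by
  rw [run_ins, h.run_eq]
  simp only
  rw [feed_neg _ _ _ (not312_push' v _ bs hv), stk_map_ge v _ bs hv]

theorem run_zone {l O : List ℕ} {l0 u : ℕ} {pre post : List (ℕ × ℕ)} {d g : ℕ}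
    (h : Cfg l O l0 u (pre ++ (d, g) :: post)) (v : ℕ)
    (hv1 : l0 + u + tot pre < v) (hv2 : v ≤ l0 + u + tot pre + d + g) :
    run (ins v l) = (v :: ((decr (l0 + u + tot pre) d).map (bump v) ++
      stk (l0 + u + tot pre + d + g + 1) post), O.map (bump v) ++ stk (l0 + u) pre) := by
  have hd : 1 ≤ d := h.dpos (d, g) (by simp)
  rw [run_ins, h.run_eq]
  simp only
  rw [stk_append, List.map_append, feed_pop, stk_map_lt v (l0 + u) pre (by omega),
    feed_neg _ _ _ (not312_push v _ d g post hv2)]
  · simp only [stk, List.map_append]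
    rw [stk_map_ge v _ post (by omega)]
  · intro p hp
    rw [stk_map_lt v (l0 + u) pre (by omega)] at hp
    have h1 := stk_mem _ _ _ hp
    refine ⟨l0 + u + tot pre, ?_, by omega, hv1⟩
    rw [List.mem_map]
    refine ⟨l0 + u + tot pre, ?_, bump_lt hv1⟩
    simp only [stk, List.mem_append, mem_decr]
    left
    omega

theorem memO_aux (O S : List ℕ) (n v : ℕ) (hv : v ≤ n) (h : ∀ x, x ∈ O ↔ x < n ∧ x ∉ S) :
    ∀ x, x ∈ O.map (bump v) ↔ x < n + 1 ∧ x ≠ v ∧ x ∉ S.map (bump v) := by
  intro x
  have hkey : ∀ (L : List ℕ), x ∈ L.map (bump v) ↔ (x < v ∧ x ∈ L) ∨ (v < x ∧ x - 1 ∈ L) := by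
    intro L
    rw [List.mem_map]
    constructor
    · rintro ⟨y, hy, rfl⟩
      by_cases hyv : y < v
      · rw [bump_lt hyv]; exact Or.inl ⟨hyv, hy⟩
      · rw [bump_ge (by omega)]
        right
        refine ⟨by omega, ?_⟩
        simpa using hy
    · rintro (⟨h1, h2⟩ | ⟨h1, h2⟩)
      · exact ⟨x, h2, bump_lt h1⟩
      · refine ⟨x - 1, h2, ?_⟩
        rw [bump_ge (by omega)]
        omega
  rw [hkey, hkey]
  rcases lt_trichotomy x v with hx | hx | hx
  · have e1 := h x
    constructor
    · rintro (⟨_, h2⟩ | ⟨h2, _⟩)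
      · refine ⟨by omega, by omega, ?_⟩
        rintro (⟨_, h3⟩ | ⟨h3, _⟩)
        · exact (e1.mp h2).2 h3
        · omega
      · omega
    · rintro ⟨_, _, h3⟩
      left
      refine ⟨hx, e1.mpr ⟨by omega, fun h4 => h3 (Or.inl ⟨hx, h4⟩)⟩⟩
  · subst hx
    constructor
    · rintro (⟨h2, _⟩ | ⟨h2, _⟩) <;> omega
    · rintro ⟨_, h2, _⟩; exact absurd rfl h2
  · have e1 := h (x - 1)
    constructor
    · rintro (⟨h2, _⟩ | ⟨_, h2⟩)
      · omega
      · refine ⟨by have := (e1.mp h2).1; omega, by omega, ?_⟩
        rintro (⟨h3, _⟩ | ⟨_, h3⟩)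
        · omega
        · exact (e1.mp h2).2 h3
    · rintro ⟨h1, _, h3⟩
      right
      refine ⟨hx, e1.mpr ⟨by omega, fun h4 => h3 (Or.inr ⟨hx, h4⟩)⟩⟩

theorem ins_length (v : ℕ) (l : List ℕ) : (ins v l).length = l.length + 1 := by
  simp [ins]

theorem asc_map {O : List ℕ} {l0 v : ℕ}
    (h : ∀ x y, List.Sublist [x, y] O → x < y → x < l0) (hv : l0 ≤ v) :
    ∀ x y, List.Sublist [x, y] (O.map (bump v)) → x < y → x < l0 := by
  intro x y hs hxy
  rw [List.sublist_map_iff] at hs
  obtain ⟨l, hl, he⟩ := hs
  match l, he with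
  | [x', y'], he =>
    simp only [List.map_cons, List.map_nil, List.cons.injEq, and_true] at he
    obtain ⟨e1, e2⟩ := he
    subst e1; subst e2
    have h1 := h x' y' hl ((bump_strictMono v).lt_iff_lt.mp hxy)
    rw [bump_lt (by omega)]
    exact h1

theorem top_map {O : List ℕ} {l0 v : ℕ}
    (h : l0 = 0 ∨ ∃ y, List.Sublist [l0 - 1, y] O ∧ l0 - 1 < y) (hv : l0 ≤ v) :
    l0 = 0 ∨ ∃ y, List.Sublist [l0 - 1, y] (O.map (bump v)) ∧ l0 - 1 < y := by
  rcases h with h | ⟨y, h1, h2⟩
  · exact Or.inl h
  · by_cases h0 : l0 = 0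
    · exact Or.inl h0
    · right
      refine ⟨bump v y, ?_, ?_⟩
      · have h3 := h1.map (bump v)
        simp only [List.map_cons, List.map_nil] at h3
        rw [bump_lt (by omega)] at h3
        exact h3
      · have := bump_strictMono v h2
        rw [bump_lt (by omega)] at this
        exact this

theorem cfg_c {l O : List ℕ} {l0 u : ℕ} {bs : List (ℕ × ℕ)} (h : Cfg l O l0 u bs)
    (t : ℕ) (ht : t ≤ u) :
    Cfg (ins (l0 + t) l) (O.map (bump (l0 + t))) l0 t ((1, u - t) :: bs) := by
  have e1 : l0 + t + 1 + (u - t) = l0 + u + 1 := by omega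
  have hst : stk (l0 + t) ((1, u - t) :: bs) = (l0 + t) :: stk (l0 + u + 1) bs := by
    simp only [stk, decr, e1, List.cons_append, List.nil_append, add_zero]
  refine ⟨?_, ?_, ?_, ?_, ?_, ?_, ?_⟩
  · rw [run_low h (l0 + t) (by omega), hst]
  · rw [ins_length, h.len]; simp only [tot]; omega
  · intro x
    rw [memO_aux O (stk (l0 + u) bs) (l0 + u + tot bs) (l0 + t) (by omega) h.memO x,
      stk_map_ge _ _ _ (by omega), hst, List.mem_cons]
    simp only [tot]
    constructor
    · rintro ⟨h1, h2, h3⟩
      exact ⟨by omega, fun h4 => by rcases h4 with h4 | h4 <;> contradiction⟩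
    · rintro ⟨h1, h2⟩
      exact ⟨by omega, fun h4 => h2 (Or.inl h4), fun h4 => h2 (Or.inr h4)⟩
  · intro p hp
    rcases List.mem_cons.mp hp with hp | hp
    · subst hp; simp
    · exact h.dpos p hp
  · exact asc_map h.asc (by omega)
  · exact top_map h.top (by omega)
  · rw [C231_map _ (bump_strictMono _)]; exact h.av

theorem cfg_a {l O : List ℕ} {l0 u d g : ℕ} {post : List (ℕ × ℕ)}
    (h : Cfg l O l0 u ((d, g) :: post)) :
    Cfg (ins (l0 + u + d) l) (O.map (bump (l0 + u + d))) l0 u ((d + 1, g) :: post) := by
  have hd : 1 ≤ d := h.dpos (d, g) (by simp)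
  have hst : stk (l0 + u) ((d + 1, g) :: post) =
      (l0 + u + d) :: (decr (l0 + u) d ++ stk (l0 + u + d + g + 1) post) := by
    simp only [stk, decr, List.cons_append]
    congr 3
    ring
  have hmap : (stk (l0 + u) ((d, g) :: post)).map (bump (l0 + u + d)) =
      decr (l0 + u) d ++ stk (l0 + u + d + g + 1) post := by
    simp only [stk, List.map_append]
    rw [decr_map_lt _ _ _ le_rfl, stk_map_ge _ _ _ (by omega)]
  refine ⟨?_, ?_, ?_, ?_, ?_, ?_, ?_⟩
  · have := run_zone (pre := []) h (l0 + u + d) (by simp only [tot]; omega)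
      (by simp only [tot]; omega)
    rw [this, hst]
    simp only [tot, add_zero, stk, List.append_nil]
    rw [decr_map_lt _ _ _ le_rfl]
  · rw [ins_length, h.len]; simp only [tot]; omega
  · intro x
    rw [memO_aux O _ (l0 + u + tot ((d, g) :: post)) (l0 + u + d) (by simp only [tot]; omega)
      h.memO x, hmap, hst, List.mem_cons]
    simp only [tot]
    constructor
    · rintro ⟨h1, h2, h3⟩
      exact ⟨by omega, fun h4 => by rcases h4 with h4 | h4 <;> contradiction⟩
    · rintro ⟨h1, h2⟩
      exact ⟨by omega, fun h4 => h2 (Or.inl h4), fun h4 => h2 (Or.inr h4)⟩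
  · intro p hp
    rcases List.mem_cons.mp hp with hp | hp
    · subst hp; simp
    · exact h.dpos p (List.mem_cons_of_mem _ hp)
  · exact asc_map h.asc (by omega)
  · exact top_map h.top (by omega)
  · rw [C231_map _ (bump_strictMono _)]; exact h.av

theorem cfg_b {l O : List ℕ} {l0 u d g d' g' : ℕ} {pre post : List (ℕ × ℕ)}
    (h : Cfg l O l0 u (pre ++ (d', g') :: (d, g) :: post)) :
    Cfg (ins (l0 + u + tot pre + d' + g' + d) l)
      (O.map (bump (l0 + u + tot pre + d' + g' + d)) ++ stk (l0 + u) (pre ++ [(d', g')]))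
      (l0 + u + tot pre) (d' + g') ((d + 1, g) :: post) := by
  have hd : 1 ≤ d := h.dpos (d, g) (by simp)
  have hd' : 1 ≤ d' := h.dpos (d', g') (by simp)
  have hbs : pre ++ (d', g') :: (d, g) :: post = (pre ++ [(d', g')]) ++ (d, g) :: post := by simp
  have htot : tot (pre ++ [(d', g')]) = tot pre + d' + g' := by
    rw [tot_append]; simp only [tot]; omega
  have hst : stk (l0 + u + tot pre + (d' + g')) ((d + 1, g) :: post) =
      (l0 + u + tot pre + d' + g' + d) :: (decr (l0 + u + tot pre + d' + g') d ++
        stk (l0 + u + tot pre + d' + g' + d + g + 1) post) := by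
    have e : l0 + u + tot pre + (d' + g') = l0 + u + tot pre + d' + g' := by ring
    simp only [stk, decr, List.cons_append, e]
    congr 3
    ring
  have h' := h
  rw [hbs] at h'
  have hS : (stk (l0 + u) (pre ++ (d', g') :: (d, g) :: post)).map
      (bump (l0 + u + tot pre + d' + g' + d)) =
      stk (l0 + u) (pre ++ [(d', g')]) ++ (decr (l0 + u + tot pre + d' + g') d ++
        stk (l0 + u + tot pre + d' + g' + d + g + 1) post) := by
    rw [hbs, stk_append, List.map_append, stk_map_lt _ _ _ (by rw [htot]; omega)]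
    congr 1
    have e : l0 + u + tot (pre ++ [(d', g')]) = l0 + u + tot pre + d' + g' := by
      rw [htot]; ring
    rw [e]
    simp only [stk, List.map_append]
    rw [decr_map_lt _ _ _ le_rfl, stk_map_ge _ _ _ (by omega)]
  refine ⟨?_, ?_, ?_, ?_, ?_, ?_, ?_⟩
  · have := run_zone h' (l0 + u + tot pre + d' + g' + d) (by rw [htot]; omega)
      (by rw [htot]; omega)
    rw [this, hst]
    have e : l0 + u + tot (pre ++ [(d', g')]) = l0 + u + tot pre + d' + g' := by
      rw [htot]; ring
    rw [e, decr_map_lt _ _ _ le_rfl]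
  · rw [ins_length, h.len, tot_append]; simp only [tot]; omega
  · intro x
    rw [List.mem_append, memO_aux O _ _ (l0 + u + tot pre + d' + g' + d)
      (by rw [tot_append]; simp only [tot]; omega) h.memO x, hS, hst, List.mem_cons,
      tot_append]
    simp only [tot]
    rw [List.mem_append]
    constructor
    · rintro (⟨h1, h2, h3⟩ | h1)
      · refine ⟨by omega, ?_⟩
        rintro (h4 | h4)
        · exact h2 h4
        · exact h3 (Or.inr h4)
      · have h2 := stk_mem _ _ _ h1
        rw [htot] at h2
        refine ⟨by omega, ?_⟩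
        rintro (h4 | h4)
        · omega
        · rcases List.mem_append.mp h4 with h5 | h5
          · rw [mem_decr] at h5; omega
          · have := stk_mem _ _ _ h5; omega
    · rintro ⟨h1, h2⟩
      by_cases h3 : x ∈ stk (l0 + u) (pre ++ [(d', g')])
      · exact Or.inr h3
      · left
        refine ⟨by omega, fun h4 => h2 (Or.inl h4), ?_⟩
        rintro (h4 | h4)
        · exact h3 h4
        · exact h2 (Or.inr h4)
  · intro p hp
    rcases List.mem_cons.mp hp with hp | hp
    · subst hp; simp
    · exact h.dpos p (by simp [hp])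
  · intro x y hs hxy
    rcases sublist2_append hs with h1 | ⟨h1, h2⟩ | h1
    · have := asc_map h.asc (v := l0 + u + tot pre + d' + g' + d) (by omega) x y h1 hxy
      omega
    · have h3 := (memO_aux O _ _ (l0 + u + tot pre + d' + g' + d)
        (by rw [tot_append]; simp only [tot]; omega) h.memO x).mp h1
      have h4 := stk_mem _ _ _ h2
      rw [htot] at h4
      by_contra hc
      apply h3.2.2
      rw [hS, List.mem_append]
      left
      rw [stk_append] at h2 ⊢
      simp only [stk, List.append_nil] at h2 ⊢
      rw [List.mem_append, mem_decr] at h2 ⊢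
      right
      rcases h2 with h2 | h2
      · have := stk_mem _ _ _ h2
        omega
      · omega
    · exact stk_asc pre d' g' (l0 + u) x y h1 hxy
  · by_cases h0 : l0 + u + tot pre = 0
    · exact Or.inl h0
    · right
      refine ⟨l0 + u + tot pre, ?_, by omega⟩
      have hmem : l0 + u + tot pre ∈ decr (l0 + u + tot pre) d' := by
        rw [mem_decr]; omega
      -- the element l0+u+tot pre - 1
      by_cases h1 : l0 + u + tot pre - 1 ∈ stk (l0 + u) pre
      · rw [stk_append]
        simp only [stk, List.append_nil]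
        have : List.Sublist [l0 + u + tot pre - 1, l0 + u + tot pre]
            (stk (l0 + u) pre ++ decr (l0 + u + tot pre) d') := by
          have := List.Sublist.append (List.singleton_sublist.mpr h1)
            (List.singleton_sublist.mpr hmem)
          exact this
        exact this.trans (List.sublist_append_right _ _)
      · have hO : l0 + u + tot pre - 1 ∈ O := by
          rw [h.memO]
          refine ⟨by rw [tot_append]; simp only [tot]; omega, ?_⟩
          rw [stk_append, List.mem_append]
          rintro (h2 | h2)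
          · exact h1 h2
          · have := stk_mem _ _ _ h2
            omega
        have hO' : l0 + u + tot pre - 1 ∈ O.map (bump (l0 + u + tot pre + d' + g' + d)) := by
          rw [List.mem_map]
          exact ⟨_, hO, bump_lt (by omega)⟩
        have hP : l0 + u + tot pre ∈ stk (l0 + u) (pre ++ [(d', g')]) := by
          rw [stk_append]
          simp only [stk, List.append_nil]
          exact List.mem_append_right _ hmem
        have := List.Sublist.append (List.singleton_sublist.mpr hO')
          (List.singleton_sublist.mpr hP)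
        exact this
  · intro hC
    apply h.sortable'
    rw [← C231_map _ (bump_strictMono (l0 + u + tot pre + d' + g' + d)), List.map_append, hS]
    apply C231_mono _ hC
    apply List.Sublist.append_left
    exact List.sublist_append_left _ _

/-- values below `l0` are forbidden -/
theorem bad_low {l O : List ℕ} {l0 u : ℕ} {bs : List (ℕ × ℕ)} (h : Cfg l O l0 u bs)
    (v : ℕ) (hv : v < l0) : ¬ Sortable (ins v l) := by
  intro hs
  apply hs
  rw [final_eq, run_low h v (by omega)]
  rcases h.top with h0 | ⟨y, h1, h2⟩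
  · omega
  · refine ⟨bump v (l0 - 1), bump v y, v, ?_, ?_, bump_strictMono v h2⟩
    · have h3 := h1.map (bump v)
      have := List.Sublist.append h3 (List.singleton_sublist.mpr
        (List.mem_cons_self (a := v) (l := stk (l0 + u + 1) bs)))
      exact this
    · rw [bump_ge (by omega)]; omega

/-- all other values of a zone are forbidden -/
theorem bad_zone {l O : List ℕ} {l0 u : ℕ} {pre post : List (ℕ × ℕ)} {d g : ℕ}
    (h : Cfg l O l0 u (pre ++ (d, g) :: post)) (v : ℕ)
    (hv1 : l0 + u + tot pre < v) (hv2 : v ≤ l0 + u + tot pre + d + g)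
    (hv3 : v ≠ l0 + u + tot pre + d) : ¬ Sortable (ins v l) := by
  have hd : 1 ≤ d := h.dpos (d, g) (by simp)
  intro hs
  apply hs
  rw [final_eq, run_zone h v hv1 hv2]
  simp only
  rcases Nat.lt_or_ge v (l0 + u + tot pre + d) with hlt | hge
  · -- `v` as the middle value: pattern v, top, bottom
    refine ⟨v, l0 + u + tot pre + d, l0 + u + tot pre, ?_, hv1, hlt⟩
    apply List.Sublist.trans _ (List.sublist_append_right _ _)
    apply List.Sublist.cons_cons
    apply List.Sublist.trans _ (List.sublist_append_left _ _)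
    have h1 : List.Sublist [l0 + u + tot pre + d - 1, l0 + u + tot pre]
        (decr (l0 + u + tot pre) d) := by
      obtain ⟨d, rfl⟩ : ∃ d', d = d' + 1 := ⟨d - 1, by omega⟩
      simp only [decr]
      have e : l0 + u + tot pre + (d + 1) - 1 = l0 + u + tot pre + d := by omega
      rw [e]
      apply List.Sublist.cons_cons
      rw [List.singleton_sublist, mem_decr]
      omega
    have h2 := h1.map (bump v)
    simp only [List.map_cons, List.map_nil] at h2
    rw [bump_ge (by omega), bump_lt hv1] at h2
    have e : l0 + u + tot pre + d - 1 + 1 = l0 + u + tot pre + d := by omega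
    rw [e] at h2
    exact h2
  · -- gap element x = base + d in O
    refine ⟨l0 + u + tot pre + d, v, l0 + u + tot pre, ?_, by omega, by omega⟩
    have hx : l0 + u + tot pre + d ∈ O := by
      rw [h.memO]
      refine ⟨by rw [tot_append]; simp only [tot]; omega, ?_⟩
      rw [stk_append, List.mem_append]
      simp only [stk]
      rw [List.mem_append, mem_decr]
      rintro (h2 | h2 | h2)
      · have := stk_mem _ _ _ h2
        omega
      · omega
      · have := stk_mem _ _ _ h2
        omega
    have hx' : l0 + u + tot pre + d ∈ O.map (bump v) ++ stk (l0 + u) pre := by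
      apply List.mem_append_left
      rw [List.mem_map]
      exact ⟨_, hx, bump_lt (by omega)⟩
    have h1 : List.Sublist [v, l0 + u + tot pre] (v :: ((decr (l0 + u + tot pre) d).map (bump v) ++
      stk (l0 + u + tot pre + d + g + 1) post)) := by
      apply List.Sublist.cons_cons
      rw [List.singleton_sublist]
      apply List.mem_append_left
      rw [List.mem_map]
      exact ⟨l0 + u + tot pre, by rw [mem_decr]; omega, bump_lt hv1⟩
    have := List.Sublist.append (List.singleton_sublist.mpr hx') h1
    exact this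

end Pool.Agent.H502R3.MA
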