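import Mathlib
import Pool.Agent.H502R3.MA2
import Pool.Agent.H207R3.AscDefs

/-! Machine side, part 3: counting. -/

namespace Pool.Agent.H502R3.MA

open Finset
open Pool.Agent.H207R3.Asc (popf d)

open Classical in
/-- number of sortable `m`-fold extensions -/
noncomputable def cnt : ℕ → List ℕ → ℕ
  | 0, l => if Sortable l then 1 else 0
  | m + 1, l => ∑ v ∈ range (l.length + 1), cnt m (ins v l)

theorem cnt_eq_zero (m : ℕ) : ∀ l, ¬ Sortable l → cnt m l = 0 := by
  induction m with
  | zero => intro l h; simp [cnt, h]
  | succ m ih =>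
    intro l h
    simp only [cnt]
    apply Finset.sum_eq_zero
    intro v _
    exact ih _ (fun hs => h (sortable_of_ins v l hs))

/-- sum of `f` over the admissible positions of the zones -/
def zsum (f : ℕ → ℕ) : ℕ → List (ℕ × ℕ) → ℕ
  | _, [] => 0
  | base, (d, g) :: zs => f (base + d) + zsum f (base + d + g) zs

theorem zone_sum (f : ℕ → ℕ) (zs : List (ℕ × ℕ)) : ∀ base,
    (∀ pre d g post, zs = pre ++ (d, g) :: post → 1 ≤ d ∧
      ∀ v, base + tot pre < v → v ≤ base + tot pre + d + g → v ≠ base + tot pre + d → f v = 0) →
    ∑ i ∈ range (tot zs), f (base + 1 + i) = zsum f base zs := by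
  induction zs with
  | nil => intro base _; simp [tot, zsum]
  | cons p zs ih =>
    obtain ⟨dd, g⟩ := p
    intro base h
    simp only [tot, zsum]
    have h0 := h [] dd g zs rfl
    simp only [tot, add_zero] at h0
    rw [Finset.sum_range_add]
    congr 1
    · rw [Finset.sum_eq_single (dd - 1)]
      · congr 1; omega
      · intro i hi hne
        rw [Finset.mem_range] at hi
        exact h0.2 _ (by omega) (by omega) (by omega)
      · intro hi
        rw [Finset.mem_range] at hi
        omega
    · rw [← ih (base + dd + g)]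
      · apply Finset.sum_congr rfl
        intro i _
        congr 1
        ring
      · intro pre d' g' post hz
        have h1 := h ((dd, g) :: pre) d' g' post (by rw [hz]; rfl)
        refine ⟨h1.1, ?_⟩
        intro v hv1 hv2 hv3
        simp only [tot] at h1
        exact h1.2 v (by omega) (by omega) (by omega)

theorem cnt_eq (m : ℕ) : ∀ (l O : List ℕ) (l0 u dd g : ℕ) (bs : List (ℕ × ℕ)),
    Cfg l O l0 u ((dd, g) :: bs) →
    cnt m l = d m u (dd + g) (bs.map (fun p => p.1 + p.2)) := by
  induction m with
  | zero =>
    intro l O l0 u dd g bs h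
    simp only [cnt, d]
    rw [if_pos h.sortable]
  | succ m ih =>
    intro l O l0 u dd g bs h
    simp only [cnt, d]
    rw [h.len]
    have e1 : l0 + u + tot ((dd, g) :: bs) + 1 = l0 + ((u + 1) + tot ((dd, g) :: bs)) := by ring
    rw [e1, Finset.sum_range_add, Finset.sum_range_add]
    have hlow : ∑ v ∈ range l0, cnt m (ins v l) = 0 := by
      apply Finset.sum_eq_zero
      intro v hv
      rw [Finset.mem_range] at hv
      exact cnt_eq_zero m _ (bad_low h v hv)
    have hmid : ∑ t ∈ range (u + 1), cnt m (ins (l0 + t) l) =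
        ∑ j ∈ range (u + 1), d m (u - j) (1 + j) ((dd + g) :: bs.map (fun p => p.1 + p.2)) := by
      rw [← Finset.sum_range_reflect]
      apply Finset.sum_congr rfl
      intro j hj
      rw [Finset.mem_range] at hj
      have e2 : u + 1 - 1 - j = u - j := by omega
      rw [e2]
      have h1 := ih _ _ _ _ _ _ _ (cfg_c h (u - j) (by omega))
      rw [h1]
      have e3 : 1 + (u - (u - j)) = 1 + j := by omega
      rw [e3]
      rfl
    have hz : ∑ x ∈ range (tot ((dd, g) :: bs)), cnt m (ins (l0 + (u + 1 + x)) l) =
        zsum (fun v => cnt m (ins v l)) (l0 + u) ((dd, g) :: bs) := by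
      rw [← zone_sum (fun v => cnt m (ins v l)) ((dd, g) :: bs) (l0 + u)]
      · apply Finset.sum_congr rfl
        intro x _
        congr 2
        ring
      · intro pre d' g' post hzs
        have h' := h
        rw [hzs] at h'
        refine ⟨h'.dpos (d', g') (by simp), ?_⟩
        intro v hv1 hv2 hv3
        exact cnt_eq_zero m _ (bad_zone h' v hv1 hv2 hv3)
    have hpop : ∀ (suf pre : List (ℕ × ℕ)) (d' g' : ℕ),
        (dd, g) :: bs = pre ++ (d', g') :: suf →
        zsum (fun v => cnt m (ins v l)) (l0 + u + tot pre + d' + g') suf =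
          popf (d m) (d' + g') (suf.map (fun p => p.1 + p.2)) := by
      intro suf
      induction suf with
      | nil => intro pre d' g' _; simp [zsum, popf]
      | cons p suf ihs =>
        obtain ⟨d2, g2⟩ := p
        intro pre d' g' hzs
        simp only [zsum, List.map_cons, popf]
        have h' := h
        rw [hzs] at h'
        have h1 := ih _ _ _ _ _ _ _ (cfg_b h')
        have e2 : d2 + 1 + g2 = d2 + g2 + 1 := by ring
        rw [e2] at h1
        rw [h1]
        have h2 := ihs (pre ++ [(d', g')]) d2 g2 (by rw [hzs]; simp)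
        have e3 : l0 + u + tot (pre ++ [(d', g')]) + d2 + g2 =
            l0 + u + tot pre + d' + g' + d2 + g2 := by
          rw [tot_append]; simp only [tot]; ring
        rw [e3] at h2
        rw [h2]
    rw [hlow, hmid, hz]
    simp only [zsum]
    have h1 := ih _ _ _ _ _ _ _ (cfg_a h)
    have e2 : dd + 1 + g = dd + g + 1 := by ring
    rw [e2] at h1
    rw [h1]
    have h2 := hpop bs [] dd g rfl
    simp only [tot, add_zero] at h2
    rw [h2]
    ring

theorem run_single : run [0] = ([0], []) := by
  simp [run, runFrom, feed]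

theorem cfg_init : Cfg [0] [] 0 0 [(1, 0)] := by
  refine ⟨?_, ?_, ?_, ?_, ?_, ?_, ?_⟩
  · rw [run_single]; simp [stk, decr]
  · simp [tot]
  · intro x
    simp only [List.not_mem_nil, false_iff, tot, stk, decr]
    simp
  · intro p hp
    simp at hp
    subst hp
    simp
  · intro x y h; simp at h
  · exact Or.inl rfl
  · rintro ⟨a, b, c, h, _⟩; simp at h

theorem cnt_total (n : ℕ) : cnt (n + 1) [] = d n 0 1 [] := by
  have h1 : cnt (n + 1) [] = cnt n [0] := by
    simp [cnt, ins]
  rw [h1, cnt_eq n [0] [] 0 0 1 0 [] cfg_init]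
  rfl

/-! ### permutations as lists -/

/-- the words that are permutations of `0, ..., n-1` -/
def PL (n : ℕ) : Finset (List ℕ) :=
  ⟨(Finset.range n).val.lists, Multiset.lists_nodup_finset (Finset.range n)⟩

theorem mem_PL (n : ℕ) (w : List ℕ) : w ∈ PL n ↔ w.Nodup ∧ ∀ x, x ∈ w ↔ x < n := by
  show w ∈ (Finset.range n).val.lists ↔ _
  rw [Multiset.mem_lists_iff]
  constructor
  · intro h
    have h' : (Finset.range n).val = (w : Multiset ℕ) := h
    refine ⟨?_, ?_⟩
    · have := (Finset.range n).nodup
      rw [h'] at this
      exact Multiset.coe_nodup.mp this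
    · intro x
      rw [← Finset.mem_range, ← Finset.mem_val, h', Multiset.mem_coe]
  · rintro ⟨h1, h2⟩
    show (Finset.range n).val = (w : Multiset ℕ)
    apply Multiset.Nodup.ext (Finset.range n).nodup (Multiset.coe_nodup.mpr h1) |>.mpr
    intro a
    rw [Finset.mem_val, Multiset.mem_coe, h2, Finset.mem_range]

theorem PL_length (n : ℕ) (w : List ℕ) (h : w ∈ PL n) : w.length = n := by
  rw [mem_PL] at h
  have h1 : w.toFinset = Finset.range n := by
    ext x
    rw [List.mem_toFinset, h.2, Finset.mem_range]
  rw [← List.toFinset_card_of_nodup h.1, h1, Finset.card_range]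

/-- inverse of `bump` -/
def unbump (v x : ℕ) : ℕ := if v < x then x - 1 else x

theorem bump_unbump (v x : ℕ) (h : x ≠ v) : bump v (unbump v x) = x := by
  unfold bump unbump
  split_ifs <;> omega

theorem bump_ne (v x : ℕ) : bump v x ≠ v := by
  unfold bump
  split_ifs <;> omega

theorem sum_PL_succ (n : ℕ) (f : List ℕ → ℕ) :
    ∑ l ∈ PL (n + 1), f l = ∑ l ∈ PL n, ∑ v ∈ range (n + 1), f (ins v l) := by
  rw [← Finset.sum_product']
  symm
  apply Finset.sum_nbij (fun x : List ℕ × ℕ => ins x.2 x.1)
  · rintro ⟨l, v⟩ hx
    rw [Finset.mem_product, mem_PL, Finset.mem_range] at hx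
    obtain ⟨⟨h1, h2⟩, hv⟩ := hx
    simp only at h1 h2 hv ⊢
    rw [mem_PL]
    unfold ins
    refine ⟨?_, ?_⟩
    · rw [List.nodup_append]
      refine ⟨h1.map (bump_strictMono v).injective, List.nodup_singleton _, ?_⟩
      intro a ha b hb hab
      rw [List.mem_singleton] at hb
      subst hb
      subst hab
      rw [List.mem_map] at ha
      obtain ⟨y, _, hy⟩ := ha
      exact bump_ne _ _ hy
    · intro x
      rw [List.mem_append, List.mem_map, List.mem_singleton]
      constructor
      · rintro (⟨y, hy, rfl⟩ | rfl)
        · rw [h2] at hy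
          unfold bump
          split_ifs <;> omega
        · exact hv
      · intro hx
        by_cases hxv : x = v
        · exact Or.inr hxv
        · left
          refine ⟨unbump v x, ?_, bump_unbump v x hxv⟩
          rw [h2]
          unfold unbump
          split_ifs <;> omega
  · rintro ⟨l, v⟩ _ ⟨l', v'⟩ _ heq
    simp only [ins] at heq
    have h1 := List.append_inj' heq rfl
    have h2 : v = v' := by
      have := h1.2
      simpa using this
    subst h2
    have h3 := List.map_injective_iff.mpr (bump_strictMono v).injective h1.1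
    rw [h3]
  · intro w hw
    rw [Finset.mem_coe] at hw
    have hlen := PL_length _ _ hw
    rw [mem_PL] at hw
    obtain ⟨hw1, hw2⟩ := hw
    rcases List.eq_nil_or_concat w with h0 | ⟨init, v, hw'⟩
    · subst h0; simp at hlen
    · rw [List.concat_eq_append] at hw'
      subst hw'
      rw [List.nodup_append] at hw1
      obtain ⟨hi1, _, hi3⟩ := hw1
      have hne : ∀ x ∈ init, x ≠ v := fun x hx => hi3 x hx v (by simp)
      have hv : v < n + 1 := (hw2 v).mp (by simp)
      have hmap : (init.map (unbump v)).map (bump v) = init := by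
        rw [List.map_map]
        conv_rhs => rw [← List.map_id init]
        apply List.map_congr_left
        intro x hx
        exact bump_unbump v x (hne x hx)
      refine ⟨⟨init.map (unbump v), v⟩, ?_, ?_⟩
      · rw [Finset.mem_coe, Finset.mem_product, mem_PL, Finset.mem_range]
        refine ⟨⟨?_, ?_⟩, hv⟩
        · apply List.Nodup.of_map (bump v)
          rw [hmap]
          exact hi1
        · intro x
          have h1 : x ∈ init.map (unbump v) ↔ bump v x ∈ init := by
            rw [← List.mem_map_of_injective (bump_strictMono v).injective, hmap]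
          rw [h1]
          have h2 := hw2 (bump v x)
          rw [List.mem_append, List.mem_singleton] at h2
          have h3 := bump_ne v x
          constructor
          · intro h4
            have h5 := h2.mp (Or.inl h4)
            unfold bump at h5
            split_ifs at h5 <;> omega
          · intro h4
            have h5 : bump v x < n + 1 := by
              unfold bump
              split_ifs <;> omega
            rcases h2.mpr h5 with h6 | h6
            · exact h6
            · exact absurd h6 h3
      · simp only [ins]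
        rw [hmap]
  · intro x _
    rfl

theorem sum_PL_cnt (m : ℕ) : ∀ n, ∑ l ∈ PL (n + m), cnt 0 l = ∑ l ∈ PL n, cnt m l := by
  induction m with
  | zero => intro n; rfl
  | succ m ih =>
    intro n
    have e : n + (m + 1) = (n + 1) + m := by ring
    rw [e, ih (n + 1), sum_PL_succ]
    apply Finset.sum_congr rfl
    intro l hl
    simp only [cnt]
    rw [PL_length n l hl]

theorem PL_zero : PL 0 = {[]} := by
  ext w
  rw [mem_PL, Finset.mem_singleton]
  constructor
  · rintro ⟨_, h⟩
    cases w with
    | nil => rfl
    | cons a w =>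
      have := (h a).mp (by simp)
      omega
  · rintro rfl
    simp

open Classical in
theorem card_sortable (n : ℕ) : ((PL (n + 1)).filter Sortable).card = d n 0 1 [] := by
  rw [← cnt_total n]
  have h := sum_PL_cnt (n + 1) 0
  rw [PL_zero, Finset.sum_singleton, zero_add] at h
  rw [← h, Finset.card_filter]
  apply Finset.sum_congr rfl
  intro l _
  simp only [cnt]

/-- the word of a permutation -/
def word {n : ℕ} (π : Equiv.Perm (Fin n)) : List ℕ := List.ofFn (fun i => ((π i : Fin n) : ℕ))

open Classical in
theorem ncard_perm (n : ℕ) (S : List ℕ → Prop) :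
    Set.ncard {π : Equiv.Perm (Fin n) | S (word π)} = ((PL n).filter S).card := by
  rw [Set.ncard_eq_toFinset_card']
  apply Finset.card_nbij word
  · intro π hπ
    rw [Finset.mem_coe, Set.mem_toFinset] at hπ
    rw [Finset.mem_coe, Finset.mem_filter, mem_PL]
    refine ⟨⟨?_, ?_⟩, hπ⟩
    · unfold word
      rw [List.nodup_ofFn]
      intro a b hab
      exact π.injective (Fin.ext hab)
    · intro x
      unfold word
      rw [List.mem_ofFn]
      constructor
      · rintro ⟨i, rfl⟩
        exact (π i).isLt
      · intro hx
        exact ⟨π.symm ⟨x, hx⟩, by simp⟩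
  · intro π _ π' _ h
    unfold word at h
    have h1 := List.ofFn_injective h
    ext i
    exact congrFun h1 i
  · intro w hw
    rw [Finset.mem_coe, Finset.mem_filter] at hw
    obtain ⟨hw0, hw3⟩ := hw
    have hlen : w.length = n := PL_length n w hw0
    rw [mem_PL] at hw0
    obtain ⟨hw1, hw2⟩ := hw0
    have hmem : ∀ i : Fin n, w[(i:ℕ)]'(by rw [hlen]; exact i.isLt) < n := by
      intro i
      exact (hw2 _).mp (List.getElem_mem (l := w) (n := (i:ℕ)) (by rw [hlen]; exact i.isLt))
    let f : Fin n → Fin n := fun i => ⟨w[(i:ℕ)]'(by rw [hlen]; exact i.isLt), hmem i⟩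
    have hf : Function.Injective f := by
      intro a b hab
      have h1 : w[(a:ℕ)]'(by rw [hlen]; exact a.isLt) = w[(b:ℕ)]'(by rw [hlen]; exact b.isLt) :=
        congrArg (fun x : Fin n => (x : ℕ)) hab
      exact Fin.ext ((List.Nodup.getElem_inj_iff hw1).mp h1)
    let π : Equiv.Perm (Fin n) := Equiv.ofBijective f (Finite.injective_iff_bijective.mp hf)
    have hword : word π = w := by
      unfold word
      apply List.ext_getElem
      · simp [hlen]
      · intro i h1 h2
        simp [π, f]
    refine ⟨π, ?_, hword⟩
    rw [Finset.mem_coe, Set.mem_toFinset]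
    show S (word π)
    rw [hword]
    exact hw3

/-- **Machine side.** -/
theorem machine_count (n : ℕ) :
    Set.ncard {π : Equiv.Perm (Fin (n + 1)) | ∃ w : List ℕ,
      Relation.ReflTransGen
        (fun s t : List ℕ × List ℕ × List ℕ =>
          (∃ (a : ℕ) (r : List ℕ), s.1 = a :: r ∧
              ¬ (∃ p q u : ℕ, List.Sublist [p, q, u] (a :: s.2.1) ∧ q < u ∧ u < p) ∧
              t = (r, a :: s.2.1, s.2.2)) ∨
          (∃ (b : ℕ) (m : List ℕ), s.2.1 = b :: m ∧
              (s.1 = [] ∨ ∃ (a : ℕ) (r : List ℕ), s.1 = a :: r ∧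
                (∃ p q u : ℕ, List.Sublist [p, q, u] (a :: s.2.1) ∧ q < u ∧ u < p)) ∧
              t = (s.1, m, s.2.2 ++ [b])))
        (List.ofFn (fun i : Fin (n + 1) => ((π i : Fin (n + 1)) : ℕ)), ([] : List ℕ), ([] : List ℕ))
        (([] : List ℕ), ([] : List ℕ), w) ∧
      ¬ ∃ a b c : ℕ, List.Sublist [a, b, c] w ∧ c < a ∧ a < b} = d n 0 1 [] := by
  classical
  rw [← card_sortable n, ← ncard_perm (n + 1) Sortable]
  congr 1
  ext π
  rw [Set.mem_ofPred_eq, Set.mem_ofPred_eq]
  constructor
  · rintro ⟨w, h1, h2⟩
    have h3 : Relation.ReflTransGen step (word π, ([] : List ℕ), ([] : List ℕ))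
        (([] : List ℕ), ([] : List ℕ), w) := h1
    rw [reach_iff] at h3
    unfold Sortable
    rw [← h3]
    exact h2
  · intro h
    refine ⟨final (word π), ?_, h⟩
    exact (reach_iff (word π) (final (word π))).mpr rfl

end Pool.Agent.H502R3.MA
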