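import Mathlib
import Pool.Agent.H502R3.MA3

/-! Generic bookkeeping for Dumont-1 permutations: bottom-up insertion with slots. -/

namespace Pool.Agent.H502R3.DG

open Finset
open Pool.Agent.H502R3.MA (PL mem_PL word ncard_perm PL_length)

/-- adjacency conditions of Dumont-1 permutations (0-based letters) -/
def Dum : List ℕ → Prop
  | [] => True
  | [a] => Even a
  | a :: b :: l => (if Even a then a < b else b < a) ∧ Dum (b :: l)

/-- configuration at time `m` -/
def go (m : ℕ) : Bool → List ℕ → List (Bool × ℕ)
  | _, [] => []
  | b, a :: w => if a < m then (b, a) :: go m false w else go m true w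

def cfg (m : ℕ) (w : List ℕ) : List (Bool × ℕ) := go m false w

open Classical in
/-- indicator -/
noncomputable def ind (p : Prop) : ℕ := if p then 1 else 0

theorem ind_pos {p : Prop} (h : p) : ind p = 1 := if_pos h

theorem ind_neg {p : Prop} (h : ¬ p) : ind p = 0 := if_neg h

theorem ind_congr {p q : Prop} (h : p ↔ q) : ind p = ind q := by
  rw [propext h]

/-- number of words of `W` with configuration `c` at time `m` -/
noncomputable def comp (W : Finset (List ℕ)) (m : ℕ) (c : List (Bool × ℕ)) : ℕ :=
  ∑ w ∈ W, ind (cfg m w = c)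

/-- sum over children -/
def ch (m : ℕ) (g : Bool) (f : List (Bool × ℕ) → ℕ) :
    List (Bool × ℕ) → List (Bool × ℕ) → ℕ
  | A, [] => if g then f (A ++ [(true, m)]) + f (A ++ [(false, m)]) else 0
  | A, (b, a) :: B =>
    (if b then f (A ++ (true, m) :: (g, a) :: B) + f (A ++ (false, m) :: (g, a) :: B) else 0)
      + ch m g f (A ++ [(b, a)]) B

/-- flag after reading a word -/
def ef (m : ℕ) : Bool → List ℕ → Bool
  | b, [] => b
  | _, a :: w => ef m (decide (m ≤ a)) w

theorem go_append (m : ℕ) (u v : List ℕ) : ∀ b,
    go m b (u ++ v) = go m b u ++ go m (ef m b u) v := by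
  induction u with
  | nil => intro b; rfl
  | cons a u ih =>
    intro b
    simp only [List.cons_append, go, ef]
    by_cases h : a < m
    · rw [if_pos h, if_pos h, ih, List.cons_append]
      have : decide (m ≤ a) = false := by simp; exact h
      rw [this]
    · rw [if_neg h, if_neg h, ih]
      have : decide (m ≤ a) = true := by simp; omega
      rw [this]

theorem go_succ (m : ℕ) (w : List ℕ) (h : m ∉ w) : ∀ b, go (m + 1) b w = go m b w := by
  induction w with
  | nil => intro b; rfl
  | cons a w ih =>
    intro b
    have h1 : m ≠ a := fun e => h (by rw [e]; exact List.mem_cons_self)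
    have h2 : m ∉ w := fun e => h (List.mem_cons_of_mem _ e)
    simp only [go]
    by_cases h3 : a < m
    · rw [if_pos h3, if_pos (by omega), ih h2]
    · rw [if_neg h3, if_neg (by omega), ih h2]

theorem ef_succ (m : ℕ) (w : List ℕ) (h : m ∉ w) : ∀ b, ef (m + 1) b w = ef m b w := by
  induction w with
  | nil => intro b; rfl
  | cons a w ih =>
    intro b
    have h1 : m ≠ a := fun e => h (by rw [e]; exact List.mem_cons_self)
    have h2 : m ∉ w := fun e => h (List.mem_cons_of_mem _ e)
    simp only [ef]
    have h3 : decide (m + 1 ≤ a) = decide (m ≤ a) := by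
      rw [decide_eq_decide]; omega
    rw [h3, ih h2]

theorem go_letters (m : ℕ) (w : List ℕ) : ∀ b, (go m b w).map Prod.snd = w.filter (· < m) := by
  induction w with
  | nil => intro b; rfl
  | cons a w ih =>
    intro b
    simp only [go]
    by_cases h : a < m
    · rw [if_pos h, List.map_cons, ih, List.filter_cons_of_pos (by simpa using h)]
    · rw [if_neg h, ih, List.filter_cons_of_neg (by simpa using h)]

theorem go_lt (m : ℕ) (w : List ℕ) (b : Bool) (p : Bool × ℕ) (hp : p ∈ go m b w) : p.2 < m := by
  have h : p.2 ∈ (go m b w).map Prod.snd := List.mem_map_of_mem hp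
  rw [go_letters, List.mem_filter] at h
  simpa using h.2

theorem go_true_head (m : ℕ) (w : List ℕ) (p : Bool × ℕ) (B : List (Bool × ℕ)) :
    go m true w = p :: B → p.1 = true := by
  induction w with
  | nil => intro h; simp [go] at h
  | cons a w ih =>
    intro h
    simp only [go] at h
    by_cases h1 : a < m
    · rw [if_pos h1] at h
      injection h with h2 _
      rw [← h2]
    · rw [if_neg h1] at h
      exact ih h

/-- set the first flag -/
def setf (g : Bool) : List (Bool × ℕ) → List (Bool × ℕ)
  | [] => []
  | p :: B => (g, p.2) :: B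

theorem Dum_right (u v : List ℕ) : Dum (u ++ v) → Dum v := by
  induction u with
  | nil => intro h; exact h
  | cons a u ih =>
    intro h
    apply ih
    rcases hx : u ++ v with _ | ⟨b, l⟩
    · trivial
    · rw [List.cons_append, hx] at h
      exact h.2

theorem key (m : ℕ) (v : List ℕ) (hD : Dum (m :: v)) :
    go m false v = setf (decide (Even m)) (go m true v) ∧
      (go m true v = [] → decide (Even m) = true) := by
  cases v with
  | nil =>
    refine ⟨rfl, fun _ => ?_⟩
    have : Even m := hD
    simpa using this
  | cons a v =>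
    have h := hD.1
    by_cases hm : Even m
    · rw [if_pos hm] at h
      have hd : decide (Even m) = true := by simpa using hm
      rw [hd]
      refine ⟨?_, fun _ => rfl⟩
      simp only [go]
      rw [if_neg (by omega), if_neg (by omega)]
      rcases hT : go m true v with _ | ⟨p, B⟩
      · rfl
      · have := go_true_head m v p B hT
        simp only [setf]
        rw [← this]
    · rw [if_neg hm] at h
      have hd : decide (Even m) = false := by simpa using hm
      rw [hd]
      simp only [go]
      rw [if_pos h, if_pos h]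
      refine ⟨rfl, fun h' => by simp at h'⟩

theorem ch_zero (m : ℕ) (g : Bool) (f : List (Bool × ℕ) → ℕ) (c : List (Bool × ℕ)) : ∀ A,
    (∀ X, f (A ++ X) = 0) → ch m g f A c = 0 := by
  induction c with
  | nil => intro A h; simp [ch, h]
  | cons p B ih =>
    obtain ⟨b, a⟩ := p
    intro A h
    simp only [ch, h]
    rw [ih (A ++ [(b, a)]) (fun X => by rw [List.append_assoc]; exact h _)]
    simp

theorem claim (m : ℕ) (g e : Bool) (T : List (Bool × ℕ)) (hT1 : T = [] → g = true)
    (hT2 : ∀ p B, T = p :: B → p.1 = true) (c : List (Bool × ℕ)) :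
    ∀ A P : List (Bool × ℕ), (∀ p ∈ P, p.2 ≠ m) → (∀ p ∈ c, p.2 ≠ m) →
    ch m g (fun c' => ind (A ++ (P ++ (e, m) :: setf g T) = c')) A c =
      ind (P ++ T = c) := by
  induction c with
  | nil =>
    intro A P hP hc
    simp only [ch, List.append_cancel_left_eq]
    cases P with
    | nil =>
      cases T with
      | nil =>
        rw [hT1 rfl]
        simp only [setf, List.append_nil, List.nil_append, if_true]
        rw [ind_pos trivial]
        cases e
        · rw [ind_neg (by simp), ind_pos (by simp)]
        · rw [ind_pos (by simp), ind_neg (by simp)]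
      | cons p T =>
        rw [ind_neg (p := ([] : List (Bool × ℕ)) ++ (e, m) :: setf g (p :: T) = [(true, m)])
            (by simp [setf]),
          ind_neg (p := ([] : List (Bool × ℕ)) ++ (e, m) :: setf g (p :: T) = [(false, m)])
            (by simp [setf]),
          ind_neg (p := ([] : List (Bool × ℕ)) ++ p :: T = []) (by simp)]
        simp
    | cons p P =>
      rw [ind_neg (p := p :: P ++ (e, m) :: setf g T = [(true, m)]) (by simp),
        ind_neg (p := p :: P ++ (e, m) :: setf g T = [(false, m)]) (by simp),
        ind_neg (p := p :: P ++ T = []) (by simp)]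
      simp
  | cons q B ih =>
    obtain ⟨b, a⟩ := q
    intro A P hP hc
    simp only [ch, List.append_cancel_left_eq]
    have ha : a ≠ m := hc (b, a) List.mem_cons_self
    cases P with
    | nil =>
      have h0 : ch m g (fun c' => ind (A ++ ([] ++ (e, m) :: setf g T) = c'))
          (A ++ [(b, a)]) B = 0 := by
        apply ch_zero
        intro X
        apply ind_neg
        rw [List.append_assoc, List.append_cancel_left_eq]
        intro h
        simp only [List.nil_append, List.cons_append, List.cons.injEq, Prod.mk.injEq] at h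
        exact ha h.1.2.symm
      rw [h0, add_zero]
      simp only [List.nil_append]
      cases T with
      | nil =>
        simp only [setf]
        rw [ind_neg (p := [(e, m)] = (true, m) :: (g, a) :: B) (by simp),
          ind_neg (p := [(e, m)] = (false, m) :: (g, a) :: B) (by simp),
          ind_neg (p := [] = (b, a) :: B) (by simp)]
        simp
      | cons p T =>
        obtain ⟨t, a'⟩ := p
        have ht := hT2 _ _ rfl
        simp only at ht
        subst ht
        simp only [setf]
        by_cases hb : b = true
        · subst hb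
          rw [if_pos rfl]
          by_cases h2 : a' = a ∧ T = B
          · obtain ⟨rfl, rfl⟩ := h2
            rw [ind_pos (p := (true, a') :: T = (true, a') :: T) rfl]
            cases e
            · rw [ind_neg (by simp), ind_pos rfl]
            · rw [ind_pos rfl, ind_neg (by simp)]
          · have h3 : ∀ β : Bool, ¬ ((e, m) :: (g, a') :: T = (β, m) :: (g, a) :: B) := by
              intro β h
              simp only [List.cons.injEq, Prod.mk.injEq] at h
              exact h2 ⟨h.2.1.2, h.2.2⟩
            have h4 : ¬ ((true, a') :: T = (true, a) :: B) := by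
              intro h
              simp only [List.cons.injEq, Prod.mk.injEq] at h
              exact h2 ⟨h.1.2, h.2⟩
            rw [ind_neg (h3 true), ind_neg (h3 false), ind_neg h4]
        · have hb' : b = false := by simpa using hb
          subst hb'
          rw [ind_neg (p := (true, a') :: T = (false, a) :: B) (by simp)]
          simp
    | cons p P =>
      have hp : p.2 ≠ m := hP p List.mem_cons_self
      have h1 : ∀ β : Bool, ¬ (p :: P ++ (e, m) :: setf g T = (β, m) :: (g, a) :: B) := by
        intro β h
        simp only [List.cons_append, List.cons.injEq] at h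
        apply hp
        rw [h.1]
      rw [ind_neg (h1 true), ind_neg (h1 false)]
      by_cases hpq : p = (b, a)
      · subst hpq
        have h2 := ih (A ++ [(b, a)]) P (fun p hp => hP p (List.mem_cons_of_mem _ hp))
          (fun p hp => hc p (List.mem_cons_of_mem _ hp))
        have h3 : A ++ [(b, a)] ++ (P ++ (e, m) :: setf g T) =
            A ++ ((b, a) :: P ++ (e, m) :: setf g T) := by simp
        rw [h3] at h2
        rw [h2]
        have h5 : (b, a) :: P ++ T = (b, a) :: B ↔ P ++ T = B := by simp
        rw [ind_congr h5]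
        simp
      · have h0 : ch m g (fun c' => ind (A ++ (p :: P ++ (e, m) :: setf g T) = c'))
            (A ++ [(b, a)]) B = 0 := by
          apply ch_zero
          intro X
          apply ind_neg
          rw [List.append_assoc, List.append_cancel_left_eq]
          intro h
          simp only [List.nil_append, List.cons_append, List.cons.injEq] at h
          exact hpq h.1
        rw [h0, ind_neg (p := p :: P ++ T = (b, a) :: B)]
        · simp
        · intro h
          simp only [List.cons_append, List.cons.injEq] at h
          exact hpq h.1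

theorem one (w : List ℕ) (m : ℕ) (hD : Dum w) (hn : w.Nodup) (hm : m ∈ w)
    (c : List (Bool × ℕ)) (hc : ∀ p ∈ c, p.2 ≠ m) :
    ind (cfg m w = c) =
      ch m (decide (Even m)) (fun c' => ind (cfg (m + 1) w = c')) [] c := by
  obtain ⟨u, v, rfl⟩ := List.append_of_mem hm
  rw [List.nodup_append] at hn
  obtain ⟨_, hn2, hn3⟩ := hn
  have hu : m ∉ u := fun h => hn3 m h m List.mem_cons_self rfl
  have hv : m ∉ v := (List.nodup_cons.mp hn2).1
  obtain ⟨k1, k2⟩ := key m v (Dum_right _ _ hD)
  have e1 : cfg m (u ++ m :: v) = go m false u ++ go m true v := by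
    unfold cfg
    rw [go_append]
    simp only [go]
    rw [if_neg (lt_irrefl m)]
  have e2 : cfg (m + 1) (u ++ m :: v) =
      [] ++ (go m false u ++ (ef m false u, m) :: setf (decide (Even m)) (go m true v)) := by
    unfold cfg
    rw [go_append]
    simp only [go]
    rw [if_pos (Nat.lt_succ_self m), go_succ m u hu, ef_succ m u hu, go_succ m v hv, k1]
    simp
  rw [e1, e2]
  symm
  exact claim m _ _ _ k2 (go_true_head m v) c [] _
    (fun p hp => (go_lt m u false p hp).ne) hc

theorem ch_sum {ι : Type*} (m : ℕ) (g : Bool) (W : Finset ι) (F : ι → List (Bool × ℕ) → ℕ)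
    (c : List (Bool × ℕ)) : ∀ A,
    ∑ w ∈ W, ch m g (F w) A c = ch m g (fun c' => ∑ w ∈ W, F w c') A c := by
  induction c with
  | nil =>
    intro A
    simp only [ch]
    cases g <;> simp [Finset.sum_add_distrib]
  | cons p B ih =>
    obtain ⟨b, a⟩ := p
    intro A
    simp only [ch]
    rw [Finset.sum_add_distrib, ih]
    cases b <;> simp [Finset.sum_add_distrib]

/-- **Recursion for the number of completions.** -/
theorem comp_succ (W : Finset (List ℕ)) (m : ℕ)
    (hW : ∀ w ∈ W, Dum w ∧ w.Nodup ∧ m ∈ w) (c : List (Bool × ℕ)) (hc : ∀ p ∈ c, p.2 ≠ m) :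
    comp W m c = ch m (decide (Even m)) (comp W (m + 1)) [] c := by
  have e : comp W (m + 1) = fun c' => ∑ w ∈ W, ind (cfg (m + 1) w = c') := rfl
  rw [e, ← ch_sum]
  unfold comp
  apply Finset.sum_congr rfl
  intro w hw
  obtain ⟨h1, h2, h3⟩ := hW w hw
  exact one w m h1 h2 h3 c hc

theorem comp_eq_zero (W : Finset (List ℕ)) (m : ℕ) (c : List (Bool × ℕ))
    (h : ∀ w ∈ W, cfg m w ≠ c) : comp W m c = 0 := by
  unfold comp
  apply Finset.sum_eq_zero
  intro w hw
  exact ind_neg (h w hw)

theorem go_zero (w : List ℕ) : ∀ b, go 0 b w = [] := by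
  induction w with
  | nil => intro b; rfl
  | cons a w ih => intro b; simp only [go]; rw [if_neg (by omega), ih]

theorem comp_zero (W : Finset (List ℕ)) : comp W 0 [] = W.card := by
  unfold comp
  rw [Finset.card_eq_sum_ones]
  apply Finset.sum_congr rfl
  intro w _
  exact ind_pos (go_zero w false)

theorem cfg_final (N : ℕ) (w : List ℕ) (h : ∀ x ∈ w, x < N) :
    cfg N w = w.map (fun x => (false, x)) := by
  unfold cfg
  induction w with
  | nil => rfl
  | cons a w ih =>
    simp only [go]
    rw [if_pos (h a List.mem_cons_self), ih (fun x hx => h x (List.mem_cons_of_mem _ hx)),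
      List.map_cons]

theorem comp_final (W : Finset (List ℕ)) (N : ℕ) (hW : ∀ w ∈ W, ∀ x ∈ w, x < N) (v : List ℕ) :
    comp W N (v.map (fun x => (false, x))) = ind (v ∈ W) := by
  classical
  unfold comp
  have hinj : Function.Injective (fun x : ℕ => (false, x)) := by
    intro a b h
    simpa using h
  have h1 : ∀ w ∈ W, ind (cfg N w = v.map (fun x => (false, x))) =
      if w = v then 1 else 0 := by
    intro w hw
    rw [cfg_final N w (hW w hw)]
    by_cases h : w = v
    · rw [h, ind_pos rfl]; simp
    · rw [if_neg h, ind_neg]
      intro h2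
      exact h (List.map_injective_iff.mpr hinj h2)
  rw [Finset.sum_congr rfl h1]
  by_cases h : v ∈ W
  · rw [ind_pos h]; simp [h]
  · rw [ind_neg h]; simp [h]

theorem comp_final_zero (W : Finset (List ℕ)) (N : ℕ) (hW : ∀ w ∈ W, ∀ x ∈ w, x < N)
    (c : List (Bool × ℕ)) (h : ∃ p ∈ c, p.1 = true) : comp W N c = 0 := by
  apply comp_eq_zero
  intro w hw he
  rw [cfg_final N w (hW w hw)] at he
  subst he
  obtain ⟨p, hp, hp1⟩ := h
  rw [List.mem_map] at hp
  obtain ⟨x, _, rfl⟩ := hp
  simp at hp1

/-- letters of `c`, with the number `m` at each (non-end) slot -/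
def ex (m : ℕ) : List (Bool × ℕ) → List ℕ
  | [] => []
  | (b, a) :: c => if b then m :: a :: ex m c else a :: ex m c

theorem ex_go_sub (m : ℕ) (w : List ℕ) : ∀ b,
    List.Sublist (ex m (go m b w)) ((if b then [m] else []) ++ w.map (fun x => min x m)) := by
  induction w with
  | nil => intro b; simp [go, ex]
  | cons a w ih =>
    intro b
    simp only [go, List.map_cons]
    by_cases h : a < m
    · rw [if_pos h, min_eq_left h.le]
      have h1 := ih false
      simp only [Bool.false_eq_true, if_false, List.nil_append] at h1
      cases b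
      · simp only [ex, Bool.false_eq_true, if_false, List.nil_append]
        exact h1.cons_cons a
      · simp only [ex, if_true, List.cons_append, List.nil_append]
        exact (h1.cons_cons a).cons_cons m
    · rw [if_neg h, min_eq_right (by omega)]
      have h1 := ih true
      simp only [if_true, List.cons_append, List.nil_append] at h1
      cases b
      · simp only [Bool.false_eq_true, if_false, List.nil_append]
        exact h1
      · simp only [if_true, List.cons_append, List.nil_append]
        exact h1.cons m

theorem ex_cfg_sub (m : ℕ) (w : List ℕ) :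
    List.Sublist (ex m (cfg m w)) (w.map (fun x => min x m)) := by
  have := ex_go_sub m w false
  simp only [Bool.false_eq_true, if_false, List.nil_append] at this
  exact this

/-- a pattern in `ex m (cfg m w)` lifts to `w` -/
theorem lift_pat (m : ℕ) (w l : List ℕ) (h : List.Sublist l (ex m (cfg m w))) :
    ∃ l' : List ℕ, List.Sublist l' w ∧ l = l'.map (fun x => min x m) := by
  have h1 := h.trans (ex_cfg_sub m w)
  rw [List.sublist_map_iff] at h1
  obtain ⟨l', h2, h3⟩ := h1
  exact ⟨l', h2, h3⟩

/-! ### bridge from the frozen statement -/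

/-- `w` contains the pattern `p` -/
def Has (p : Fin 4 → ℕ) (w : List ℕ) : Prop :=
  ∃ x : Fin 4 → ℕ, List.Sublist [x 0, x 1, x 2, x 3] w ∧ ∀ a b, (x a < x b ↔ p a < p b)

theorem has_iff (p : Fin 4 → ℕ) (n : ℕ) (π : Equiv.Perm (Fin n)) :
    (∃ f : Fin 4 → Fin n, StrictMono f ∧ ∀ a b : Fin 4, (π (f a) < π (f b) ↔ p a < p b)) ↔
      Has p (word π) := by
  have hx : ∀ x : Fin 4 → ℕ, [x 0, x 1, x 2, x 3] = List.ofFn x := by
    intro x; simp [List.ofFn_succ]
  constructor
  · rintro ⟨f, hf, h⟩
    refine ⟨fun a => (π (f a) : ℕ), ?_, ?_⟩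
    · rw [hx (fun a => (π (f a) : ℕ))]
      unfold word
      rw [List.sublist_iff_exists_fin_orderEmbedding_get_eq]
      have hl1 : (List.ofFn (fun a => ((π (f a) : Fin n) : ℕ))).length = 4 := by simp
      have hl2 : (List.ofFn (fun i => ((π i : Fin n) : ℕ))).length = n := by simp
      refine ⟨OrderEmbedding.ofStrictMono
        (fun i => Fin.cast hl2.symm (f (Fin.cast hl1 i))) ?_, ?_⟩
      · intro i j hij
        have h1 : f (Fin.cast hl1 i) < f (Fin.cast hl1 j) := hf hij
        exact h1
      · intro i
        rw [List.get_ofFn, List.get_ofFn]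
        rfl
    · intro a b
      exact h a b
  · rintro ⟨x, hs, h⟩
    rw [hx x] at hs
    unfold word at hs
    rw [List.sublist_iff_exists_fin_orderEmbedding_get_eq] at hs
    obtain ⟨f, hf⟩ := hs
    have hl1 : (List.ofFn x).length = 4 := by simp
    have hl2 : (List.ofFn (fun i => ((π i : Fin n) : ℕ))).length = n := by simp
    have hval : ∀ a : Fin 4, ((π (Fin.cast hl2 (f (Fin.cast hl1.symm a))) : Fin n) : ℕ) = x a := by
      intro a
      have h1 := hf (Fin.cast hl1.symm a)
      simp only [List.get_ofFn] at h1
      rw [show x a = x (Fin.cast hl1 (Fin.cast hl1.symm a)) by rfl]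
      exact h1.symm
    refine ⟨fun a => Fin.cast hl2 (f (Fin.cast hl1.symm a)), ?_, ?_⟩
    · intro a b hab
      have h1 : f (Fin.cast hl1.symm a) < f (Fin.cast hl1.symm b) := by
        rw [OrderEmbedding.lt_iff_lt]
        exact hab
      exact h1
    · intro a b
      rw [← h a b, ← hval a, ← hval b]
      rfl

theorem dum_iff_get (w : List ℕ) : Dum w ↔ ∀ i (h : i < w.length),
    (¬ Even w[i] → ∃ h' : i + 1 < w.length, w[i + 1] < w[i]) ∧
    (Even w[i] → (i + 1 = w.length ∨ ∃ h' : i + 1 < w.length, w[i] < w[i + 1])) := by
  induction w with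
  | nil => simp [Dum]
  | cons a w ih =>
    cases w with
    | nil =>
      simp only [Dum]
      constructor
      · intro h i hi
        simp only [List.length_cons, List.length_nil, zero_add] at hi
        have : i = 0 := by omega
        subst this
        simp [h]
      · intro h
        have := h 0 (by simp)
        by_contra hne
        obtain ⟨h', _⟩ := this.1 (by simpa using hne)
        simp at h'
    | cons b l =>
      simp only [Dum]
      rw [ih]
      constructor
      · rintro ⟨h1, h2⟩ i hi
        cases i with
        | zero =>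
          simp only [List.getElem_cons_zero, List.getElem_cons_succ]
          refine ⟨fun he => ⟨by simp, ?_⟩, fun he => Or.inr ⟨by simp, ?_⟩⟩
          · rw [if_neg he] at h1; simpa using h1
          · rw [if_pos he] at h1; simpa using h1
        | succ i =>
          have h3 := h2 i (by simpa using hi)
          simp only [List.getElem_cons_succ, List.length_cons] at h3 ⊢
          refine ⟨fun he => ?_, fun he => ?_⟩
          · obtain ⟨h4, h5⟩ := h3.1 he
            exact ⟨by omega, h5⟩
          · rcases h3.2 he with h4 | ⟨h4, h5⟩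
            · left; omega
            · exact Or.inr ⟨by omega, h5⟩
      · intro h
        refine ⟨?_, ?_⟩
        · have h0 := h 0 (by simp)
          simp only [List.getElem_cons_zero, List.getElem_cons_succ, List.length_cons] at h0
          by_cases he : Even a
          · rw [if_pos he]
            rcases h0.2 he with h1 | ⟨_, h1⟩
            · omega
            · simpa using h1
          · rw [if_neg he]
            obtain ⟨_, h1⟩ := h0.1 he
            simpa using h1
        · intro i hi
          have h1 := h (i + 1) (by simpa using hi)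
          simp only [List.getElem_cons_succ, List.length_cons] at h1 ⊢
          refine ⟨fun he => ?_, fun he => ?_⟩
          · obtain ⟨h4, h5⟩ := h1.1 he
            exact ⟨by omega, h5⟩
          · rcases h1.2 he with h4 | ⟨h4, h5⟩
            · left; omega
            · exact Or.inr ⟨by omega, h5⟩

theorem dum_iff (n : ℕ) (π : Equiv.Perm (Fin n)) :
    (∀ i : Fin n,
      (Even ((π i).val + 1) → ∃ j : Fin n, j.val = i.val + 1 ∧ π j < π i) ∧
      (Odd ((π i).val + 1) →
        (i.val + 1 = n ∨ ∃ j : Fin n, j.val = i.val + 1 ∧ π i < π j))) ↔ Dum (word π) := by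
  rw [dum_iff_get]
  have hl : (word π).length = n := by unfold word; simp
  have hg : ∀ i (h : i < (word π).length), (word π)[i] = ((π ⟨i, by rw [hl] at h; exact h⟩ : Fin n) : ℕ) := by
    intro i h
    exact List.getElem_ofFn (f := fun i => ((π i : Fin n) : ℕ)) h
  have hp1 : ∀ k : ℕ, Even (k + 1) ↔ ¬ Even k := fun k => Nat.even_add_one
  have hp2 : ∀ k : ℕ, Odd (k + 1) ↔ Even k := by
    intro k
    rw [Nat.odd_add_one, Nat.not_odd_iff_even]
  constructor
  · intro h i hi
    have hi' : i < n := by rw [hl] at hi; exact hi
    have h1 := h ⟨i, hi'⟩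
    rw [hp1, hp2] at h1
    rw [hg i hi]
    refine ⟨fun he => ?_, fun he => ?_⟩
    · obtain ⟨j, hj1, hj2⟩ := h1.1 he
      simp only at hj1
      have hj3 : i + 1 < n := by rw [← hj1]; exact j.isLt
      refine ⟨by rw [hl]; exact hj3, ?_⟩
      rw [hg]
      have : j = ⟨i + 1, hj3⟩ := Fin.ext hj1
      rw [this] at hj2
      exact hj2
    · rcases h1.2 he with h2 | ⟨j, hj1, hj2⟩
      · left; rw [hl]; exact h2
      · right
        simp only at hj1
        have hj3 : i + 1 < n := by rw [← hj1]; exact j.isLt
        refine ⟨by rw [hl]; exact hj3, ?_⟩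
        rw [hg]
        have : j = ⟨i + 1, hj3⟩ := Fin.ext hj1
        rw [this] at hj2
        exact hj2
  · intro h i
    have hi : i.val < (word π).length := by rw [hl]; exact i.isLt
    have h1 := h i.val hi
    rw [hg i.val hi] at h1
    rw [hp1, hp2]
    refine ⟨fun he => ?_, fun he => ?_⟩
    · obtain ⟨h2, h3⟩ := h1.1 he
      rw [hg] at h3
      exact ⟨⟨i.val + 1, by rw [hl] at h2; exact h2⟩, rfl, h3⟩
    · rcases h1.2 he with h2 | ⟨h2, h3⟩
      · left; rw [hl] at h2; exact h2
      · right
        rw [hg] at h3
        exact ⟨⟨i.val + 1, by rw [hl] at h2; exact h2⟩, rfl, h3⟩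

open Classical in
/-- the words counted by the frozen statement -/
noncomputable def WW (p : Fin 4 → ℕ) (n : ℕ) : Finset (List ℕ) :=
  (PL n).filter (fun w => Dum w ∧ ¬ Has p w)

open Classical in
theorem mem_WW (p : Fin 4 → ℕ) (n : ℕ) (w : List ℕ) :
    w ∈ WW p n ↔ (w.Nodup ∧ ∀ x, x ∈ w ↔ x < n) ∧ Dum w ∧ ¬ Has p w := by
  unfold WW
  rw [Finset.mem_filter, mem_PL]

/-- **Bridge.** -/
theorem ncard_eq (p : Fin 4 → ℕ) (n : ℕ) :
    Set.ncard {π : Equiv.Perm (Fin n) |
        (∀ i : Fin n,
          (Even ((π i).val + 1) → ∃ j : Fin n, j.val = i.val + 1 ∧ π j < π i) ∧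
          (Odd ((π i).val + 1) →
            (i.val + 1 = n ∨ ∃ j : Fin n, j.val = i.val + 1 ∧ π i < π j))) ∧
        ¬ ∃ f : Fin 4 → Fin n, StrictMono f ∧
            ∀ a b : Fin 4, (π (f a) < π (f b) ↔ p a < p b)} = comp (WW p n) 0 [] := by
  rw [comp_zero]
  unfold WW
  have h := ncard_perm n (fun w => Dum w ∧ ¬ Has p w)
  refine Eq.trans ?_ (h.trans ?_)
  · congr 1
    ext π
    rw [Set.mem_ofPred_eq, Set.mem_ofPred_eq, dum_iff, has_iff]
  · congr!

end Pool.Agent.H502R3.DG
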