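import Mathlib
import Pool.Agent.H207R3.AscDefs

/-! Ascent side: counting of the 201-avoiding ascent sequences. -/

namespace Pool.Agent.H502R3.AA

open Finset
open Pool.Agent.H207R3.Asc (a b)

/-- number of ascents of a word given in reverse -/
def asc : List ℕ → ℕ
  | [] => 0
  | [_] => 0
  | b :: a :: t => (if a < b then 1 else 0) + asc (a :: t)

/-- `v` may not be appended: it would create 201 -/
def Forb (l : List ℕ) (v : ℕ) : Prop := ∃ y z, List.Sublist [y, z] l ∧ y < v ∧ v < z

open Classical in
noncomputable def allowed : List ℕ → Finset ℕ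
  | [] => {0}
  | b :: t => (range (asc (b :: t) + 2)).filter (fun v => ¬ Forb (b :: t) v)

open Classical in
/-- the allowed values below `m` -/
noncomputable def low (l : List ℕ) (m : ℕ) : Finset ℕ := (range m).filter (fun v => ¬ Forb l v)

theorem mem_low (l : List ℕ) (m v : ℕ) : v ∈ low l m ↔ v < m ∧ ¬ Forb l v := by
  classical
  unfold low
  rw [Finset.mem_filter, Finset.mem_range]

theorem mem_allowed (bb : ℕ) (t : List ℕ) (v : ℕ) : v ∈ allowed (bb :: t) ↔
    v < asc (bb :: t) + 2 ∧ ¬ Forb (bb :: t) v := by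
  classical
  simp only [allowed]
  rw [Finset.mem_filter, Finset.mem_range]

noncomputable def cnt : ℕ → List ℕ → ℕ
  | 0, _ => 1
  | k + 1, l => ∑ v ∈ allowed l, cnt k (v :: l)

theorem forb_cons (l : List ℕ) (v w : ℕ) :
    Forb (v :: l) w ↔ Forb l w ∨ (v < w ∧ ∃ z ∈ l, w < z) := by
  constructor
  · rintro ⟨y, z, h, h1, h2⟩
    rcases List.sublist_cons_iff.mp h with h | ⟨r, hr, h⟩
    · exact Or.inl ⟨y, z, h, h1, h2⟩
    · simp only [List.cons.injEq] at hr
      obtain ⟨rfl, rfl⟩ := hr
      exact Or.inr ⟨h1, z, List.singleton_sublist.mp h, h2⟩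
  · rintro (⟨y, z, h, h1, h2⟩ | ⟨h1, z, hz, h2⟩)
    · exact ⟨y, z, h.trans (List.sublist_cons_self _ _), h1, h2⟩
    · exact ⟨v, z, List.Sublist.cons_cons _ (List.singleton_sublist.mpr hz), h1, h2⟩

/-- state of a word -/
structure St (bb : ℕ) (t : List ℕ) (m r s : ℕ) : Prop where
  le : ∀ x ∈ bb :: t, x ≤ m
  mem : m ∈ bb :: t
  asc_eq : asc (bb :: t) + 1 = m + s
  spos : 1 ≤ s
  r_eq : r = (low (bb :: t) m).card

theorem asc_cons (v bb : ℕ) (t : List ℕ) :
    asc (v :: bb :: t) = (if bb < v then 1 else 0) + asc (bb :: t) := rfl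

theorem St.forb_lt {bb : ℕ} {t : List ℕ} {m r s : ℕ} (h : St bb t m r s) (v : ℕ)
    (hv : Forb (bb :: t) v) : v < m := by
  obtain ⟨y, z, h1, _, h3⟩ := hv
  have := h.le z (h1.subset (by simp))
  omega

theorem St.forb_mid {bb : ℕ} {t : List ℕ} {m r s : ℕ} (h : St bb t m r s) (v : ℕ)
    (h1 : bb < v) (h2 : v < m) : Forb (bb :: t) v := by
  have hm : m ∈ t := by
    rcases List.mem_cons.mp h.mem with h3 | h3
    · omega
    · exact h3
  exact ⟨bb, m, List.Sublist.cons_cons _ (List.singleton_sublist.mpr hm), h1, h2⟩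

/-- appending `m + j` with `j ≥ 1` -/
theorem St.up {bb : ℕ} {t : List ℕ} {m r s : ℕ} (h : St bb t m r s) (j : ℕ) (hj1 : 1 ≤ j)
    (hj2 : j ≤ s) : St (m + j) (bb :: t) (m + j) (r + j) (s + 1 - j) := by
  classical
  have hb := h.le bb (by simp)
  refine ⟨?_, by simp, ?_, by omega, ?_⟩
  · intro x hx
    rcases List.mem_cons.mp hx with hx | hx
    · omega
    · have := h.le x hx; omega
  · rw [asc_cons, if_pos (by omega)]
    have := h.asc_eq
    omega
  · have e1 : low ((m + j) :: bb :: t) (m + j) = low (bb :: t) m ∪ Finset.Ico m (m + j) := by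
      ext w
      rw [Finset.mem_union, mem_low, mem_low, Finset.mem_Ico, forb_cons (bb :: t) (m + j) w]
      constructor
      · rintro ⟨h1, h2⟩
        rcases Nat.lt_or_ge w m with h3 | h3
        · exact Or.inl ⟨h3, fun h4 => h2 (Or.inl h4)⟩
        · exact Or.inr ⟨h3, h1⟩
      · rintro (⟨h1, h2⟩ | ⟨h1, h2⟩)
        · refine ⟨by omega, ?_⟩
          rintro (h3 | ⟨h3, _⟩)
          · exact h2 h3
          · omega
        · refine ⟨h2, ?_⟩
          rintro (h3 | ⟨h3, _⟩)
          · have := h.forb_lt w h3; omega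
          · omega
    rw [e1, Finset.card_union_of_disjoint, ← h.r_eq, Nat.card_Ico]
    · omega
    · rw [Finset.disjoint_left]
      intro w hw hw2
      rw [mem_low] at hw
      rw [Finset.mem_Ico] at hw2
      omega

theorem forb_top {bb : ℕ} {t : List ℕ} {m r s : ℕ} (h : St bb t m r s) (w : ℕ) :
    Forb (m :: bb :: t) w ↔ Forb (bb :: t) w := by
  rw [forb_cons]
  constructor
  · rintro (h1 | ⟨h1, z, hz, h2⟩)
    · exact h1
    · have := h.le z hz; omega
  · exact Or.inl

/-- appending the maximum after the maximum -/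
theorem St.stayA {t : List ℕ} {m r s : ℕ} (h : St m t m r s) : St m (m :: t) m r s := by
  classical
  refine ⟨?_, by simp, ?_, h.spos, ?_⟩
  · intro x hx
    rcases List.mem_cons.mp hx with hx | hx
    · omega
    · exact h.le x hx
  · rw [asc_cons, if_neg (by omega), zero_add]; exact h.asc_eq
  · rw [h.r_eq]
    congr 1
    ext w
    rw [mem_low, mem_low, forb_top h]

/-- appending the maximum after a non-maximum -/
theorem St.stayB {bb : ℕ} {t : List ℕ} {m r s : ℕ} (h : St bb t m r s) (hb : bb < m) :
    St m (bb :: t) m r (s + 1) := by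
  classical
  refine ⟨?_, by simp, ?_, by omega, ?_⟩
  · intro x hx
    rcases List.mem_cons.mp hx with hx | hx
    · omega
    · exact h.le x hx
  · rw [asc_cons, if_pos hb]
    have := h.asc_eq
    omega
  · rw [h.r_eq]
    congr 1
    ext w
    rw [mem_low, mem_low, forb_top h]

/-- appending a smaller value -/
theorem St.down {bb : ℕ} {t : List ℕ} {m r s : ℕ} (h : St bb t m r s) (v : ℕ) (hv : v < m)
    (hf : ¬ Forb (bb :: t) v) : St v (bb :: t) m
      ((low (bb :: t) m).filter (fun w => w ≤ v)).card s := by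
  have hbv : v ≤ bb := by
    by_contra hc
    exact hf (h.forb_mid v (by omega) hv)
  refine ⟨?_, ?_, ?_, h.spos, ?_⟩
  · intro x hx
    rcases List.mem_cons.mp hx with hx | hx
    · omega
    · exact h.le x hx
  · exact List.mem_cons_of_mem _ h.mem
  · rw [asc_cons, if_neg (by omega), zero_add]; exact h.asc_eq
  · congr 1
    ext w
    rw [Finset.mem_filter, mem_low, mem_low, forb_cons (bb :: t) v w]
    constructor
    · rintro ⟨⟨h1, h2⟩, h3⟩
      refine ⟨h1, ?_⟩
      rintro (h4 | ⟨h4, _⟩)
      · exact h2 h4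
      · omega
    · rintro ⟨h1, h2⟩
      refine ⟨⟨h1, fun h3 => h2 (Or.inl h3)⟩, ?_⟩
      by_contra h3
      exact h2 (Or.inr ⟨by omega, m, h.mem, h1⟩)

theorem sum_rank (S : Finset ℕ) (g : ℕ → ℕ) :
    ∑ v ∈ S, g ((S.filter (fun w => w ≤ v)).card) = ∑ i ∈ Finset.Icc 1 S.card, g i := by
  induction S using Finset.induction_on_max with
  | empty => simp
  | insert x s hx ih =>
    have hxs : x ∉ s := fun h => lt_irrefl _ (hx x h)
    rw [Finset.sum_insert hxs, Finset.card_insert_of_notMem hxs]
    rw [Finset.sum_Icc_succ_top (by omega), ← ih, add_comm]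
    congr 1
    · apply Finset.sum_congr rfl
      intro v hv
      congr 1
      rw [Finset.filter_insert, if_neg (by have := hx v hv; omega)]
    · congr 1
      rw [Finset.filter_insert, if_pos le_rfl, Finset.card_insert_of_notMem]
      · congr 1
        rw [Finset.filter_true_of_mem]
        intro w hw
        have := hx w hw
        omega
      · intro h
        exact hxs (Finset.mem_filter.mp h).1

theorem allowed_sum {bb : ℕ} {t : List ℕ} {m r s : ℕ} (h : St bb t m r s) (f : ℕ → ℕ) :
    ∑ v ∈ allowed (bb :: t), f v = (∑ v ∈ low (bb :: t) m, f v) +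
      ∑ j ∈ range (s + 1), f (m + j) := by
  classical
  have e0 : asc (bb :: t) + 2 = m + (s + 1) := by
    have := h.asc_eq
    omega
  have e1 : allowed (bb :: t) = low (bb :: t) m ∪ Finset.Ico m (m + (s + 1)) := by
    ext w
    rw [mem_allowed, e0, Finset.mem_union, mem_low, Finset.mem_Ico]
    constructor
    · rintro ⟨h1, h2⟩
      rcases Nat.lt_or_ge w m with h3 | h3
      · exact Or.inl ⟨h3, h2⟩
      · exact Or.inr ⟨h3, h1⟩
    · rintro (⟨h1, h2⟩ | ⟨h1, h2⟩)
      · exact ⟨by omega, h2⟩
      · refine ⟨h2, fun h3 => ?_⟩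
        have := h.forb_lt w h3
        omega
  rw [e1, Finset.sum_union, Finset.sum_Ico_eq_sum_range]
  · congr 1
    apply Finset.sum_congr _ (fun _ _ => rfl)
    congr 1
    omega
  · rw [Finset.disjoint_left]
    intro w hw hw2
    rw [mem_low] at hw
    rw [Finset.mem_Ico] at hw2
    omega

theorem cnt_eq (k : ℕ) : ∀ (bb : ℕ) (t : List ℕ) (m r s : ℕ), St bb t m r s →
    cnt k (bb :: t) = if bb = m then a k r s else b k r s := by
  classical
  induction k with
  | zero =>
    intro bb t m r s _
    simp [cnt, a, b]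
  | succ k ih =>
    intro bb t m r s h
    simp only [cnt]
    rw [allowed_sum h]
    have hlow : ∑ v ∈ low (bb :: t) m, cnt k (v :: bb :: t) = ∑ i ∈ Finset.Icc 1 r, b k i s := by
      have h1 : ∀ v ∈ low (bb :: t) m, cnt k (v :: bb :: t) = (fun i => b k i s)
          ((low (bb :: t) m).filter (fun w => w ≤ v)).card := by
        intro v hv
        rw [mem_low] at hv
        rw [ih v (bb :: t) m _ s (h.down v hv.1 hv.2), if_neg (by omega)]
      rw [Finset.sum_congr rfl h1, sum_rank _ (fun i => b k i s), ← h.r_eq]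
    rw [hlow, Finset.sum_range_succ']
    have hup : ∑ j ∈ range s, cnt k ((m + (j + 1)) :: bb :: t) =
        ∑ j ∈ range s, a k (r + (j + 1)) (s + 1 - (j + 1)) := by
      apply Finset.sum_congr rfl
      intro j hj
      rw [Finset.mem_range] at hj
      rw [ih _ _ _ _ _ (h.up (j + 1) (by omega) (by omega)), if_pos rfl]
    rw [hup, add_zero]
    by_cases hb : bb = m
    · subst hb
      rw [if_pos rfl, ih _ _ _ _ _ h.stayA, if_pos rfl, a]
      have e : ∑ j ∈ Finset.Icc 1 s, a k (r + j) (s + 1 - j) =
          ∑ j ∈ range s, a k (r + (j + 1)) (s + 1 - (j + 1)) := by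
        rw [Finset.range_eq_Ico, Finset.sum_Ico_add' (fun j => a k (r + j) (s + 1 - j)) 0 s 1]
        rfl
      rw [e]
      ring
    · rw [if_neg hb]
      have hb' : bb < m := by
        have := h.le bb (by simp)
        omega
      rw [ih _ _ _ _ _ (h.stayB hb'), if_pos rfl, b, Finset.sum_range_succ']
      rfl

theorem st_init : St 0 [] 0 0 1 := by
  classical
  refine ⟨by simp, by simp, by simp [asc], le_rfl, by simp [low]⟩

theorem cnt_total (n : ℕ) : cnt (n + 1) [] = a n 0 1 := by
  have h1 : cnt (n + 1) [] = cnt n [0] := by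
    simp [cnt, allowed]
  rw [h1, cnt_eq n 0 [] 0 0 1 st_init, if_pos rfl]

/-! ### valid words -/

def ValidL : List ℕ → Prop
  | [] => True
  | v :: l => v ∈ allowed l ∧ ValidL l

/-- all valid words (in reverse) of length `n` -/
noncomputable def VL : ℕ → Finset (List ℕ)
  | 0 => {[]}
  | n + 1 => (VL n).biUnion (fun l => (allowed l).image (fun v => v :: l))

theorem mem_VL (n : ℕ) : ∀ w : List ℕ, w ∈ VL n ↔ w.length = n ∧ ValidL w := by
  induction n with
  | zero =>
    intro w
    simp only [VL, Finset.mem_singleton]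
    constructor
    · rintro rfl; exact ⟨rfl, trivial⟩
    · rintro ⟨h, _⟩; exact List.length_eq_zero_iff.mp h
  | succ n ih =>
    intro w
    simp only [VL, Finset.mem_biUnion, Finset.mem_image]
    constructor
    · rintro ⟨l, hl, v, hv, rfl⟩
      rw [ih] at hl
      exact ⟨by simp [hl.1], hv, hl.2⟩
    · rintro ⟨h1, h2⟩
      cases w with
      | nil => simp at h1
      | cons v l =>
        obtain ⟨h3, h4⟩ := h2
        refine ⟨l, (ih l).mpr ⟨by simpa using h1, h4⟩, v, h3, rfl⟩

theorem sum_VL_succ (n : ℕ) (f : List ℕ → ℕ) :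
    ∑ l ∈ VL (n + 1), f l = ∑ l ∈ VL n, ∑ v ∈ allowed l, f (v :: l) := by
  simp only [VL]
  rw [Finset.sum_biUnion]
  · apply Finset.sum_congr rfl
    intro l _
    rw [Finset.sum_image]
    intro v _ v' _ h
    simp only [List.cons.injEq] at h
    exact h.1
  · intro l _ l' _ hne
    rw [Function.onFun, Finset.disjoint_left]
    intro w hw hw'
    rw [Finset.mem_image] at hw hw'
    obtain ⟨v, _, rfl⟩ := hw
    obtain ⟨v', _, h⟩ := hw'
    simp only [List.cons.injEq] at h
    exact hne h.2.symm

theorem sum_VL_cnt (m : ℕ) : ∀ n, (VL (n + m)).card = ∑ l ∈ VL n, cnt m l := by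
  induction m with
  | zero => intro n; simp [cnt]
  | succ m ih =>
    intro n
    have e : n + (m + 1) = (n + 1) + m := by ring
    rw [e, ih (n + 1), sum_VL_succ]
    rfl

theorem card_VL (n : ℕ) : (VL (n + 1)).card = a n 0 1 := by
  have h := sum_VL_cnt (n + 1) 0
  rw [zero_add] at h
  rw [h]
  simp only [VL, Finset.sum_singleton]
  exact cnt_total n

/-! ### functions -/

/-- the reversed word of length `n` of a function -/
def wd (y : ℕ → ℕ) : ℕ → List ℕ
  | 0 => []
  | n + 1 => y n :: wd y n

theorem wd_length (y : ℕ → ℕ) (n : ℕ) : (wd y n).length = n := by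
  induction n with
  | zero => rfl
  | succ n ih => simp [wd, ih]

theorem mem_wd (y : ℕ → ℕ) (n z : ℕ) : z ∈ wd y n ↔ ∃ i < n, y i = z := by
  induction n with
  | zero => simp [wd]
  | succ n ih =>
    simp only [wd, List.mem_cons, ih]
    constructor
    · rintro (h | ⟨i, hi, h⟩)
      · exact ⟨n, by omega, h.symm⟩
      · exact ⟨i, by omega, h⟩
    · rintro ⟨i, hi, h⟩
      rcases Nat.lt_or_ge i n with h1 | h1
      · exact Or.inr ⟨i, h1, h⟩
      · have : i = n := by omega
        subst this
        exact Or.inl h.symm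

theorem forb_wd (y : ℕ → ℕ) (n v : ℕ) : Forb (wd y n) v ↔
    ∃ i j, i < j ∧ j < n ∧ y j < v ∧ v < y i := by
  induction n with
  | zero =>
    constructor
    · rintro ⟨p, q, h, _⟩; simp [wd] at h
    · rintro ⟨i, j, _, h, _⟩; omega
  | succ n ih =>
    simp only [wd]
    rw [forb_cons, ih]
    constructor
    · rintro (⟨i, j, h1, h2, h3⟩ | ⟨h1, z, hz, h2⟩)
      · exact ⟨i, j, h1, by omega, h3⟩
      · rw [mem_wd] at hz
        obtain ⟨i, hi, rfl⟩ := hz
        exact ⟨i, n, hi, by omega, h1, h2⟩
    · rintro ⟨i, j, h1, h2, h3, h4⟩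
      rcases Nat.lt_or_ge j n with h5 | h5
      · exact Or.inl ⟨i, j, h1, h5, h3, h4⟩
      · have : j = n := by omega
        subst this
        exact Or.inr ⟨h3, y i, (mem_wd _ _ _).mpr ⟨i, h1, rfl⟩, h4⟩

theorem asc_wd (y : ℕ → ℕ) (n : ℕ) : asc (wd y n) =
    ((range n).filter (fun j => j + 1 < n ∧ y j < y (j + 1))).card := by
  induction n with
  | zero => simp [wd, asc]
  | succ n ih =>
    cases n with
    | zero => simp [wd, asc]
    | succ n =>
      have h1 : asc (wd y (n + 1 + 1)) = (if y n < y (n + 1) then 1 else 0) + asc (wd y (n + 1)) :=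
        rfl
      rw [h1, ih]
      have h2 : (range (n + 1 + 1)).filter (fun j => j + 1 < n + 1 + 1 ∧ y j < y (j + 1)) =
          (if y n < y (n + 1) then {n} else ∅) ∪
            (range (n + 1)).filter (fun j => j + 1 < n + 1 ∧ y j < y (j + 1)) := by
        ext j
        rw [Finset.mem_union, Finset.mem_filter, Finset.mem_filter, Finset.mem_range,
          Finset.mem_range]
        split_ifs with h3
        · rw [Finset.mem_singleton]
          constructor
          · rintro ⟨h4, h5, h6⟩
            rcases Nat.lt_or_ge j n with h7 | h7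
            · exact Or.inr ⟨by omega, by omega, h6⟩
            · exact Or.inl (by omega)
          · rintro (h4 | ⟨h4, h5, h6⟩)
            · subst h4; exact ⟨by omega, by omega, h3⟩
            · exact ⟨by omega, by omega, h6⟩
        · simp only [Finset.notMem_empty, false_or]
          constructor
          · rintro ⟨h4, h5, h6⟩
            rcases Nat.lt_or_ge j n with h7 | h7
            · exact ⟨by omega, by omega, h6⟩
            · have : j = n := by omega
              subst this
              exact absurd h6 h3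
          · rintro ⟨h4, h5, h6⟩
            exact ⟨by omega, by omega, h6⟩
      rw [h2, Finset.card_union_of_disjoint]
      · split_ifs <;> simp
      · rw [Finset.disjoint_left]
        intro j hj hj2
        rw [Finset.mem_filter] at hj2
        split_ifs at hj
        · rw [Finset.mem_singleton] at hj
          omega
        · simp at hj

theorem validL_wd (y : ℕ → ℕ) (n : ℕ) : ValidL (wd y n) ↔
    ∀ k < n, (k = 0 → y k = 0) ∧ y k ≤ asc (wd y k) + 1 ∧ ¬ Forb (wd y k) (y k) := by
  classical
  induction n with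
  | zero =>
    constructor
    · intro _ k hk; omega
    · intro _; trivial
  | succ n ih =>
    show (y n ∈ allowed (wd y n) ∧ ValidL (wd y n)) ↔ _
    rw [ih]
    have hal : y n ∈ allowed (wd y n) ↔
        (n = 0 → y n = 0) ∧ y n ≤ asc (wd y n) + 1 ∧ ¬ Forb (wd y n) (y n) := by
      cases n with
      | zero =>
        simp only [wd, allowed, Finset.mem_singleton, asc]
        constructor
        · intro h
          refine ⟨fun _ => h, by omega, ?_⟩
          rintro ⟨p, q, h1, _⟩
          simp at h1
        · intro h; exact h.1 trivial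
      | succ n =>
        simp only [wd, allowed]
        rw [Finset.mem_filter, Finset.mem_range]
        constructor
        · rintro ⟨h1, h2⟩
          exact ⟨fun h => absurd h (by omega), by omega, h2⟩
        · rintro ⟨_, h1, h2⟩
          exact ⟨by omega, h2⟩
    rw [hal]
    constructor
    · rintro ⟨h1, h2⟩ k hk
      rcases Nat.lt_or_ge k n with h3 | h3
      · exact h2 k h3
      · have : k = n := by omega
        subst this
        exact h1
    · intro h
      exact ⟨h n (by omega), fun k hk => h k (by omega)⟩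

/-- extension by zero -/
def ext {n : ℕ} (x : Fin n → ℕ) : ℕ → ℕ := fun i => if h : i < n then x ⟨i, h⟩ else 0

theorem ext_val {n : ℕ} (x : Fin n → ℕ) (i : Fin n) : ext x i.val = x i := by
  unfold ext
  rw [dif_pos i.isLt]

theorem ext_lt {n : ℕ} (x : Fin n → ℕ) (i : ℕ) (h : i < n) : ext x i = x ⟨i, h⟩ := by
  unfold ext
  rw [dif_pos h]

theorem wd_surj (n : ℕ) : ∀ w : List ℕ, w.length = n → ∃ x : Fin n → ℕ, wd (ext x) n = w := by
  intro w hw
  refine ⟨fun i => w[n - 1 - i.val]'(by have := i.isLt; omega), ?_⟩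
  have key : ∀ (y : ℕ → ℕ) (m : ℕ) (v : List ℕ) (hv : v.length = m),
      (∀ i (h : i < m), y i = v[m - 1 - i]'(by omega)) → wd y m = v := by
    intro y m
    induction m with
    | zero => intro v hv _; rw [List.length_eq_zero_iff.mp hv]; rfl
    | succ m ih =>
      intro v hv h
      cases v with
      | nil => simp at hv
      | cons c v =>
        simp only [wd]
        have hv' : v.length = m := by simpa using hv
        rw [ih v hv']
        · congr 1
          have := h m (by omega)
          rw [this]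
          simp
        · intro i hi
          rw [h i (by omega)]
          have e : m + 1 - 1 - i = (m - 1 - i) + 1 := by omega
          simp only [e, List.getElem_cons_succ]
  apply key _ _ _ hw
  intro i hi
  rw [ext_lt _ i hi]

theorem wd_inj {n : ℕ} (x x' : Fin n → ℕ) (h : wd (ext x) n = wd (ext x') n) : x = x' := by
  have key : ∀ (m : ℕ), wd (ext x) m = wd (ext x') m → ∀ i < m, ext x i = ext x' i := by
    intro m
    induction m with
    | zero => intro _ i hi; omega
    | succ m ih =>
      intro h i hi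
      simp only [wd, List.cons.injEq] at h
      rcases Nat.lt_or_ge i m with h1 | h1
      · exact ih h.2 i h1
      · have : i = m := by omega
        subst this
        exact h.1
  funext i
  rw [← ext_val x i, ← ext_val x' i]
  exact key n h i i.isLt

/-- **Ascent side.** -/
theorem ascent_count (n : ℕ) :
    Set.ncard {x : Fin (n + 1) → ℕ |
      (∀ i : Fin (n + 1), i.val = 0 → x i = 0) ∧
      (∀ i : Fin (n + 1), x i ≤ (Finset.univ.filter (fun j : Fin (n + 1) =>
          j.val + 1 < i.val ∧ ∃ k : Fin (n + 1), k.val = j.val + 1 ∧ x j < x k)).card + 1) ∧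
      ¬ ∃ i j k : Fin (n + 1), i < j ∧ j < k ∧ x j < x k ∧ x k < x i} = a n 0 1 := by
  classical
  rw [← card_VL n]
  have hcard : ∀ (x : Fin (n + 1) → ℕ) (i : Fin (n + 1)),
      (Finset.univ.filter (fun j : Fin (n + 1) =>
          j.val + 1 < i.val ∧ ∃ k : Fin (n + 1), k.val = j.val + 1 ∧ x j < x k)).card =
        asc (wd (ext x) i.val) := by
    intro x i
    rw [asc_wd]
    apply Finset.card_nbij (fun j => j.val)
    · intro j hj
      rw [Finset.mem_coe, Finset.mem_filter] at hj
      obtain ⟨_, h1, k, h2, h3⟩ := hj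
      rw [Finset.mem_coe, Finset.mem_filter, Finset.mem_range]
      show j.val < i.val ∧ j.val + 1 < i.val ∧ ext x j.val < ext x (j.val + 1)
      refine ⟨by omega, h1, ?_⟩
      rw [ext_val, ← h2, ext_val]
      exact h3
    · intro j _ j' _ h
      exact Fin.ext h
    · intro j hj
      rw [Finset.mem_coe, Finset.mem_filter, Finset.mem_range] at hj
      have hi := i.isLt
      refine ⟨⟨j, by omega⟩, ?_, rfl⟩
      rw [Finset.mem_coe, Finset.mem_filter]
      refine ⟨Finset.mem_univ _, hj.2.1, ⟨j + 1, by omega⟩, rfl, ?_⟩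
      have h3 := hj.2.2
      rw [ext_lt x j (by omega), ext_lt x (j + 1) (by omega)] at h3
      exact h3
  rw [← Set.ncard_coe_finset]
  apply Set.ncard_congr (fun x _ => wd (ext x) (n + 1))
  · intro x hx
    obtain ⟨h1, h2, h3⟩ := hx
    rw [Finset.mem_coe, mem_VL]
    refine ⟨wd_length _ _, ?_⟩
    rw [validL_wd]
    intro k hk
    refine ⟨?_, ?_, ?_⟩
    · intro hk0
      rw [ext_lt x k hk]
      exact h1 ⟨k, hk⟩ hk0
    · have := h2 ⟨k, hk⟩
      rw [hcard] at this
      rw [ext_lt x k hk]
      exact this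
    · rw [forb_wd]
      rintro ⟨i, j, hij, hjk, h4, h5⟩
      apply h3
      refine ⟨⟨i, by omega⟩, ⟨j, by omega⟩, ⟨k, hk⟩, hij, hjk, ?_, ?_⟩
      · rw [ext_lt x j (by omega), ext_lt x k hk] at h4
        exact h4
      · rw [ext_lt x i (by omega), ext_lt x k hk] at h5
        exact h5
  · intro x x' _ _ h
    exact wd_inj x x' h
  · intro w hw
    rw [Finset.mem_coe, mem_VL] at hw
    obtain ⟨x, hx⟩ := wd_surj (n + 1) w hw.1
    refine ⟨x, ?_, hx⟩
    have hv := hw.2
    rw [← hx, validL_wd] at hv
    refine ⟨?_, ?_, ?_⟩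
    · intro i hi
      have := (hv i.val i.isLt).1 hi
      rwa [ext_val] at this
    · intro i
      rw [hcard]
      have := (hv i.val i.isLt).2.1
      rwa [ext_val] at this
    · rintro ⟨i, j, k, hij, hjk, h4, h5⟩
      apply (hv k.val k.isLt).2.2
      rw [forb_wd]
      refine ⟨i.val, j.val, hij, hjk, ?_, ?_⟩
      · rw [ext_val, ext_val]; exact h4
      · rw [ext_val, ext_val]; exact h5

end Pool.Agent.H502R3.AA
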