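import Mathlib
import Pool.Agent.H502R3.DG1
import Pool.Agent.H207R3.DumDefs

/-! The 3421 side of the Dumont problem. -/

namespace Pool.Agent.H502R3.DG

open Finset
open Pool.Agent.H207R3.Dum (q)

/-- contains 3421 -/
def Bad (l : List ℕ) : Prop :=
  ∃ a b c d : ℕ, List.Sublist [a, b, c, d] l ∧ a < b ∧ c < a ∧ d < c

theorem has_bad (w : List ℕ) : Has (![2, 3, 1, 0] : Fin 4 → ℕ) w ↔ Bad w := by
  constructor
  · rintro ⟨x, hs, h⟩
    refine ⟨x 0, x 1, x 2, x 3, hs, ?_, ?_, ?_⟩
    · rw [h 0 1]; decide
    · rw [h 2 0]; decide
    · rw [h 3 2]; decide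
  · rintro ⟨a, b, c, d, hs, h1, h2, h3⟩
    refine ⟨![a, b, c, d], hs, ?_⟩
    intro i j
    fin_cases i <;> fin_cases j <;> simp <;> omega

/-- number of flags -/
def nt : List (Bool × ℕ) → ℕ
  | [] => 0
  | p :: l => (if p.1 then 1 else 0) + nt l

theorem nt_append (A B : List (Bool × ℕ)) : nt (A ++ B) = nt A + nt B := by
  induction A with
  | nil => simp [nt]
  | cons p A ih => simp only [List.cons_append, nt, ih]; ring

theorem ex_append (m : ℕ) (A B : List (Bool × ℕ)) : ex m (A ++ B) = ex m A ++ ex m B := by
  induction A with
  | nil => simp [ex]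
  | cons p A ih =>
    obtain ⟨b, a⟩ := p
    cases b <;> simp [ex, ih]

theorem mem_ex (m : ℕ) (A : List (Bool × ℕ)) (x : ℕ) :
    x ∈ ex m A → x = m ∨ x ∈ A.map Prod.snd := by
  induction A with
  | nil => intro h; simp [ex] at h
  | cons p A ih =>
    obtain ⟨b, a⟩ := p
    intro h
    cases b
    · simp only [ex, Bool.false_eq_true, if_false, List.mem_cons] at h
      rcases h with h | h
      · right; simp [h]
      · rcases ih h with h1 | h1
        · exact Or.inl h1
        · right; simp only [List.map_cons, List.mem_cons]; exact Or.inr h1
    · simp only [ex, if_true, List.mem_cons] at h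
      rcases h with h | h | h
      · left; exact h
      · right; simp [h]
      · rcases ih h with h1 | h1
        · exact Or.inl h1
        · right; simp only [List.map_cons, List.mem_cons]; exact Or.inr h1

theorem letters_ex (m : ℕ) (A : List (Bool × ℕ)) :
    List.Sublist (A.map Prod.snd) (ex m A) := by
  induction A with
  | nil => simp [ex]
  | cons p A ih =>
    obtain ⟨b, a⟩ := p
    cases b
    · simp only [ex, Bool.false_eq_true, if_false, List.map_cons]
      exact ih.cons_cons a
    · simp only [ex, if_true, List.map_cons]
      exact (ih.cons_cons a).cons m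

/-- the letters of `ex m A` other than `m` -/
theorem sub_letters (m : ℕ) (A : List (Bool × ℕ)) : ∀ l : List ℕ, List.Sublist l (ex m A) →
    m ∉ l → List.Sublist l (A.map Prod.snd) := by
  induction A with
  | nil => intro l h _; simpa [ex] using h
  | cons p A ih =>
    obtain ⟨b, a⟩ := p
    have hmain : ∀ l : List ℕ, List.Sublist l (a :: ex m A) → m ∉ l →
        List.Sublist l (((b, a) :: A).map Prod.snd) := by
      intro l h hl
      rw [List.map_cons]
      cases h with
      | cons _ h => exact (ih _ h hl).cons a
      | cons_cons _ h =>
        exact (ih _ h (fun hm => hl (List.mem_cons_of_mem _ hm))).cons_cons a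
    intro l h hl
    cases b
    · simp only [ex, Bool.false_eq_true, if_false] at h
      exact hmain l h hl
    · simp only [ex, if_true] at h
      cases h with
      | cons _ h => exact hmain l h hl
      | cons_cons _ h => exact absurd List.mem_cons_self hl

theorem ex_map (m : ℕ) (X : List (Bool × ℕ)) (h : ∀ p ∈ X, p.2 < m) :
    (ex (m + 1) X).map (fun x => min x m) = ex m X := by
  induction X with
  | nil => rfl
  | cons p X ih =>
    obtain ⟨b, a⟩ := p
    have h1 := ih (fun p hp => h p (List.mem_cons_of_mem _ hp))
    have h2 : a < m := h (b, a) List.mem_cons_self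
    cases b
    · simp only [ex, Bool.false_eq_true, if_false, List.map_cons, h1]
      rw [min_eq_left h2.le]
    · simp only [ex, if_true, List.map_cons, h1]
      rw [min_eq_left h2.le, min_eq_right (by omega)]

/-- what may follow the letter `a` -/
def fol (a : ℕ) : List (Bool × ℕ) → Prop
  | [] => Even a
  | q :: _ => if Even a then q.1 = true ∨ a < q.2 else q.1 = false ∧ q.2 < a

/-- partial Dumont condition -/
def DumC : List (Bool × ℕ) → Prop
  | [] => True
  | p :: l => fol p.2 l ∧ DumC l

theorem DumC_setf (g : Bool) (S : List (Bool × ℕ)) (h : DumC S) : DumC (setf g S) := by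
  cases S with
  | nil => trivial
  | cons p S => exact h

theorem DumC_insert (m : ℕ) (S : List (Bool × ℕ)) (β : Bool)
    (hS1 : S = [] → Even m) (hS2 : ∀ p B, S = p :: B → p.1 = true ∧ p.2 < m)
    (A : List (Bool × ℕ)) (hA : ∀ p ∈ A, p.2 < m) (h : DumC (A ++ S)) :
    DumC (A ++ (β, m) :: setf (decide (Even m)) S) := by
  induction A with
  | nil =>
    simp only [List.nil_append] at h ⊢
    refine ⟨?_, DumC_setf _ S h⟩
    cases S with
    | nil => exact hS1 rfl
    | cons p S =>
      simp only [setf, fol]
      by_cases hm : Even m
      · rw [if_pos hm]; left; simpa using hm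
      · rw [if_neg hm]; exact ⟨by simpa using hm, (hS2 p S rfl).2⟩
  | cons p A ih =>
    rw [List.cons_append] at h ⊢
    refine ⟨?_, ih (fun p hp => hA p (List.mem_cons_of_mem _ hp)) h.2⟩
    have h1 := h.1
    cases A with
    | nil =>
      simp only [List.nil_append] at h1 ⊢
      simp only [fol]
      have hp : p.2 < m := hA p List.mem_cons_self
      have he : Even p.2 := by
        cases S with
        | nil => exact h1
        | cons r S =>
          by_contra hne
          simp only [fol] at h1
          rw [if_neg hne] at h1
          have := (hS2 r S rfl).1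
          rw [this] at h1
          exact absurd h1.1 (by simp)
      rw [if_pos he]
      exact Or.inr hp
    | cons r A => exact h1

theorem DumC_final (v : List ℕ) (h : DumC (v.map (fun x => (false, x)))) : Dum v := by
  induction v with
  | nil => trivial
  | cons a v ih =>
    rw [List.map_cons] at h
    have h2 := ih h.2
    have h1 := h.1
    cases v with
    | nil => exact h1
    | cons b v =>
      refine ⟨?_, h2⟩
      simp only [List.map_cons, fol] at h1
      by_cases he : Even a
      · rw [if_pos he] at h1 ⊢
        rcases h1 with h3 | h3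
        · simp at h3
        · exact h3
      · rw [if_neg he] at h1 ⊢
        exact h1.2

structure Base (m : ℕ) (c : List (Bool × ℕ)) : Prop where
  nd : (c.map Prod.snd).Nodup
  mem : ∀ x, x ∈ c.map Prod.snd ↔ x < m
  dum : DumC c
  good : ¬ Bad (ex m c)

theorem Base.lt {m : ℕ} {c : List (Bool × ℕ)} (h : Base m c) : ∀ p ∈ c, p.2 < m :=
  fun _ hp => (h.mem _).mp (List.mem_map_of_mem hp)

theorem cons_sub_after (m : ℕ) (X Y l : List ℕ) (hX : m ∉ X)
    (h : List.Sublist (m :: l) (X ++ m :: Y)) : List.Sublist l Y := by
  induction X with
  | nil => exact List.cons_sublist_cons.mp h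
  | cons a X ih =>
    have ha : a ≠ m := fun e => hX (by rw [e]; exact List.mem_cons_self)
    rw [List.cons_append] at h
    cases h with
    | cons _ h => exact ih (fun hm => hX (List.mem_cons_of_mem _ hm)) h
    | cons_cons _ h => exact absurd rfl ha

theorem squeeze (m : ℕ) (l E1 M E2 : List ℕ) (hM : ∀ x ∈ M, x = m) (hl : l.count m ≤ 1)
    (h : List.Sublist l (E1 ++ (M ++ E2))) : List.Sublist l (E1 ++ m :: E2) := by
  rw [List.sublist_append_iff] at h
  obtain ⟨k1, k2, rfl, h1, h2⟩ := h
  rw [List.sublist_append_iff] at h2
  obtain ⟨k3, k4, rfl, h3, h4⟩ := h2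
  apply List.Sublist.append h1
  have hk3 : ∀ x ∈ k3, x = m := fun x hx => hM x (h3.subset hx)
  rw [List.count_append, List.count_append] at hl
  have hc : k3.count m = k3.length := by
    rw [List.count_eq_length]
    intro x hx
    exact (hk3 x hx).symm
  have hlen : k3.length ≤ 1 := by omega
  match k3, hlen, hk3 with
  | [], _, _ => exact h4.cons m
  | [x], _, hk => 
    have : x = m := hk x (by simp)
    subst this
    exact h4.cons_cons x

theorem drop_last (m : ℕ) (l E1 M : List ℕ) (t : ℕ) (hM : ∀ x ∈ M, x = m) (ht : t ≠ m)
    (h : List.Sublist (l ++ [t]) (E1 ++ M)) : List.Sublist (l ++ [t]) E1 := by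
  rw [List.sublist_append_iff] at h
  obtain ⟨k1, k2, h0, h1, h2⟩ := h
  rcases List.eq_nil_or_concat k2 with hk | ⟨k, x, hk⟩
  · subst hk
    rw [List.append_nil] at h0
    rw [h0]; exact h1
  · rw [List.concat_eq_append] at hk
    subst hk
    rw [← List.append_assoc] at h0
    have h3 := List.append_inj' h0 rfl
    have h4 : t = x := by simpa using h3.2
    exact absurd (h4.trans (hM x (h2.subset (by simp)))) ht

theorem Base_insert (m : ℕ) (A S : List (Bool × ℕ)) (β : Bool)
    (hS1 : S = [] → Even m) (hS2 : ∀ p B, S = p :: B → p.1 = true)
    (hb : Base m (A ++ S))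
    (hcond : ∀ z t, t < z → z < m →
      ¬ List.Sublist [m + 1, z, t] (ex (m + 1) (setf (decide (Even m)) S))) :
    Base (m + 1) (A ++ (β, m) :: setf (decide (Even m)) S) := by
  set g := decide (Even m) with hg
  have hlet : (setf g S).map Prod.snd = S.map Prod.snd := by
    cases S <;> simp [setf]
  have hlt := hb.lt
  have hltA : ∀ p ∈ A, p.2 < m := fun p hp => hlt p (List.mem_append_left _ hp)
  have hltS : ∀ p ∈ S, p.2 < m := fun p hp => hlt p (List.mem_append_right _ hp)
  have hltS' : ∀ p ∈ setf g S, p.2 < m := by
    intro p hp
    have h1 : p.2 ∈ (setf g S).map Prod.snd := List.mem_map_of_mem hp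
    rw [hlet] at h1
    rw [List.mem_map] at h1
    obtain ⟨p', h2, h3⟩ := h1
    rw [← h3]; exact hltS p' h2
  have hperm : ((A ++ (β, m) :: setf g S).map Prod.snd).Perm (m :: (A ++ S).map Prod.snd) := by
    rw [List.map_append, List.map_cons, hlet, List.map_append]
    exact List.perm_middle
  refine ⟨?_, ?_, ?_, ?_⟩
  · rw [hperm.nodup_iff, List.nodup_cons]
    refine ⟨?_, hb.nd⟩
    rw [hb.mem]
    omega
  · intro x
    rw [hperm.mem_iff, List.mem_cons, hb.mem]
    omega
  · apply DumC_insert m S β hS1 _ A hltA hb.dum
    intro p B he
    refine ⟨hS2 p B he, hltS p (by rw [he]; exact List.mem_cons_self)⟩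
  · rintro ⟨x, y, z, t, hs, hxy, hzx, htz⟩
    have hexc : ex (m + 1) (A ++ (β, m) :: setf g S) =
        (ex (m + 1) A ++ (if β then [m + 1] else [])) ++ m :: ex (m + 1) (setf g S) := by
      rw [ex_append]
      cases β <;> simp [ex]
    have hbd : ∀ w ∈ ex (m + 1) (A ++ (β, m) :: setf g S), w ≤ m + 1 := by
      intro w hw
      rcases mem_ex _ _ _ hw with h1 | h1
      · omega
      · rw [hperm.mem_iff, List.mem_cons, hb.mem] at h1
        omega
    have hy : y ≤ m + 1 := hbd y (hs.subset (by simp))
    by_cases hxm : x = m
    · subst hxm
      have hym : y = x + 1 := by omega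
      subst hym
      rw [hexc] at hs
      have h1 := cons_sub_after x _ _ _ ?_ hs
      · exact hcond z t htz (by omega) h1
      · rw [List.mem_append]
        rintro (h2 | h2)
        · rcases mem_ex _ _ _ h2 with h3 | h3
          · omega
          · rw [List.mem_map] at h3
            obtain ⟨p, h4, h5⟩ := h3
            have := hltA p h4
            omega
        · cases β <;> simp at h2
    · have hx : x < m := by omega
      have h1 := hs.map (fun x => min x m)
      rw [hexc] at h1
      simp only [List.map_append, List.map_cons, List.map_nil] at h1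
      rw [ex_map m A hltA, ex_map m _ hltS'] at h1
      rw [min_eq_left hx.le, min_eq_left (by omega : z ≤ m), min_eq_left (by omega : t ≤ m),
        min_self] at h1
      have hβ : (if β then [m + 1] else []).map (fun x => min x m) = if β then [m] else [] := by
        cases β <;> simp
      rw [hβ] at h1
      apply hb.good
      refine ⟨x, min y m, z, t, ?_, ?_, hzx, htz⟩
      · rw [ex_append]
        cases S with
        | nil =>
          simp only [setf, ex] at h1 ⊢
          have h2 : List.Sublist ([x, min y m, z] ++ [t]) (ex m A ++ ((if β then [m] else []) ++ [m])) := by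
            simpa using h1
          have h3 := drop_last m [x, min y m, z] (ex m A) _ t ?_ (by omega) h2
          · simpa using h3
          · intro w hw
            cases β <;> simp at hw <;> exact hw
        | cons p B =>
          obtain ⟨b, a⟩ := p
          have hb1 : b = true := hS2 (b, a) B rfl
          subst hb1
          simp only [ex, if_true]
          apply squeeze m _ (ex m A) ((if β then [m] else []) ++ ([m] ++ if g then [m] else []))
            (a :: ex m B)
          · intro w hw
            rw [List.mem_append, List.mem_append] at hw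
            rcases hw with hw | hw | hw
            · cases β <;> simp at hw <;> exact hw
            · simpa using hw
            · cases hgg : g <;> rw [hgg] at hw <;> simp at hw <;> exact hw
          · have e1 : x ≠ m := hxm
            have e2 : z ≠ m := by omega
            have e3 : t ≠ m := by omega
            rw [List.count_cons_of_ne e1, List.count_cons, List.count_cons_of_ne e2,
              List.count_cons_of_ne e3, List.count_nil]
            split_ifs <;> omega
          · have h2 : (if β then [m] else []) ++ ([m] ++ if g then [m] else []) ++ a :: ex m B =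
                (if β then [m] else []) ++ m :: ex m (setf g ((true, a) :: B)) := by
              simp only [setf, ex]
              cases g <;> simp
            have h3 : ex m A ++ ((if β then [m] else []) ++ ([m] ++ if g then [m] else []) ++ a :: ex m B) =
                ex m A ++ (if β then [m] else []) ++ m :: ex m (setf g ((true, a) :: B)) := by
              rw [h2]; simp
            rw [h3]
            exact h1
      · exact lt_min hxy hx

end Pool.Agent.H502R3.DG
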