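import Mathlib
import Pool.Agent.H502R3.DG2

/-! The 3421 side of the Dumont problem: evaluation. -/

namespace Pool.Agent.H502R3.DG

open Finset
open Pool.Agent.H207R3.Dum (q)

/-- the part of the sum over children in a prefix -/
def chp (m : ℕ) (g : Bool) (f : List (Bool × ℕ) → ℕ) :
    List (Bool × ℕ) → List (Bool × ℕ) → List (Bool × ℕ) → ℕ
  | _, [], _ => 0
  | A, (b, a) :: B, S =>
    (if b then f (A ++ (true, m) :: (g, a) :: (B ++ S)) +
        f (A ++ (false, m) :: (g, a) :: (B ++ S)) else 0)
      + chp m g f (A ++ [(b, a)]) B S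

theorem ch_append (m : ℕ) (g : Bool) (f : List (Bool × ℕ) → ℕ) (S P : List (Bool × ℕ)) :
    ∀ A, ch m g f A (P ++ S) = chp m g f A P S + ch m g f (A ++ P) S := by
  induction P with
  | nil => intro A; simp [chp]
  | cons p B ih =>
    obtain ⟨b, a⟩ := p
    intro A
    simp only [List.cons_append, ch, chp]
    rw [ih, List.append_assoc, add_assoc]
    rfl

structure Inv (m : ℕ) (P Rt : List (Bool × ℕ)) : Prop where
  base : Base m (P ++ Rt)
  inc : (Rt.map Prod.snd).Pairwise (· < ·)
  q : P = [] ∨ ∃ P0 b Q x, P = P0 ++ [(b, Q)] ∧ x ∈ Rt.map Prod.snd ∧ x < Q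

theorem no_pair (M : ℕ) (X : List (Bool × ℕ)) (h : (X.map Prod.snd).Pairwise (· < ·))
    (z t : ℕ) (hz : z ≠ M) (ht : t ≠ M) (htz : t < z)
    (hs : List.Sublist [M, z, t] (ex M X)) : False := by
  have h1 : List.Sublist [z, t] (ex M X) := (List.sublist_cons_self M [z, t]).trans hs
  have h2 := sub_letters M X [z, t] h1 (by
    simp only [List.mem_cons, List.not_mem_nil, or_false, not_or]
    exact ⟨hz.symm, ht.symm⟩)
  have h3 := h.sublist h2
  rw [List.pairwise_pair] at h3
  omega

theorem Inv_end (m : ℕ) (P Rt : List (Bool × ℕ)) (β : Bool) (hm : Even m) (h : Inv m P Rt) :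
    Inv (m + 1) P (Rt ++ [(β, m)]) := by
  refine ⟨?_, ?_, ?_⟩
  · have hb : Base m ((P ++ Rt) ++ []) := by rw [List.append_nil]; exact h.base
    have h1 := Base_insert m (P ++ Rt) [] β (fun _ => hm) (fun p B he => by simp at he) hb
      (fun z t _ _ hs => by simp [setf, ex] at hs)
    have e : P ++ (Rt ++ [(β, m)]) = P ++ Rt ++ (β, m) :: setf (decide (Even m)) [] := by
      simp [setf]
    rw [e]; exact h1
  · rw [List.map_append, List.pairwise_append]
    refine ⟨h.inc, by simp, ?_⟩
    intro a ha b hb
    simp only [List.map_cons, List.map_nil, List.mem_singleton] at hb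
    rw [hb]
    rw [← h.base.mem, List.map_append]
    exact List.mem_append_right _ ha
  · rcases h.q with h0 | ⟨P0, b, Q, x, h1, h2, h3⟩
    · exact Or.inl h0
    · right
      refine ⟨P0, b, Q, x, h1, ?_, h3⟩
      rw [List.map_append]
      exact List.mem_append_left _ h2

theorem Inv_right (m : ℕ) (P R1 R2 : List (Bool × ℕ)) (a : ℕ) (β : Bool)
    (h : Inv m P (R1 ++ (true, a) :: R2)) :
    Inv (m + 1) (P ++ R1 ++ [(β, m)]) ((decide (Even m), a) :: R2) := by
  have hinc : (((decide (Even m), a) :: R2).map Prod.snd).Pairwise (· < ·) := by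
    have h1 := h.inc
    rw [List.map_append, List.pairwise_append] at h1
    exact h1.2.1
  refine ⟨?_, hinc, ?_⟩
  · have hb : Base m ((P ++ R1) ++ (true, a) :: R2) := by
      rw [List.append_assoc]; exact h.base
    have h1 := Base_insert m (P ++ R1) ((true, a) :: R2) β (fun he => by simp at he)
      (fun p B he => by injection he with h1 _; rw [← h1]) hb
      (fun z t htz hz hs => no_pair (m + 1) _ hinc z t (by omega) (by omega) htz hs)
    have e : P ++ R1 ++ [(β, m)] ++ (decide (Even m), a) :: R2 =
        P ++ R1 ++ (β, m) :: setf (decide (Even m)) ((true, a) :: R2) := by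
      simp [setf]
    rw [e]; exact h1
  · right
    refine ⟨P ++ R1, β, m, a, rfl, by simp, ?_⟩
    rw [← h.base.mem]
    simp

theorem ex_nt_zero (M : ℕ) (X : List (Bool × ℕ)) (h : nt X = 0) : ex M X = X.map Prod.snd := by
  induction X with
  | nil => rfl
  | cons p X ih =>
    obtain ⟨b, a⟩ := p
    cases b
    · simp only [nt, Bool.false_eq_true, if_false, zero_add] at h
      simp [ex, ih h]
    · simp [nt] at h

theorem Inv_left (m : ℕ) (A B Rt : List (Bool × ℕ)) (a : ℕ) (β : Bool) (hm : ¬ Even m)
    (hB : nt B = 0) (h : Inv m (A ++ (true, a) :: B) Rt) :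
    Inv (m + 1) (A ++ (β, m) :: (false, a) :: B) Rt := by
  have hg : decide (Even m) = false := by simpa using hm
  refine ⟨?_, h.inc, ?_⟩
  · have hb : Base m (A ++ (true, a) :: (B ++ Rt)) := by
      have := h.base
      simpa using this
    have h1 := Base_insert m A ((true, a) :: (B ++ Rt)) β (fun he => by simp at he)
      (fun p B he => by injection he with h1 _; rw [← h1]) hb
      (by
        intro z t htz hz hs
        have e : setf (decide (Even m)) ((true, a) :: (B ++ Rt)) = ((false, a) :: B) ++ Rt := by
          rw [hg]; rfl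
        rw [e, ex_append] at hs
        have hnt : nt ((false, a) :: B) = 0 := by simp [nt, hB]
        rw [ex_nt_zero _ _ hnt, List.sublist_append_iff] at hs
        obtain ⟨k1, k2, h0, h1, h2⟩ := hs
        cases k1 with
        | nil =>
          rw [List.nil_append] at h0
          rw [← h0] at h2
          exact no_pair (m + 1) Rt h.inc z t (by omega) (by omega) htz h2
        | cons y k1 =>
          rw [List.cons_append] at h0
          injection h0 with h3 _
          subst h3
          have h4 : m + 1 ∈ ((false, a) :: B).map Prod.snd := h1.subset List.mem_cons_self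
          have h5 : m + 1 < m := by
            rw [← hb.mem]
            simp only [List.map_cons, List.mem_cons, List.map_append, List.mem_append] at h4 ⊢
            tauto
          omega)
    have e : A ++ (β, m) :: (false, a) :: B ++ Rt =
        A ++ (β, m) :: setf (decide (Even m)) ((true, a) :: (B ++ Rt)) := by
      rw [hg]; simp [setf]
    rw [e]; exact h1
  · right
    rcases h.q with h0 | ⟨P0, b, Q, x, h1, h2, h3⟩
    · simp at h0
    · rcases List.eq_nil_or_concat B with hB0 | ⟨B0, l, hB0⟩
      · subst hB0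
        have h4 := List.append_inj' h1 rfl
        have h5 : a = Q := by
          have := h4.2
          simp only [List.cons.injEq, Prod.mk.injEq, and_true] at this
          exact this.2
        subst h5
        exact ⟨A ++ [(β, m)], false, a, x, by simp, h2, h3⟩
      · rw [List.concat_eq_append] at hB0
        subst hB0
        have e2 : A ++ (true, a) :: (B0 ++ [l]) = (A ++ (true, a) :: B0) ++ [l] := by simp
        rw [e2] at h1
        have h4 := List.append_inj' h1 rfl
        have h5 : l = (b, Q) := by simpa using h4.2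
        subst h5
        exact ⟨A ++ (β, m) :: (false, a) :: B0, b, Q, x, by simp, h2, h3⟩

theorem lift_bad (m : ℕ) (w : List ℕ) (h : Bad (ex m (cfg m w))) : Bad w := by
  obtain ⟨a, b, c, d, hs, h1, h2, h3⟩ := h
  obtain ⟨l', hl', he⟩ := lift_pat m w _ hs
  match l', he, hl' with
  | [a', b', c', d'], he, hl' =>
    simp only [List.map_cons, List.map_nil, List.cons.injEq, and_true] at he
    obtain ⟨rfl, rfl, rfl, rfl⟩ := he
    refine ⟨a', b', c', d', hl', ?_, ?_, ?_⟩ <;> omega
  | [], he, _ => simp at he
  | [_], he, _ => simp at he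
  | [_, _], he, _ => simp at he
  | [_, _, _], he, _ => simp at he
  | _ :: _ :: _ :: _ :: _ :: _, he, _ => simp at he

theorem nt_pos_mem (M : ℕ) (X : List (Bool × ℕ)) (h : 1 ≤ nt X) : M ∈ ex M X := by
  induction X with
  | nil => simp [nt] at h
  | cons p X ih =>
    obtain ⟨b, a⟩ := p
    cases b
    · simp only [nt, Bool.false_eq_true, if_false, zero_add] at h
      simp [ex, ih h]
    · simp [ex]

theorem nt_sub (M : ℕ) (X0 : List (Bool × ℕ)) (b : Bool) (Q : ℕ)
    (h : 1 ≤ nt (X0 ++ [(b, Q)])) : List.Sublist [M, Q] (ex M (X0 ++ [(b, Q)])) := by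
  rw [ex_append]
  cases b
  · rw [nt_append] at h
    simp only [nt, Bool.false_eq_true, if_false, zero_add, add_zero] at h
    have h1 : List.Sublist [M] (ex M X0) := List.singleton_sublist.mpr (nt_pos_mem M X0 h)
    have h2 : List.Sublist [Q] (ex M [(false, Q)]) := by simp [ex]
    exact h1.append h2
  · have h2 : List.Sublist [M, Q] (ex M [(true, Q)]) := by simp [ex]
    exact h2.trans (List.sublist_append_right _ _)

theorem dead (N m : ℕ) (A B Rt : List (Bool × ℕ)) (a : ℕ) (β g : Bool)
    (h : Inv m (A ++ (true, a) :: B) Rt) (hg : g = true ∨ 1 ≤ nt B) :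
    comp (WW (![2, 3, 1, 0] : Fin 4 → ℕ) N) (m + 1) (A ++ (β, m) :: (g, a) :: (B ++ Rt)) = 0 := by
  apply comp_eq_zero
  intro w hw he
  rw [mem_WW] at hw
  apply hw.2.2
  rw [has_bad]
  apply lift_bad (m + 1) w
  rw [he]
  rcases h.q with h0 | ⟨P0, b, Q, x, h1, h2, h3⟩
  · simp at h0
  · have hsub1 : List.Sublist [m + 1, Q] (ex (m + 1) ((g, a) :: B)) := by
      rcases List.eq_nil_or_concat B with hB0 | ⟨B0, l, hB0⟩
      · subst hB0
        have h4 := List.append_inj' h1 rfl
        have h5 : a = Q := by
          have := h4.2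
          simp only [List.cons.injEq, Prod.mk.injEq, and_true] at this
          exact this.2
        subst h5
        have hg' : g = true := by
          rcases hg with hg | hg
          · exact hg
          · simp [nt] at hg
        subst hg'
        simp [ex]
      · rw [List.concat_eq_append] at hB0
        subst hB0
        have e2 : A ++ (true, a) :: (B0 ++ [l]) = (A ++ (true, a) :: B0) ++ [l] := by simp
        rw [e2] at h1
        have h4 := List.append_inj' h1 rfl
        have h5 : l = (b, Q) := by simpa using h4.2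
        subst h5
        have e3 : (g, a) :: (B0 ++ [(b, Q)]) = ((g, a) :: B0) ++ [(b, Q)] := by simp
        rw [e3]
        apply nt_sub
        rw [← e3]
        simp only [nt]
        rcases hg with hg | hg
        · rw [hg]; simp
        · omega
    have hsub2 : List.Sublist [x] (ex (m + 1) Rt) :=
      List.singleton_sublist.mpr ((letters_ex (m + 1) Rt).subset h2)
    have hsub3 : List.Sublist [m] (ex (m + 1) [(β, m)]) := by
      cases β <;> simp [ex]
    have hQ : Q < m := by
      rw [← h.base.mem, h1]
      simp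
    refine ⟨m, m + 1, Q, x, ?_, by omega, hQ, h3⟩
    have e : A ++ (β, m) :: (g, a) :: (B ++ Rt) = A ++ ([(β, m)] ++ (((g, a) :: B) ++ Rt)) := by
      simp
    rw [e, ex_append, ex_append, ex_append]
    have h6 : List.Sublist ([m] ++ ([m + 1, Q] ++ [x]))
        (ex (m + 1) [(β, m)] ++ (ex (m + 1) ((g, a) :: B) ++ ex (m + 1) Rt)) :=
      hsub3.append (hsub1.append hsub2)
    exact h6.trans (List.sublist_append_right _ _)

theorem evalR (k m : ℕ) (f : List (Bool × ℕ) → ℕ)
    (hf : ∀ P' Rt', Inv (m + 1) P' Rt' → f (P' ++ Rt') = q k (nt Rt') (nt P'))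
    (P Rt : List (Bool × ℕ)) (hI : Inv m P Rt) (g : Bool) (hg : g = decide (Even m)) :
    ∀ R2 R1 : List (Bool × ℕ), Rt = R1 ++ R2 →
    ch m g f (P ++ R1) R2 =
      (if g then q k (nt Rt + 1) (nt P) + q k (nt Rt) (nt P) else 0) +
      ∑ i ∈ range (nt R2),
        (q k (nt Rt - (nt R1 + 1 + i) + (if g then 1 else 0)) (nt P + (nt R1 + 1 + i)) +
         q k (nt Rt - (nt R1 + 1 + i) + (if g then 1 else 0)) (nt P + (nt R1 + 1 + i) - 1)) := by
  intro R2
  induction R2 with
  | nil =>
    intro R1 hR
    rw [List.append_nil] at hR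
    subst hR
    simp only [ch, nt, range_zero, sum_empty, add_zero]
    cases g with
    | false => simp
    | true =>
      have hm : Even m := by simpa using hg.symm
      rw [if_pos rfl, if_pos rfl]
      have h1 := hf _ _ (Inv_end m P Rt true hm hI)
      have h2 := hf _ _ (Inv_end m P Rt false hm hI)
      rw [← List.append_assoc] at h1 h2
      rw [h1, h2, nt_append, nt_append]
      simp [nt]
  | cons p B ih =>
    obtain ⟨b, a⟩ := p
    intro R1 hR
    simp only [ch]
    have h1 := ih (R1 ++ [(b, a)]) (by rw [hR]; simp)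
    rw [← List.append_assoc] at h1
    rw [h1]
    have hntR : nt Rt = nt R1 + ((if b then 1 else 0) + nt B) := by
      rw [hR, nt_append]; rfl
    cases b with
    | false =>
      have e1 : nt (R1 ++ [(false, a)]) = nt R1 := by rw [nt_append]; simp [nt]
      have e2 : nt ((false, a) :: B) = nt B := by simp [nt]
      rw [e1, e2]
      simp
    | true =>
      have e1 : nt (R1 ++ [(true, a)]) = nt R1 + 1 := by rw [nt_append]; simp [nt]
      have e2 : nt ((true, a) :: B) = nt B + 1 := by simp [nt]; ring
      rw [e1, e2, if_pos rfl]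
      rw [Finset.sum_range_succ']
      have h3 : ∀ β : Bool, f (P ++ R1 ++ (β, m) :: (g, a) :: B) =
          q k ((if g then 1 else 0) + nt B) (nt P + nt R1 + (if β then 1 else 0)) := by
        intro β
        have hI' : Inv m P (R1 ++ (true, a) :: B) := by rw [← hR]; exact hI
        have h4 := hf _ _ (Inv_right m P R1 B a β hI')
        rw [← hg] at h4
        have e3 : P ++ R1 ++ (β, m) :: (g, a) :: B = P ++ R1 ++ [(β, m)] ++ (g, a) :: B := by simp
        rw [e3, h4, nt_append, nt_append]
        simp [nt]
      rw [h3 true, h3 false]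
      have e4 : nt Rt - (nt R1 + 1 + 0) + (if g then 1 else 0) = (if g then 1 else 0) + nt B := by
        rw [hntR, if_pos rfl]; omega
      rw [e4]
      have e5 : nt P + nt R1 + (if (true : Bool) then 1 else 0) = nt P + (nt R1 + 1 + 0) := by
        simp; ring
      have e6 : nt P + nt R1 + (if (false : Bool) then 1 else 0) = nt P + (nt R1 + 1 + 0) - 1 := by
        simp
      rw [e5, e6]
      have e7 : ∀ i, nt R1 + 1 + 1 + i = nt R1 + 1 + (i + 1) := by intro i; ring
      simp only [e7]
      ring

theorem evalP (N k m : ℕ) (f : List (Bool × ℕ) → ℕ)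
    (hf0 : f = comp (WW (![2, 3, 1, 0] : Fin 4 → ℕ) N) (m + 1))
    (hf : ∀ P' Rt', Inv (m + 1) P' Rt' → f (P' ++ Rt') = q k (nt Rt') (nt P'))
    (P Rt : List (Bool × ℕ)) (hI : Inv m P Rt) (g : Bool) (hg : g = decide (Even m)) :
    ∀ P2 A : List (Bool × ℕ), P = A ++ P2 →
    chp m g f A P2 Rt =
      if g then 0 else if nt P2 = 0 then 0 else q k (nt Rt) (nt P) + q k (nt Rt) (nt P - 1) := by
  intro P2
  induction P2 with
  | nil =>
    intro A _
    simp [chp, nt]
  | cons p B ih =>
    obtain ⟨b, a⟩ := p
    intro A hP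
    simp only [chp]
    rw [ih (A ++ [(b, a)]) (by rw [hP]; simp)]
    cases b with
    | false => simp [nt]
    | true =>
      rw [if_pos rfl]
      have hI' : Inv m (A ++ (true, a) :: B) Rt := by rw [← hP]; exact hI
      by_cases hd : g = true ∨ 1 ≤ nt B
      · have hz : ∀ β : Bool, f (A ++ (β, m) :: (g, a) :: (B ++ Rt)) = 0 := by
          intro β
          rw [hf0]
          exact dead N m A B Rt a β g hI' hd
        rw [hz true, hz false]
        cases hgg : g with
        | true => simp
        | false =>
          have h1 : 1 ≤ nt B := by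
            rcases hd with h2 | h2
            · rw [hgg] at h2; simp at h2
            · exact h2
          have h2 : nt B ≠ 0 := by omega
          have h3 : nt ((true, a) :: B) ≠ 0 := by simp [nt]
          simp [h2, h3]
      · have hg0 : g = false := by
          by_contra hne
          exact hd (Or.inl (by simpa using hne))
        have hB0 : nt B = 0 := by omega
        subst hg0
        have hm : ¬ Even m := by simpa using hg.symm
        have h3 : ∀ β : Bool, f (A ++ (β, m) :: (false, a) :: (B ++ Rt)) =
            q k (nt Rt) (nt A + (if β then 1 else 0)) := by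
          intro β
          have h4 := hf _ _ (Inv_left m A B Rt a β hm hB0 hI')
          have e3 : A ++ (β, m) :: (false, a) :: (B ++ Rt) =
              A ++ (β, m) :: (false, a) :: B ++ Rt := by simp
          rw [e3, h4, nt_append]
          simp [nt, hB0]
        rw [h3 true, h3 false]
        have hPn : nt P = nt A + 1 := by
          rw [hP, nt_append]; simp [nt, hB0]
        have hne : nt ((true, a) :: B) ≠ 0 := by simp [nt]
        simp [hB0, hne, hPn]

theorem sum_range_Icc (R : ℕ) (F : ℕ → ℕ) :
    ∑ i ∈ range R, F (1 + i) = ∑ j ∈ Icc 1 R, F j := by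
  induction R with
  | zero => simp
  | succ R ih =>
    rw [Finset.sum_range_succ, Finset.sum_Icc_succ_top (by omega), ih, add_comm 1 R]

theorem nt_zero_map (c : List (Bool × ℕ)) (h : nt c = 0) :
    c = (c.map Prod.snd).map (fun x => (false, x)) := by
  induction c with
  | nil => rfl
  | cons p c ih =>
    obtain ⟨b, a⟩ := p
    cases b
    · simp only [nt, Bool.false_eq_true, if_false, zero_add] at h
      simp only [List.map_cons]
      rw [← ih h]
    · simp [nt] at h

theorem nt_pos_ex (c : List (Bool × ℕ)) (h : nt c ≠ 0) : ∃ p ∈ c, p.1 = true := by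
  induction c with
  | nil => simp [nt] at h
  | cons p c ih =>
    obtain ⟨b, a⟩ := p
    cases b
    · simp only [nt, Bool.false_eq_true, if_false, zero_add] at h
      obtain ⟨p, h1, h2⟩ := ih h
      exact ⟨p, List.mem_cons_of_mem _ h1, h2⟩
    · exact ⟨(true, a), List.mem_cons_self, rfl⟩

theorem eval (N : ℕ) (hN : Even N) : ∀ k m P Rt, m + k = N → Inv m P Rt →
    comp (WW (![2, 3, 1, 0] : Fin 4 → ℕ) N) m (P ++ Rt) = q k (nt Rt) (nt P) := by
  intro k
  induction k with
  | zero =>
    intro m P Rt hm hI
    have hm' : m = N := by omega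
    subst hm'
    have hW : ∀ w ∈ WW (![2, 3, 1, 0] : Fin 4 → ℕ) m, ∀ x ∈ w, x < m := by
      intro w hw x hx
      rw [mem_WW] at hw
      exact (hw.1.2 x).mp hx
    simp only [q]
    by_cases h : nt Rt = 0 ∧ nt P = 0
    · rw [if_pos h]
      have hn : nt (P ++ Rt) = 0 := by rw [nt_append, h.1, h.2]
      have he := nt_zero_map _ hn
      rw [he, comp_final _ _ hW, ind_pos]
      rw [mem_WW]
      refine ⟨⟨hI.base.nd, hI.base.mem⟩, ?_, ?_⟩
      · apply DumC_final
        rw [← he]
        exact hI.base.dum
      · rw [has_bad]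
        have := hI.base.good
        rw [ex_nt_zero _ _ hn] at this
        exact this
    · rw [if_neg h]
      apply comp_final_zero _ _ hW
      apply nt_pos_ex
      rw [nt_append]
      intro h0
      exact h ⟨by omega, by omega⟩
  | succ k ih =>
    intro m P Rt hm hI
    have hmN : m < N := by omega
    rw [comp_succ _ m _ _ (fun p hp => (hI.base.lt p hp).ne)]
    · rw [ch_append]
      have hf : ∀ P' Rt', Inv (m + 1) P' Rt' →
          comp (WW (![2, 3, 1, 0] : Fin 4 → ℕ) N) (m + 1) (P' ++ Rt') = q k (nt Rt') (nt P') := by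
        intro P' Rt' hI'
        exact ih (m + 1) P' Rt' (by omega) hI'
      rw [evalP N k m _ rfl hf P Rt hI _ rfl P [] rfl]
      have h2 := evalR k m _ hf P Rt hI _ rfl Rt [] rfl
      rw [List.append_nil] at h2
      rw [List.nil_append, h2]
      simp only [q]
      have hpar : Even (k + 1) ↔ Even m := by
        have h3 : Even (m + (k + 1)) := by rw [hm]; exact hN
        rw [Nat.even_add] at h3
        exact h3.symm
      have hnil : nt ([] : List (Bool × ℕ)) = 0 := rfl
      rw [hnil]
      by_cases he : Even m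
      · have hd : decide (Even m) = true := by simpa using he
        rw [hd, if_pos rfl, if_pos rfl, if_pos (hpar.mpr he), zero_add,
          ← sum_range_Icc (nt Rt) (fun j => q k (nt Rt - j + 1) (nt P + j) +
          q k (nt Rt - j + 1) (nt P + j - 1))]
        simp only [zero_add, if_true]
      · have hd : decide (Even m) = false := by simpa using he
        rw [hd, if_neg (fun h => he (hpar.mp h)),
          ← sum_range_Icc (nt Rt) (fun j => q k (nt Rt - j) (nt P + j) +
          q k (nt Rt - j) (nt P + j - 1))]
        by_cases hP : nt P = 0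
        · simp [hP]
        · have : 1 ≤ nt P := by omega
          simp [hP, this]
    · intro w hw
      rw [mem_WW] at hw
      exact ⟨hw.2.1, hw.1.1, (hw.1.2 m).mpr hmN⟩

theorem inv_init : Inv 0 [] [] := by
  refine ⟨⟨by simp, by simp, trivial, ?_⟩, by simp, Or.inl rfl⟩
  rintro ⟨a, b, c, d, h, _⟩
  simp [ex] at h

/-- **The 3421 side.** -/
theorem side3421 (n : ℕ) :
    Set.ncard {π : Equiv.Perm (Fin (2 * n)) |
        (∀ i : Fin (2 * n),
          (Even ((π i).val + 1) → ∃ j : Fin (2 * n), j.val = i.val + 1 ∧ π j < π i) ∧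
          (Odd ((π i).val + 1) →
            (i.val + 1 = 2 * n ∨ ∃ j : Fin (2 * n), j.val = i.val + 1 ∧ π i < π j))) ∧
        ¬ ∃ f : Fin 4 → Fin (2 * n), StrictMono f ∧
            ∀ a b : Fin 4, (π (f a) < π (f b) ↔
              (![2, 3, 1, 0] : Fin 4 → ℕ) a < (![2, 3, 1, 0] : Fin 4 → ℕ) b)} =
      q (2 * n) 0 0 := by
  rw [ncard_eq (![2, 3, 1, 0] : Fin 4 → ℕ) (2 * n)]
  exact eval (2 * n) (even_two_mul n) (2 * n) 0 [] [] (by omega) inv_init

end Pool.Agent.H502R3.DG
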