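import Mathlib

namespace Pool.Agent.H502R3.PQ

/-- A P-groupoid: a binary operation satisfying (i), (ii), (iii). -/
structure IsPGroupoid {V : Type*} (op : V → V → V) : Prop where
  idem : ∀ a, op a a = a
  ne : ∀ a b, a ≠ b → op a b ≠ a ∧ op a b ≠ b
  flip : ∀ a b c, op a b = c ↔ op c b = a

/-- A P-quasigroup: a P-groupoid that is also a quasigroup. -/
structure IsPQuasigroup {V : Type*} (op : V → V → V) : Prop extends IsPGroupoid op where
  left : ∀ a b, ∃! x, op a x = b
  right : ∀ a b, ∃! y, op y a = b

/-- The partition of the edges of the complete graph given by `op` is a single closed walk: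
there is a cyclic sequence `v` of length `m = n (n - 1) / 2`, where `n` is the number of elements,
with `v i * v (i + 1) = v (i + 2)` such that each edge is `{v i, v (i + 1)}` for exactly one `i`. -/
def IsEulerian {V : Type*} [Fintype V] (op : V → V → V) : Prop :=
  ∃ v : ZMod (Fintype.card V * (Fintype.card V - 1) / 2) → V,
    (∀ i, op (v i) (v (i + 1)) = v (i + 2)) ∧
    ∀ a b, a ≠ b → ∃! i, s(v i, v (i + 1)) = s(a, b)

/-- There is an Eulerian P-quasigroup with `n` elements. -/
def EulerianOrder (n : ℕ) : Prop :=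
  ∃ (V : Type) (_ : Fintype V) (op : V → V → V),
    Fintype.card V = n ∧ IsPQuasigroup op ∧ IsEulerian op

theorem isEulerian_of {V : Type*} [Fintype V] (op : V → V → V) (m : ℕ)
    (hm : Fintype.card V * (Fintype.card V - 1) / 2 = m) (v : ZMod m → V)
    (h1 : ∀ i, op (v i) (v (i + 1)) = v (i + 2))
    (h2 : ∀ a b, a ≠ b → ∃! i, s(v i, v (i + 1)) = s(a, b)) : IsEulerian op := by
  subst hm
  exact ⟨v, h1, h2⟩

theorem exists_small {h : ℕ} (x : ZMod (2 * h + 1)) (hx : x ≠ 0) :
    ∃ c : ℕ, 1 ≤ c ∧ c ≤ h ∧ (x = ((c : ℤ) : ZMod (2 * h + 1)) ∨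
      x = ((-(c : ℤ) : ℤ) : ZMod (2 * h + 1))) := by
  have h1 : x.val < 2 * h + 1 := ZMod.val_lt x
  have h2 : x.val ≠ 0 := by
    rw [Ne, ZMod.val_eq_zero]; exact hx
  by_cases h3 : x.val ≤ h
  · refine ⟨x.val, by omega, h3, Or.inl ?_⟩
    simp
  · refine ⟨2 * h + 1 - x.val, by omega, by omega, Or.inr ?_⟩
    rw [Nat.cast_sub (by omega)]
    have : (((2 * h + 1 : ℕ) : ℤ) : ZMod (2 * h + 1)) = 0 := by
      rw [Int.cast_natCast]; exact ZMod.natCast_self _
    rw [Int.cast_neg, Int.cast_sub, this]
    simp

theorem exists_odd {h : ℕ} (x : ZMod (2 * h + 1)) (hx : x ≠ 0) :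
    ∃ k : ℕ, k < h ∧ (x = ((2 * (k : ℤ) + 1 : ℤ) : ZMod (2 * h + 1)) ∨
      x = ((-(2 * (k : ℤ) + 1) : ℤ) : ZMod (2 * h + 1))) := by
  have h1 : x.val < 2 * h + 1 := ZMod.val_lt x
  have h2 : x.val ≠ 0 := by
    rw [Ne, ZMod.val_eq_zero]; exact hx
  have hself : (((2 * h + 1 : ℕ) : ℤ) : ZMod (2 * h + 1)) = 0 := by
    rw [Int.cast_natCast]; exact ZMod.natCast_self _
  rcases Nat.even_or_odd' x.val with ⟨c, hc | hc⟩
  · refine ⟨h - c, by omega, Or.inr ?_⟩
    have h4 : (-(2 * ((h - c : ℕ) : ℤ) + 1) : ℤ) = (x.val : ℤ) - ((2 * h + 1 : ℕ) : ℤ) := by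
      omega
    rw [h4, Int.cast_sub, hself]
    simp
  · refine ⟨c, by omega, Or.inl ?_⟩
    have h4 : (2 * (c : ℤ) + 1 : ℤ) = (x.val : ℤ) := by omega
    rw [h4]
    simp

section
variable {h : ℕ} (D : ZMod h → ZMod (2 * h + 1))

/-- signed entries -/
def phi : Option (ZMod h × Bool) → ZMod (2 * h + 1)
  | none => 0
  | some (i, true) => D i
  | some (i, false) => - D i

/-- signed neighbour sums -/
def psi : Option (ZMod h × Bool) → ZMod (2 * h + 1)
  | none => 0
  | some (i, true) => D i + D (i + 1)
  | some (i, false) => - (D i + D (i + 1))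

/-- the step -/
def tau : Option (ZMod h × Bool) → Option (ZMod h × Bool)
  | none => none
  | some (i, true) => some (i + 1, true)
  | some (i, false) => some (i - 1, false)

/-- inverse step -/
def tau' : Option (ZMod h × Bool) → Option (ZMod h × Bool)
  | none => none
  | some (i, true) => some (i - 1, true)
  | some (i, false) => some (i + 1, false)

/-- shift on the negative part -/
def rho : Option (ZMod h × Bool) → Option (ZMod h × Bool)
  | none => none
  | some (i, true) => some (i, true)
  | some (i, false) => some (i - 1, false)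

/-- inverse of `rho` -/
def rho' : Option (ZMod h × Bool) → Option (ZMod h × Bool)
  | none => none
  | some (i, true) => some (i, true)
  | some (i, false) => some (i + 1, false)

/-- negation -/
def nu : Option (ZMod h × Bool) → Option (ZMod h × Bool)
  | none => none
  | some (i, b) => some (i, !b)

theorem tau_tau' (p : Option (ZMod h × Bool)) : tau (tau' p) = p := by
  rcases p with _ | ⟨i, _ | _⟩ <;> simp [tau, tau']

theorem tau'_tau (p : Option (ZMod h × Bool)) : tau' (tau p) = p := by
  rcases p with _ | ⟨i, _ | _⟩ <;> simp [tau, tau']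

theorem rho_rho' (p : Option (ZMod h × Bool)) : rho (rho' p) = p := by
  rcases p with _ | ⟨i, _ | _⟩ <;> simp [rho, rho']

theorem rho'_rho (p : Option (ZMod h × Bool)) : rho' (rho p) = p := by
  rcases p with _ | ⟨i, _ | _⟩ <;> simp [rho, rho']

theorem phi_nu (p : Option (ZMod h × Bool)) : phi D (nu p) = - phi D p := by
  rcases p with _ | ⟨i, _ | _⟩ <;> simp [phi, nu]

theorem tau_nu_tau (p : Option (ZMod h × Bool)) : tau (nu (tau p)) = nu p := by
  rcases p with _ | ⟨i, _ | _⟩ <;> simp [tau, nu]

theorem phi_tau (p : Option (ZMod h × Bool)) : phi D p + phi D (tau p) = psi D (rho p) := by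
  rcases p with _ | ⟨i, _ | _⟩ <;> simp [phi, tau, psi, rho]

/-- The cyclic construction. -/
theorem construct [NeZero h] (hphi : Function.Bijective (phi D))
    (hpsi : Function.Bijective (psi D)) (hS : IsUnit (∑ i ∈ Finset.range h, D (i : ZMod h))) :
    EulerianOrder (2 * h + 1) := by
  have hh : 0 < h := Nat.pos_of_ne_zero (NeZero.ne h)
  set φ : Option (ZMod h × Bool) ≃ ZMod (2 * h + 1) := Equiv.ofBijective (phi D) hphi with hφ
  have hφa : ∀ p, φ p = phi D p := fun p => rfl
  set σ : ZMod (2 * h + 1) → ZMod (2 * h + 1) := fun x => phi D (tau (φ.symm x)) with hσ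
  have hσφ : ∀ p, σ (phi D p) = phi D (tau p) := by
    intro p
    simp only [hσ]
    rw [← hφa p, Equiv.symm_apply_apply]
  have hsurj : ∀ x, ∃ p, phi D p = x := hphi.2
  have hσ0 : σ 0 = 0 := by
    have := hσφ none
    simpa [phi, tau] using this
  have hσbij : Function.Bijective σ := by
    constructor
    · intro x y hxy
      obtain ⟨p, rfl⟩ := hsurj x
      obtain ⟨q, rfl⟩ := hsurj y
      rw [hσφ, hσφ] at hxy
      have h1 := hphi.1 hxy
      have h2 : tau' (tau p) = tau' (tau q) := by rw [h1]
      rw [tau'_tau, tau'_tau] at h2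
      rw [h2]
    · intro y
      obtain ⟨q, rfl⟩ := hsurj y
      exact ⟨phi D (tau' q), by rw [hσφ, tau_tau']⟩
  have hsumbij : Function.Bijective (fun x => x + σ x) := by
    constructor
    · intro x y hxy
      obtain ⟨p, rfl⟩ := hsurj x
      obtain ⟨q, rfl⟩ := hsurj y
      simp only [hσφ, phi_tau] at hxy
      have h1 := hpsi.1 hxy
      have h2 : rho' (rho p) = rho' (rho q) := by rw [h1]
      rw [rho'_rho, rho'_rho] at h2
      rw [h2]
    · intro y
      obtain ⟨q, rfl⟩ := hpsi.2 y
      exact ⟨phi D (rho' q), by simp only [hσφ, phi_tau, rho_rho']⟩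
  have hσσ : ∀ x, σ (- σ x) = - x := by
    intro x
    obtain ⟨p, rfl⟩ := hsurj x
    rw [hσφ, ← phi_nu, hσφ, tau_nu_tau, phi_nu]
  -- the walk
  set v : ℕ → ZMod (2 * h + 1) := fun i => ∑ j ∈ Finset.range i, D (j : ZMod h) with hv
  set S := ∑ i ∈ Finset.range h, D (i : ZMod h) with hSdef
  have hv1 : ∀ i, v (i + 1) = v i + D (i : ZMod h) := by
    intro i; simp only [hv]; rw [Finset.sum_range_succ]
  have hvh : ∀ i, v (i + h) = v i + S := by
    intro i
    induction i with
    | zero => simp [hv, hSdef]
    | succ i ih =>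
      have : i + 1 + h = (i + h) + 1 := by ring
      rw [this, hv1, ih, hv1]
      have : ((i + h : ℕ) : ZMod h) = (i : ZMod h) := by simp
      rw [this]; ring
  have hvhk : ∀ i k : ℕ, v (i + h * k) = v i + k * S := by
    intro i k
    induction k with
    | zero => simp
    | succ k ih =>
      have : i + h * (k + 1) = (i + h * k) + h := by ring
      rw [this, hvh, ih]; push_cast; ring
  have hvm : ∀ i k : ℕ, v (i + ((2 * h + 1) * h) * k) = v i := by
    intro i k
    have : i + ((2 * h + 1) * h) * k = i + h * ((2 * h + 1) * k) := by ring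
    rw [this, hvhk]
    have h0 : (((2 * h + 1) * k : ℕ) : ZMod (2 * h + 1)) = 0 := by
      rw [Nat.cast_mul, ZMod.natCast_self, zero_mul]
    rw [h0]; ring
  have hvmod : ∀ i : ℕ, v (i % ((2 * h + 1) * h)) = v i := by
    intro i
    conv_rhs => rw [← Nat.mod_add_div i ((2 * h + 1) * h)]
    rw [hvm]
  have hvD : ∀ i j : ℕ, (i : ZMod h) = (j : ZMod h) → D (i : ZMod h) = D (j : ZMod h) := by
    intro i j hij; rw [hij]
  have hstep : ∀ i : ℕ, σ (D (i : ZMod h)) = D ((i + 1 : ℕ) : ZMod h) := by
    intro i
    have := hσφ (some ((i : ZMod h), true))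
    simpa [phi, tau] using this
  have hm0 : (2 * h + 1) * h ≠ 0 := by positivity
  have : NeZero ((2 * h + 1) * h) := ⟨hm0⟩
  set w : ZMod ((2 * h + 1) * h) → ZMod (2 * h + 1) := fun i => v i.val with hw
  have hwnat : ∀ i : ℕ, w (i : ZMod ((2 * h + 1) * h)) = v i := by
    intro i
    simp only [hw]
    rw [ZMod.val_natCast, hvmod]
  have hDne : ∀ i, D i ≠ 0 := by
    intro i hi
    have : phi D (some (i, true)) = phi D none := by simpa [phi] using hi
    have := hphi.1 this
    simp at this
  refine ⟨ZMod (2 * h + 1), inferInstance, fun a b => b + σ (b - a), ZMod.card _, ?_, ?_⟩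
  · refine ⟨⟨?_, ?_, ?_⟩, ?_, ?_⟩
    · intro a; simp [hσ0]
    · intro a b hab
      constructor
      · intro h1
        have h2 : (b - a) + σ (b - a) = 0 + σ 0 := by
          rw [hσ0]; linear_combination h1
        have h3 := hsumbij.1 h2
        exact hab (sub_eq_zero.mp h3).symm
      · intro h1
        have h2 : σ (b - a) = σ 0 := by
          rw [hσ0]; linear_combination h1
        have h3 := hσbij.1 h2
        exact hab (sub_eq_zero.mp h3).symm
    · have key : ∀ a b c, b + σ (b - a) = c → b + σ (b - c) = a := by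
        intro a b c h1
        have h2 : b - c = - σ (b - a) := by rw [← h1]; ring
        rw [h2, hσσ]; ring
      intro a b c
      exact ⟨key a b c, key c b a⟩
    · intro a b
      obtain ⟨x, hx⟩ := hsumbij.2 (b - a)
      refine ⟨a + x, ?_, ?_⟩
      · have : a + x - a = x := by ring
        simp only [this]
        simp only at hx
        linear_combination hx
      · intro y hy
        have h2 : (fun x => x + σ x) (y - a) = (fun x => x + σ x) x := by
          simp only at hx ⊢
          linear_combination hy - hx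
        have h3 := hsumbij.1 h2
        linear_combination h3
    · intro a b
      obtain ⟨x, hx⟩ := hσbij.2 (b - a)
      refine ⟨a - x, ?_, ?_⟩
      · have : a - (a - x) = x := by ring
        simp only [this, hx]
        ring
      · intro y hy
        have h2 : σ (a - y) = σ x := by
          linear_combination hy - hx
        have h3 := hσbij.1 h2
        linear_combination - h3
  · have hcard : Fintype.card (ZMod (2 * h + 1)) * (Fintype.card (ZMod (2 * h + 1)) - 1) / 2
        = (2 * h + 1) * h := by
      rw [ZMod.card]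
      have : (2 * h + 1) * (2 * h + 1 - 1) = 2 * ((2 * h + 1) * h) := by
        have : 2 * h + 1 - 1 = 2 * h := by omega
        rw [this]; ring
      rw [this]; omega
    refine isEulerian_of _ _ hcard w ?_ ?_
    · intro i
      obtain ⟨j, rfl⟩ : ∃ j : ℕ, (j : ZMod ((2 * h + 1) * h)) = i := ⟨i.val, by simp⟩
      have e1 : ((j : ZMod ((2 * h + 1) * h)) + 1) = ((j + 1 : ℕ) : ZMod ((2 * h + 1) * h)) := by
        push_cast; ring
      have e2 : ((j : ZMod ((2 * h + 1) * h)) + 2) = ((j + 1 + 1 : ℕ) : ZMod ((2 * h + 1) * h)) := by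
        push_cast; ring
      rw [e1, e2, hwnat, hwnat, hwnat, hv1 (j + 1), hv1 j]
      have e3 : v j + D (j : ZMod h) - v j = D (j : ZMod h) := by ring
      rw [e3, hstep]
    · -- existence and uniqueness of edges
      have hne : ∀ i, ¬ (s(w i, w (i + 1))).IsDiag := by
        intro i
        obtain ⟨j, rfl⟩ : ∃ j : ℕ, (j : ZMod ((2 * h + 1) * h)) = i := ⟨i.val, by simp⟩
        have e1 : ((j : ZMod ((2 * h + 1) * h)) + 1) = ((j + 1 : ℕ) : ZMod ((2 * h + 1) * h)) := by
          push_cast; ring
        rw [e1, hwnat, hwnat, hv1, Sym2.mk_isDiag_iff]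
        intro h1
        exact hDne (j : ZMod h) (by linear_combination - h1)
      let f : ZMod ((2 * h + 1) * h) → {e : Sym2 (ZMod (2 * h + 1)) // ¬ e.IsDiag} :=
        fun i => ⟨s(w i, w (i + 1)), hne i⟩
      have hex : ∀ a (j : ZMod h), ∃ i : ZMod ((2 * h + 1) * h), w i = a ∧ w (i + 1) = a + D j := by
        intro a j
        obtain ⟨u, hu⟩ := hS
        set l : ZMod (2 * h + 1) := (a - v j.val) * (↑(u⁻¹) : ZMod (2 * h + 1)) with hl
        refine ⟨((j.val + h * l.val : ℕ) : ZMod ((2 * h + 1) * h)), ?_, ?_⟩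
        · rw [hwnat, hvhk, ZMod.natCast_zmod_val, hl, ← hu]
          rw [mul_assoc, Units.inv_mul]; ring
        · have e1 : (((j.val + h * l.val : ℕ) : ZMod ((2 * h + 1) * h)) + 1)
              = ((j.val + h * l.val + 1 : ℕ) : ZMod ((2 * h + 1) * h)) := by
            push_cast; ring
          rw [e1, hwnat, hv1, hvhk, ZMod.natCast_zmod_val, hl, ← hu]
          rw [mul_assoc, Units.inv_mul]
          have e2 : ((j.val + h * l.val : ℕ) : ZMod h) = j := by
            push_cast; simp
          rw [e2]; ring
      have hfs : Function.Surjective f := by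
        rintro ⟨e, he⟩
        induction e using Sym2.ind with
        | _ a b =>
          rw [Sym2.mk_isDiag_iff] at he
          obtain ⟨p, hp⟩ := hsurj (b - a)
          rcases p with _ | ⟨j, _ | _⟩
          · exfalso
            apply he
            simp only [phi] at hp
            exact (sub_eq_zero.mp hp.symm).symm
          · obtain ⟨i, h1, h2⟩ := hex b j
            refine ⟨i, ?_⟩
            apply Subtype.ext
            simp only [f]
            rw [h1, h2, Sym2.eq_swap]
            have : b + D j = a := by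
              simp only [phi] at hp
              linear_combination - hp
            rw [this]
          · obtain ⟨i, h1, h2⟩ := hex a j
            refine ⟨i, ?_⟩
            apply Subtype.ext
            simp only [f]
            rw [h1, h2]
            have : a + D j = b := by
              simp only [phi] at hp
              linear_combination hp
            rw [this]
      have hfb : Function.Bijective f := by
        rw [Fintype.bijective_iff_surjective_and_card]
        refine ⟨hfs, ?_⟩
        rw [Sym2.card_subtype_not_diag, ZMod.card, ZMod.card, Nat.choose_two_right]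
        rw [ZMod.card] at hcard
        exact hcard.symm
      intro a b hab
      have hab' : ¬ (s(a, b)).IsDiag := by
        rw [Sym2.mk_isDiag_iff]; exact hab
      obtain ⟨i, hi⟩ := hfb.2 ⟨s(a, b), hab'⟩
      refine ⟨i, congrArg Subtype.val hi, ?_⟩
      intro i' hi'
      apply hfb.1
      rw [hi]
      exact Subtype.ext hi'

end

/-- The cyclic construction from an integer sequence. -/
theorem construct_int (h : ℕ) (hh : 1 ≤ h) (d : ℕ → ℤ) (hwrap : d h = d 0)
    (hA : ∀ c : ℕ, 1 ≤ c → c ≤ h → ∃ i, i < h ∧ (d i = c ∨ d i = -c))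
    (hB : ∀ k : ℕ, k < h → ∃ i, i < h ∧ ∃ e : ℤ,
      (d i + d (i + 1) = (2 * k + 1) + (2 * h + 1) * e ∨
       d i + d (i + 1) = -(2 * k + 1) + (2 * h + 1) * e))
    (hC : IsCoprime (∑ i ∈ Finset.range h, d i) (2 * (h : ℤ) + 1)) :
    EulerianOrder (2 * h + 1) := by
  have : NeZero h := ⟨by omega⟩
  set D : ZMod h → ZMod (2 * h + 1) := fun i => ((d i.val : ℤ) : ZMod (2 * h + 1)) with hD
  have hself : ((2 * (h : ℤ) + 1 : ℤ) : ZMod (2 * h + 1)) = 0 := by
    have : (((2 * h + 1 : ℕ) : ℤ) : ZMod (2 * h + 1)) = 0 := by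
      rw [Int.cast_natCast]; exact ZMod.natCast_self _
    simpa using this
  have hDnat : ∀ i : ℕ, i < h → D (i : ZMod h) = ((d i : ℤ) : ZMod (2 * h + 1)) := by
    intro i hi
    simp only [hD]
    rw [ZMod.val_natCast, Nat.mod_eq_of_lt hi]
  have hDnat1 : ∀ i : ℕ, i < h → D ((i : ZMod h) + 1) = ((d (i + 1) : ℤ) : ZMod (2 * h + 1)) := by
    intro i hi
    have e1 : ((i : ZMod h) + 1) = ((i + 1 : ℕ) : ZMod h) := by push_cast; ring
    rw [e1]
    rcases Nat.lt_or_ge (i + 1) h with h1 | h1
    · exact hDnat _ h1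
    · have h2 : i + 1 = h := by omega
      simp only [hD]
      rw [ZMod.val_natCast, h2, Nat.mod_self, hwrap]
  have hcard : Fintype.card (Option (ZMod h × Bool)) = Fintype.card (ZMod (2 * h + 1)) := by
    rw [Fintype.card_option, Fintype.card_prod, ZMod.card, ZMod.card, Fintype.card_bool]
    ring
  refine construct D ?_ ?_ ?_
  · rw [Fintype.bijective_iff_surjective_and_card]
    refine ⟨?_, hcard⟩
    intro x
    by_cases hx : x = 0
    · exact ⟨none, by simp [phi, hx]⟩
    · obtain ⟨c, hc1, hc2, hc⟩ := exists_small x hx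
      obtain ⟨i, hi, hi'⟩ := hA c hc1 hc2
      rcases hc with hc | hc <;> rcases hi' with hi' | hi'
      · exact ⟨some ((i : ZMod h), true), by simp only [phi]; rw [hDnat i hi, hi', hc]⟩
      · exact ⟨some ((i : ZMod h), false), by
          simp only [phi]; rw [hDnat i hi, hi', hc]; push_cast; ring⟩
      · exact ⟨some ((i : ZMod h), false), by
          simp only [phi]; rw [hDnat i hi, hi', hc]; push_cast; ring⟩
      · exact ⟨some ((i : ZMod h), true), by simp only [phi]; rw [hDnat i hi, hi', hc]⟩
  · rw [Fintype.bijective_iff_surjective_and_card]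
    refine ⟨?_, hcard⟩
    intro x
    by_cases hx : x = 0
    · exact ⟨none, by simp [psi, hx]⟩
    · obtain ⟨k, hk1, hk⟩ := exists_odd x hx
      obtain ⟨i, hi, e, hi'⟩ := hB k hk1
      have hsum : D (i : ZMod h) + D ((i : ZMod h) + 1) = ((d i + d (i + 1) : ℤ) : ZMod (2 * h + 1)) := by
        rw [hDnat i hi, hDnat1 i hi]; push_cast; ring
      rcases hk with hk | hk <;> rcases hi' with hi' | hi'
      · exact ⟨some ((i : ZMod h), true), by
          simp only [psi]; rw [hsum, hi', hk, Int.cast_add, Int.cast_mul, hself]; ring⟩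
      · exact ⟨some ((i : ZMod h), false), by
          simp only [psi]; rw [hsum, hi', hk, Int.cast_add, Int.cast_mul, hself]; push_cast; ring⟩
      · exact ⟨some ((i : ZMod h), false), by
          simp only [psi]; rw [hsum, hi', hk, Int.cast_add, Int.cast_mul, hself]; push_cast; ring⟩
      · exact ⟨some ((i : ZMod h), true), by
          simp only [psi]; rw [hsum, hi', hk, Int.cast_add, Int.cast_mul, hself]; ring⟩
  · have h1 : ∑ i ∈ Finset.range h, D (i : ZMod h)
        = ((∑ i ∈ Finset.range h, d i : ℤ) : ZMod (2 * h + 1)) := by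
      rw [Int.cast_sum]
      apply Finset.sum_congr rfl
      intro i hi
      exact hDnat i (Finset.mem_range.mp hi)
    rw [h1]
    obtain ⟨a, b, hab⟩ := hC
    have h2 := congrArg (fun z : ℤ => (z : ZMod (2 * h + 1))) hab
    simp only [Int.cast_add, Int.cast_mul, Int.cast_one] at h2
    have h3 : ((2 : ℤ) : ZMod (2 * h + 1)) * ((h : ℤ) : ZMod (2 * h + 1)) + 1 = 0 := by
      rw [← hself]; push_cast; ring
    have h4 : ((∑ i ∈ Finset.range h, d i : ℤ) : ZMod (2 * h + 1)) * (a : ZMod (2 * h + 1)) = 1 := by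
      linear_combination h2 - (b : ZMod (2 * h + 1)) * h3
    exact IsUnit.of_mul_eq_one _ h4

end Pool.Agent.H502R3.PQ
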