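import Pool.Agent.H502R3.PQ1

namespace Pool.Agent.H502R3.PQ

theorem sum_seg (f : ℕ → ℤ) (p q : ℕ) (a s : ℤ) (hf : ∀ i, i < q → f (p + i) = a + s * i) :
    2 * ∑ i ∈ Finset.range (p + q), f i
      = 2 * ∑ i ∈ Finset.range p, f i + q * (2 * a + s * (q - 1)) := by
  induction q with
  | zero => simp
  | succ q ih =>
    have h1 := ih (fun i hi => hf i (by omega))
    rw [← Nat.add_assoc, Finset.sum_range_succ, mul_add, h1, hf q (by omega)]
    push_cast
    ring

/-- The sequence for `n = 8 * u + 17`. -/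
def dA (u i : ℕ) : ℤ :=
  if i < u + 1 then (i : ℤ) + ((0) * (u : ℤ) + (1)) else
  if i < 2 * u + 4 then (i : ℤ) + ((2) * (u : ℤ) + (5)) else
  if i < 3 * u + 5 then ((4) * (u : ℤ) + (7)) - (i : ℤ) else
  if i < 3 * u + 6 then -((i : ℤ) + ((-2) * (u : ℤ) + (-3))) else
  if i < 4 * u + 8 then ((6) * (u : ℤ) + (11)) - (i : ℤ) else
  1

theorem famA (u : ℕ) : EulerianOrder (2 * (4 * u + 8) + 1) := by
  refine construct_int (4 * u + 8) (by omega) (dA u) ?_ ?_ ?_ ?_
  · simp only [dA]; split_ifs <;> omega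
  · intro c hc1 hc2
    rcases Nat.lt_or_ge (u + 1) c with h0 | h0
    swap
    · refine ⟨0 + (c - (1)), by omega, Or.inl ?_⟩
      simp only [dA]; split_ifs <;> omega
    rcases Nat.lt_or_ge (u + 2) c with h1 | h1
    swap
    · refine ⟨3 * u + 5 + (c - (u + 2)), by omega, Or.inr ?_⟩
      simp only [dA]; split_ifs <;> omega
    rcases Nat.lt_or_ge (2 * u + 3) c with h2 | h2
    swap
    · refine ⟨2 * u + 4 + (2 * u + 3 - c), by omega, Or.inl ?_⟩
      simp only [dA]; split_ifs <;> omega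
    rcases Nat.lt_or_ge (3 * u + 5) c with h3 | h3
    swap
    · refine ⟨3 * u + 6 + (3 * u + 5 - c), by omega, Or.inl ?_⟩
      simp only [dA]; split_ifs <;> omega
    refine ⟨u + 1 + (c - (3 * u + 6)), by omega, Or.inl ?_⟩
    simp only [dA]; split_ifs <;> omega
  · intro k hk
    rcases Nat.lt_trichotomy k (0) with g0 | g0 | g0
    · omega
    · refine ⟨3 * u + 4, by omega, 0, Or.inl ?_⟩
      simp only [dA]; split_ifs <;> omega
    rcases Nat.lt_trichotomy k (u + 1) with g1 | g1 | g1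
    · refine ⟨0 + (k - (1)), by omega, 0, Or.inl ?_⟩
      simp only [dA]; split_ifs <;> omega
    · refine ⟨3 * u + 5, by omega, 0, Or.inl ?_⟩
      simp only [dA]; split_ifs <;> omega
    rcases Nat.lt_trichotomy k (u + 2) with g2 | g2 | g2
    · omega
    · refine ⟨4 * u + 7, by omega, 0, Or.inl ?_⟩
      simp only [dA]; split_ifs <;> omega
    rcases Nat.lt_trichotomy k (2 * u + 3) with g3 | g3 | g3
    · refine ⟨2 * u + 4 + (2 * u + 3 - (k + 1)), by omega, 0, Or.inl ?_⟩
      simp only [dA]; split_ifs <;> omega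
    · refine ⟨u, by omega, 0, Or.inl ?_⟩
      simp only [dA]; split_ifs <;> omega
    rcases Nat.lt_trichotomy k (3 * u + 5) with g4 | g4 | g4
    · refine ⟨3 * u + 6 + (3 * u + 5 - (k + 1)), by omega, 0, Or.inl ?_⟩
      simp only [dA]; split_ifs <;> omega
    · refine ⟨2 * u + 3, by omega, 0, Or.inl ?_⟩
      simp only [dA]; split_ifs <;> omega
    refine ⟨u + 1 + (k - (3 * u + 6)), by omega, 0, Or.inl ?_⟩
    simp only [dA]; split_ifs <;> omega
  · have e0 : ∀ f : ℕ → ℤ, 2 * ∑ i ∈ Finset.range 0, f i = 0 := fun f => by simp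
    have e1 := sum_seg (dA u) (0) (u + 1) ((1) * ((0) * (u : ℤ) + (1))) (1) (by
      intro i hi; simp only [dA]; split_ifs <;> omega)
    have e2 := sum_seg (dA u) (0 + (u + 1)) (u + 3) ((1) * ((3) * (u : ℤ) + (6))) (1) (by
      intro i hi; simp only [dA]; split_ifs <;> omega)
    have e3 := sum_seg (dA u) (0 + (u + 1) + (u + 3)) (u + 1) ((1) * ((2) * (u : ℤ) + (3))) (-1) (by
      intro i hi; simp only [dA]; split_ifs <;> omega)
    have e4 := sum_seg (dA u) (0 + (u + 1) + (u + 3) + (u + 1)) (1) ((-1) * ((1) * (u : ℤ) + (2))) (-1) (by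
      intro i hi; simp only [dA]; split_ifs <;> omega)
    have e5 := sum_seg (dA u) (0 + (u + 1) + (u + 3) + (u + 1) + (1)) (u + 2) ((1) * ((3) * (u : ℤ) + (5))) (-1) (by
      intro i hi; simp only [dA]; split_ifs <;> omega)
    have hP : 4 * u + 8 = 0 + (u + 1) + (u + 3) + (u + 1) + (1) + (u + 2) := by omega
    have hS : 2 * ∑ i ∈ Finset.range (0 + (u + 1) + (u + 3) + (u + 1) + (1) + (u + 2)), dA u i
        = (16) * (u : ℤ) ^ 2 + (64) * (u : ℤ) + (64) := by
      rw [e5, e4, e3, e2, e1, e0]; push_cast; ring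
    rw [← hP] at hS
    refine ⟨(8), (-1) * ((8) * (u : ℤ) + (15)), ?_⟩
    push_cast
    linear_combination (4) * hS

/-- The sequence for `n = 8 * u + 19`. -/
def dB (u i : ℕ) : ℤ :=
  if i < u + 1 then (i : ℤ) + ((0) * (u : ℤ) + (1)) else
  if i < u + 2 then -((i : ℤ) + ((0) * (u : ℤ) + (1))) else
  if i < 2 * u + 5 then -(((4) * (u : ℤ) + (9)) - (i : ℤ)) else
  if i < 3 * u + 7 then ((6) * (u : ℤ) + (14)) - (i : ℤ) else
  if i < 4 * u + 9 then -((i : ℤ) + ((-2) * (u : ℤ) + (-4))) else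
  1

theorem famB (u : ℕ) : EulerianOrder (2 * (4 * u + 9) + 1) := by
  refine construct_int (4 * u + 9) (by omega) (dB u) ?_ ?_ ?_ ?_
  · simp only [dB]; split_ifs <;> omega
  · intro c hc1 hc2
    rcases Nat.lt_or_ge (u + 1) c with h0 | h0
    swap
    · refine ⟨0 + (c - (1)), by omega, Or.inl ?_⟩
      simp only [dB]; split_ifs <;> omega
    rcases Nat.lt_or_ge (u + 2) c with h1 | h1
    swap
    · refine ⟨u + 1 + (c - (u + 2)), by omega, Or.inr ?_⟩
      simp only [dB]; split_ifs <;> omega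
    rcases Nat.lt_or_ge (2 * u + 4) c with h2 | h2
    swap
    · refine ⟨3 * u + 7 + (c - (u + 3)), by omega, Or.inr ?_⟩
      simp only [dB]; split_ifs <;> omega
    rcases Nat.lt_or_ge (3 * u + 7) c with h3 | h3
    swap
    · refine ⟨u + 2 + (3 * u + 7 - c), by omega, Or.inr ?_⟩
      simp only [dB]; split_ifs <;> omega
    refine ⟨2 * u + 5 + (4 * u + 9 - c), by omega, Or.inl ?_⟩
    simp only [dB]; split_ifs <;> omega
  · intro k hk
    rcases Nat.lt_trichotomy k (0) with g0 | g0 | g0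
    · omega
    · refine ⟨u, by omega, 0, Or.inr ?_⟩
      simp only [dB]; split_ifs <;> omega
    rcases Nat.lt_trichotomy k (u + 1) with g1 | g1 | g1
    · refine ⟨0 + (k - (1)), by omega, 0, Or.inl ?_⟩
      simp only [dB]; split_ifs <;> omega
    · refine ⟨4 * u + 8, by omega, 0, Or.inr ?_⟩
      simp only [dB]; split_ifs <;> omega
    rcases Nat.lt_trichotomy k (u + 2) with g2 | g2 | g2
    · omega
    · refine ⟨3 * u + 6, by omega, 0, Or.inl ?_⟩
      simp only [dB]; split_ifs <;> omega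
    rcases Nat.lt_trichotomy k (2 * u + 4) with g3 | g3 | g3
    · refine ⟨3 * u + 7 + (k - (u + 3)), by omega, 0, Or.inr ?_⟩
      simp only [dB]; split_ifs <;> omega
    · refine ⟨u + 1, by omega, 0, Or.inr ?_⟩
      simp only [dB]; split_ifs <;> omega
    rcases Nat.lt_trichotomy k (3 * u + 7) with g4 | g4 | g4
    · refine ⟨u + 2 + (3 * u + 7 - (k + 1)), by omega, 0, Or.inr ?_⟩
      simp only [dB]; split_ifs <;> omega
    · refine ⟨2 * u + 4, by omega, 1, Or.inr ?_⟩
      simp only [dB]; split_ifs <;> omega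
    refine ⟨2 * u + 5 + (4 * u + 9 - (k + 1)), by omega, 0, Or.inl ?_⟩
    simp only [dB]; split_ifs <;> omega
  · have e0 : ∀ f : ℕ → ℤ, 2 * ∑ i ∈ Finset.range 0, f i = 0 := fun f => by simp
    have e1 := sum_seg (dB u) (0) (u + 1) ((1) * ((0) * (u : ℤ) + (1))) (1) (by
      intro i hi; simp only [dB]; split_ifs <;> omega)
    have e2 := sum_seg (dB u) (0 + (u + 1)) (1) ((-1) * ((1) * (u : ℤ) + (2))) (-1) (by
      intro i hi; simp only [dB]; split_ifs <;> omega)
    have e3 := sum_seg (dB u) (0 + (u + 1) + (1)) (u + 3) ((-1) * ((3) * (u : ℤ) + (7))) (1) (by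
      intro i hi; simp only [dB]; split_ifs <;> omega)
    have e4 := sum_seg (dB u) (0 + (u + 1) + (1) + (u + 3)) (u + 2) ((1) * ((4) * (u : ℤ) + (9))) (-1) (by
      intro i hi; simp only [dB]; split_ifs <;> omega)
    have e5 := sum_seg (dB u) (0 + (u + 1) + (1) + (u + 3) + (u + 2)) (u + 2) ((-1) * ((1) * (u : ℤ) + (3))) (-1) (by
      intro i hi; simp only [dB]; split_ifs <;> omega)
    have hP : 4 * u + 9 = 0 + (u + 1) + (1) + (u + 3) + (u + 2) + (u + 2) := by omega
    have hS : 2 * ∑ i ∈ Finset.range (0 + (u + 1) + (1) + (u + 3) + (u + 2) + (u + 2)), dB u i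
        = (0) * (u : ℤ) ^ 2 + (-8) * (u : ℤ) + (-18) := by
      rw [e5, e4, e3, e2, e1, e0]; push_cast; ring
    rw [← hP] at hS
    refine ⟨(2), (-1) * ((0) * (u : ℤ) + (-1)), ?_⟩
    push_cast
    linear_combination (1) * hS

/-- The sequence for `n = 8 * u + 15`. -/
def dC (u i : ℕ) : ℤ :=
  if i < u + 1 then (i : ℤ) + ((0) * (u : ℤ) + (1)) else
  if i < 2 * u + 3 then -(((4) * (u : ℤ) + (7)) - (i : ℤ)) else
  if i < 3 * u + 4 then ((6) * (u : ℤ) + (10)) - (i : ℤ) else
  if i < 3 * u + 5 then (i : ℤ) + ((-2) * (u : ℤ) + (-2)) else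
  if i < 4 * u + 7 then -((i : ℤ) + ((-2) * (u : ℤ) + (-2))) else
  1

theorem famC (u : ℕ) : EulerianOrder (2 * (4 * u + 7) + 1) := by
  refine construct_int (4 * u + 7) (by omega) (dC u) ?_ ?_ ?_ ?_
  · simp only [dC]; split_ifs <;> omega
  · intro c hc1 hc2
    rcases Nat.lt_or_ge (u + 1) c with h0 | h0
    swap
    · refine ⟨0 + (c - (1)), by omega, Or.inl ?_⟩
      simp only [dC]; split_ifs <;> omega
    rcases Nat.lt_or_ge (u + 2) c with h1 | h1
    swap
    · refine ⟨3 * u + 4 + (c - (u + 2)), by omega, Or.inl ?_⟩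
      simp only [dC]; split_ifs <;> omega
    rcases Nat.lt_or_ge (2 * u + 4) c with h2 | h2
    swap
    · refine ⟨3 * u + 5 + (c - (u + 3)), by omega, Or.inr ?_⟩
      simp only [dC]; split_ifs <;> omega
    rcases Nat.lt_or_ge (3 * u + 6) c with h3 | h3
    swap
    · refine ⟨u + 1 + (3 * u + 6 - c), by omega, Or.inr ?_⟩
      simp only [dC]; split_ifs <;> omega
    refine ⟨2 * u + 3 + (4 * u + 7 - c), by omega, Or.inl ?_⟩
    simp only [dC]; split_ifs <;> omega
  · intro k hk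
    rcases Nat.lt_trichotomy k (0) with g0 | g0 | g0
    · omega
    · refine ⟨3 * u + 4, by omega, 0, Or.inr ?_⟩
      simp only [dC]; split_ifs <;> omega
    rcases Nat.lt_trichotomy k (u + 1) with g1 | g1 | g1
    · refine ⟨0 + (k - (1)), by omega, 0, Or.inl ?_⟩
      simp only [dC]; split_ifs <;> omega
    · refine ⟨4 * u + 6, by omega, 0, Or.inr ?_⟩
      simp only [dC]; split_ifs <;> omega
    rcases Nat.lt_trichotomy k (u + 2) with g2 | g2 | g2
    · omega
    · refine ⟨u, by omega, 0, Or.inr ?_⟩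
      simp only [dC]; split_ifs <;> omega
    rcases Nat.lt_trichotomy k (2 * u + 4) with g3 | g3 | g3
    · refine ⟨3 * u + 5 + (k - (u + 3)), by omega, 0, Or.inr ?_⟩
      simp only [dC]; split_ifs <;> omega
    · refine ⟨3 * u + 3, by omega, 0, Or.inl ?_⟩
      simp only [dC]; split_ifs <;> omega
    rcases Nat.lt_trichotomy k (3 * u + 6) with g4 | g4 | g4
    · refine ⟨u + 1 + (3 * u + 6 - (k + 1)), by omega, 0, Or.inr ?_⟩
      simp only [dC]; split_ifs <;> omega
    · refine ⟨2 * u + 2, by omega, 1, Or.inr ?_⟩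
      simp only [dC]; split_ifs <;> omega
    refine ⟨2 * u + 3 + (4 * u + 7 - (k + 1)), by omega, 0, Or.inl ?_⟩
    simp only [dC]; split_ifs <;> omega
  · have e0 : ∀ f : ℕ → ℤ, 2 * ∑ i ∈ Finset.range 0, f i = 0 := fun f => by simp
    have e1 := sum_seg (dC u) (0) (u + 1) ((1) * ((0) * (u : ℤ) + (1))) (1) (by
      intro i hi; simp only [dC]; split_ifs <;> omega)
    have e2 := sum_seg (dC u) (0 + (u + 1)) (u + 2) ((-1) * ((3) * (u : ℤ) + (6))) (1) (by
      intro i hi; simp only [dC]; split_ifs <;> omega)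
    have e3 := sum_seg (dC u) (0 + (u + 1) + (u + 2)) (u + 1) ((1) * ((4) * (u : ℤ) + (7))) (-1) (by
      intro i hi; simp only [dC]; split_ifs <;> omega)
    have e4 := sum_seg (dC u) (0 + (u + 1) + (u + 2) + (u + 1)) (1) ((1) * ((1) * (u : ℤ) + (2))) (1) (by
      intro i hi; simp only [dC]; split_ifs <;> omega)
    have e5 := sum_seg (dC u) (0 + (u + 1) + (u + 2) + (u + 1) + (1)) (u + 2) ((-1) * ((1) * (u : ℤ) + (3))) (-1) (by
      intro i hi; simp only [dC]; split_ifs <;> omega)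
    have hP : 4 * u + 7 = 0 + (u + 1) + (u + 2) + (u + 1) + (1) + (u + 2) := by omega
    have hS : 2 * ∑ i ∈ Finset.range (0 + (u + 1) + (u + 2) + (u + 1) + (1) + (u + 2)), dC u i
        = (0) * (u : ℤ) ^ 2 + (-8) * (u : ℤ) + (-16) := by
      rw [e5, e4, e3, e2, e1, e0]; push_cast; ring
    rw [← hP] at hS
    refine ⟨(-2), (1) * ((0) * (u : ℤ) + (-1)), ?_⟩
    push_cast
    linear_combination (-1) * hS

/-- The sequence for `n = 16 * u + 21`. -/
def dD (u i : ℕ) : ℤ :=
  if i < u + 1 then (i : ℤ) + ((0) * (u : ℤ) + (1)) else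
  if i < 5 * u + 5 then ((6) * (u : ℤ) + (6)) - (i : ℤ) else
  if i < 5 * u + 7 then -((i : ℤ) + ((0) * (u : ℤ) + (1))) else
  if i < 6 * u + 8 then (i : ℤ) + ((0) * (u : ℤ) + (1)) else
  if i < 8 * u + 10 then ((14) * (u : ℤ) + (18)) - (i : ℤ) else
  1

theorem famD (u : ℕ) : EulerianOrder (2 * (8 * u + 10) + 1) := by
  refine construct_int (8 * u + 10) (by omega) (dD u) ?_ ?_ ?_ ?_
  · simp only [dD]; split_ifs <;> omega
  · intro c hc1 hc2
    rcases Nat.lt_or_ge (u + 1) c with h0 | h0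
    swap
    · refine ⟨0 + (c - (1)), by omega, Or.inl ?_⟩
      simp only [dD]; split_ifs <;> omega
    rcases Nat.lt_or_ge (5 * u + 5) c with h1 | h1
    swap
    · refine ⟨u + 1 + (5 * u + 5 - c), by omega, Or.inl ?_⟩
      simp only [dD]; split_ifs <;> omega
    rcases Nat.lt_or_ge (5 * u + 7) c with h2 | h2
    swap
    · refine ⟨5 * u + 5 + (c - (5 * u + 6)), by omega, Or.inr ?_⟩
      simp only [dD]; split_ifs <;> omega
    rcases Nat.lt_or_ge (6 * u + 8) c with h3 | h3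
    swap
    · refine ⟨5 * u + 7 + (c - (5 * u + 8)), by omega, Or.inl ?_⟩
      simp only [dD]; split_ifs <;> omega
    refine ⟨6 * u + 8 + (8 * u + 10 - c), by omega, Or.inl ?_⟩
    simp only [dD]; split_ifs <;> omega
  · intro k hk
    rcases Nat.lt_trichotomy k (0) with g0 | g0 | g0
    · omega
    · refine ⟨5 * u + 6, by omega, 0, Or.inl ?_⟩
      simp only [dD]; split_ifs <;> omega
    rcases Nat.lt_trichotomy k (u + 1) with g1 | g1 | g1
    · refine ⟨0 + (k - (1)), by omega, 0, Or.inl ?_⟩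
      simp only [dD]; split_ifs <;> omega
    · refine ⟨6 * u + 7, by omega, 1, Or.inr ?_⟩
      simp only [dD]; split_ifs <;> omega
    rcases Nat.lt_trichotomy k (5 * u + 5) with g2 | g2 | g2
    · refine ⟨u + 1 + (5 * u + 5 - (k + 1)), by omega, 0, Or.inl ?_⟩
      simp only [dD]; split_ifs <;> omega
    · refine ⟨8 * u + 9, by omega, 1, Or.inr ?_⟩
      simp only [dD]; split_ifs <;> omega
    rcases Nat.lt_trichotomy k (5 * u + 7) with g3 | g3 | g3
    · refine ⟨5 * u + 5 + (k - (5 * u + 6)), by omega, 0, Or.inr ?_⟩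
      simp only [dD]; split_ifs <;> omega
    · refine ⟨u, by omega, 1, Or.inr ?_⟩
      simp only [dD]; split_ifs <;> omega
    rcases Nat.lt_trichotomy k (6 * u + 8) with g4 | g4 | g4
    · refine ⟨5 * u + 7 + (k - (5 * u + 8)), by omega, 0, Or.inl ?_⟩
      simp only [dD]; split_ifs <;> omega
    · refine ⟨5 * u + 4, by omega, -1, Or.inl ?_⟩
      simp only [dD]; split_ifs <;> omega
    refine ⟨6 * u + 8 + (8 * u + 10 - (k + 1)), by omega, 0, Or.inl ?_⟩
    simp only [dD]; split_ifs <;> omega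
  · have e0 : ∀ f : ℕ → ℤ, 2 * ∑ i ∈ Finset.range 0, f i = 0 := fun f => by simp
    have e1 := sum_seg (dD u) (0) (u + 1) ((1) * ((0) * (u : ℤ) + (1))) (1) (by
      intro i hi; simp only [dD]; split_ifs <;> omega)
    have e2 := sum_seg (dD u) (0 + (u + 1)) (4 * u + 4) ((1) * ((5) * (u : ℤ) + (5))) (-1) (by
      intro i hi; simp only [dD]; split_ifs <;> omega)
    have e3 := sum_seg (dD u) (0 + (u + 1) + (4 * u + 4)) (2) ((-1) * ((5) * (u : ℤ) + (6))) (-1) (by
      intro i hi; simp only [dD]; split_ifs <;> omega)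
    have e4 := sum_seg (dD u) (0 + (u + 1) + (4 * u + 4) + (2)) (u + 1) ((1) * ((5) * (u : ℤ) + (8))) (1) (by
      intro i hi; simp only [dD]; split_ifs <;> omega)
    have e5 := sum_seg (dD u) (0 + (u + 1) + (4 * u + 4) + (2) + (u + 1)) (2 * u + 2) ((1) * ((8) * (u : ℤ) + (10))) (-1) (by
      intro i hi; simp only [dD]; split_ifs <;> omega)
    have hP : 8 * u + 10 = 0 + (u + 1) + (4 * u + 4) + (2) + (u + 1) + (2 * u + 2) := by omega
    have hS : 2 * ∑ i ∈ Finset.range (0 + (u + 1) + (4 * u + 4) + (2) + (u + 1) + (2 * u + 2)), dD u i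
        = (64) * (u : ℤ) ^ 2 + (128) * (u : ℤ) + (58) := by
      rw [e5, e4, e3, e2, e1, e0]; push_cast; ring
    rw [← hP] at hS
    refine ⟨(8), (-1) * ((16) * (u : ℤ) + (11)), ?_⟩
    push_cast
    linear_combination (4) * hS

/-- The sequence for `n = 16 * u + 29`. -/
def dE (u i : ℕ) : ℤ :=
  if i < 3 * u + 5 then (i : ℤ) + ((0) * (u : ℤ) + (1)) else
  if i < 4 * u + 7 then -((i : ℤ) + ((4) * (u : ℤ) + (8))) else
  if i < 4 * u + 8 then -((i : ℤ) + ((2) * (u : ℤ) + (4))) else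
  if i < 7 * u + 13 then ((10) * (u : ℤ) + (18)) - (i : ℤ) else
  if i < 8 * u + 14 then -(((14) * (u : ℤ) + (25)) - (i : ℤ)) else
  1

theorem famE (u : ℕ) : EulerianOrder (2 * (8 * u + 14) + 1) := by
  refine construct_int (8 * u + 14) (by omega) (dE u) ?_ ?_ ?_ ?_
  · simp only [dE]; split_ifs <;> omega
  · intro c hc1 hc2
    rcases Nat.lt_or_ge (3 * u + 5) c with h0 | h0
    swap
    · refine ⟨0 + (c - (1)), by omega, Or.inl ?_⟩
      simp only [dE]; split_ifs <;> omega
    rcases Nat.lt_or_ge (6 * u + 10) c with h1 | h1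
    swap
    · refine ⟨4 * u + 8 + (6 * u + 10 - c), by omega, Or.inl ?_⟩
      simp only [dE]; split_ifs <;> omega
    rcases Nat.lt_or_ge (6 * u + 11) c with h2 | h2
    swap
    · refine ⟨4 * u + 7 + (c - (6 * u + 11)), by omega, Or.inr ?_⟩
      simp only [dE]; split_ifs <;> omega
    rcases Nat.lt_or_ge (7 * u + 12) c with h3 | h3
    swap
    · refine ⟨7 * u + 13 + (7 * u + 12 - c), by omega, Or.inr ?_⟩
      simp only [dE]; split_ifs <;> omega
    refine ⟨3 * u + 5 + (c - (7 * u + 13)), by omega, Or.inr ?_⟩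
    simp only [dE]; split_ifs <;> omega
  · intro k hk
    rcases Nat.lt_trichotomy k (0) with g0 | g0 | g0
    · omega
    · refine ⟨4 * u + 7, by omega, 0, Or.inr ?_⟩
      simp only [dE]; split_ifs <;> omega
    rcases Nat.lt_trichotomy k (3 * u + 5) with g1 | g1 | g1
    · refine ⟨0 + (k - (1)), by omega, 0, Or.inl ?_⟩
      simp only [dE]; split_ifs <;> omega
    · refine ⟨8 * u + 13, by omega, 0, Or.inr ?_⟩
      simp only [dE]; split_ifs <;> omega
    rcases Nat.lt_trichotomy k (6 * u + 10) with g2 | g2 | g2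
    · refine ⟨4 * u + 8 + (6 * u + 10 - (k + 1)), by omega, 0, Or.inl ?_⟩
      simp only [dE]; split_ifs <;> omega
    · refine ⟨3 * u + 4, by omega, -1, Or.inl ?_⟩
      simp only [dE]; split_ifs <;> omega
    rcases Nat.lt_trichotomy k (6 * u + 11) with g3 | g3 | g3
    · omega
    · refine ⟨7 * u + 12, by omega, -1, Or.inl ?_⟩
      simp only [dE]; split_ifs <;> omega
    rcases Nat.lt_trichotomy k (7 * u + 12) with g4 | g4 | g4
    · refine ⟨7 * u + 13 + (7 * u + 12 - (k + 1)), by omega, 0, Or.inr ?_⟩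
      simp only [dE]; split_ifs <;> omega
    · refine ⟨4 * u + 6, by omega, 0, Or.inr ?_⟩
      simp only [dE]; split_ifs <;> omega
    refine ⟨3 * u + 5 + (k - (7 * u + 13)), by omega, 0, Or.inr ?_⟩
    simp only [dE]; split_ifs <;> omega
  · have e0 : ∀ f : ℕ → ℤ, 2 * ∑ i ∈ Finset.range 0, f i = 0 := fun f => by simp
    have e1 := sum_seg (dE u) (0) (3 * u + 5) ((1) * ((0) * (u : ℤ) + (1))) (1) (by
      intro i hi; simp only [dE]; split_ifs <;> omega)
    have e2 := sum_seg (dE u) (0 + (3 * u + 5)) (u + 2) ((-1) * ((7) * (u : ℤ) + (13))) (-1) (by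
      intro i hi; simp only [dE]; split_ifs <;> omega)
    have e3 := sum_seg (dE u) (0 + (3 * u + 5) + (u + 2)) (1) ((-1) * ((6) * (u : ℤ) + (11))) (-1) (by
      intro i hi; simp only [dE]; split_ifs <;> omega)
    have e4 := sum_seg (dE u) (0 + (3 * u + 5) + (u + 2) + (1)) (3 * u + 5) ((1) * ((6) * (u : ℤ) + (10))) (-1) (by
      intro i hi; simp only [dE]; split_ifs <;> omega)
    have e5 := sum_seg (dE u) (0 + (3 * u + 5) + (u + 2) + (1) + (3 * u + 5)) (u + 1) ((-1) * ((7) * (u : ℤ) + (12))) (1) (by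
      intro i hi; simp only [dE]; split_ifs <;> omega)
    have hP : 8 * u + 14 = 0 + (3 * u + 5) + (u + 2) + (1) + (3 * u + 5) + (u + 1) := by omega
    have hS : 2 * ∑ i ∈ Finset.range (0 + (3 * u + 5) + (u + 2) + (1) + (3 * u + 5) + (u + 1)), dE u i
        = (8) * (u : ℤ) ^ 2 + (20) * (u : ℤ) + (10) := by
      rw [e5, e4, e3, e2, e1, e0]; push_cast; ring
    rw [← hP] at hS
    refine ⟨(64), (-1) * ((16) * (u : ℤ) + (11)), ?_⟩
    push_cast
    linear_combination (32) * hS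

end Pool.Agent.H502R3.PQ
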