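import Pool.Agent.H502R3.PQ2

namespace Pool.Agent.H502R3.PQ

theorem order3 : EulerianOrder 3 := by
  refine construct_int 1 le_rfl (fun i => ([1] : List ℤ).getD i 1) rfl ?_ ?_ ?_
  · intro c h1 h2
    have : c = 1 := by omega
    subst this
    exact ⟨0, by omega, Or.inl rfl⟩
  · intro k hk
    have : k = 0 := by omega
    subst this
    exact ⟨0, by omega, 1, Or.inr (by norm_num)⟩
  · simp only [Finset.sum_range_succ, Finset.sum_range_zero]
    exact ⟨1, 0, by norm_num⟩

theorem order9 : EulerianOrder 9 := by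
  refine construct_int 4 (by norm_num) (fun i => ([1, -2, -3, -4] : List ℤ).getD i 1) rfl ?_ ?_ ?_
  · intro c h1 h2
    interval_cases c
    · exact ⟨0, by omega, Or.inl (by norm_num)⟩
    · exact ⟨1, by omega, Or.inr (by norm_num)⟩
    · exact ⟨2, by omega, Or.inr (by norm_num)⟩
    · exact ⟨3, by omega, Or.inr (by norm_num)⟩
  · intro k hk
    interval_cases k
    · exact ⟨0, by omega, 0, Or.inr (by norm_num)⟩
    · exact ⟨3, by omega, 0, Or.inr (by norm_num)⟩
    · exact ⟨1, by omega, 0, Or.inr (by norm_num)⟩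
    · exact ⟨2, by omega, 0, Or.inr (by norm_num)⟩
  · simp only [Finset.sum_range_succ, Finset.sum_range_zero]
    exact ⟨1, 1, by norm_num⟩

theorem order11 : EulerianOrder 11 := by
  refine construct_int 5 (by norm_num) (fun i => ([1, 2, 3, -4, -5] : List ℤ).getD i 1) rfl ?_ ?_ ?_
  · intro c h1 h2
    interval_cases c
    · exact ⟨0, by omega, Or.inl (by norm_num)⟩
    · exact ⟨1, by omega, Or.inl (by norm_num)⟩
    · exact ⟨2, by omega, Or.inl (by norm_num)⟩
    · exact ⟨3, by omega, Or.inr (by norm_num)⟩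
    · exact ⟨4, by omega, Or.inr (by norm_num)⟩
  · intro k hk
    interval_cases k
    · exact ⟨2, by omega, 0, Or.inr (by norm_num)⟩
    · exact ⟨0, by omega, 0, Or.inl (by norm_num)⟩
    · exact ⟨1, by omega, 0, Or.inl (by norm_num)⟩
    · exact ⟨4, by omega, -1, Or.inl (by norm_num)⟩
    · exact ⟨3, by omega, 0, Or.inr (by norm_num)⟩
  · simp only [Finset.sum_range_succ, Finset.sum_range_zero]
    exact ⟨-4, -1, by norm_num⟩

theorem order13 : EulerianOrder 13 := by
  refine construct_int 6 (by norm_num) (fun i => ([1, 2, -3, -4, -5, -6] : List ℤ).getD i 1)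
    rfl ?_ ?_ ?_
  · intro c h1 h2
    interval_cases c
    · exact ⟨0, by omega, Or.inl (by norm_num)⟩
    · exact ⟨1, by omega, Or.inl (by norm_num)⟩
    · exact ⟨2, by omega, Or.inr (by norm_num)⟩
    · exact ⟨3, by omega, Or.inr (by norm_num)⟩
    · exact ⟨4, by omega, Or.inr (by norm_num)⟩
    · exact ⟨5, by omega, Or.inr (by norm_num)⟩
  · intro k hk
    interval_cases k
    · exact ⟨1, by omega, 0, Or.inr (by norm_num)⟩
    · exact ⟨0, by omega, 0, Or.inl (by norm_num)⟩
    · exact ⟨5, by omega, 0, Or.inr (by norm_num)⟩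
    · exact ⟨2, by omega, 0, Or.inr (by norm_num)⟩
    · exact ⟨3, by omega, 0, Or.inr (by norm_num)⟩
    · exact ⟨4, by omega, 0, Or.inr (by norm_num)⟩
  · simp only [Finset.sum_range_succ, Finset.sum_range_zero]
    exact ⟨6, 7, by norm_num⟩

/-- the table of order 7 -/
def op7 : Fin 7 → Fin 7 → Fin 7 :=
  ![![0, 2, 3, 5, 6, 1, 4],
    ![2, 1, 6, 4, 5, 0, 3],
    ![1, 0, 2, 6, 3, 4, 5],
    ![4, 5, 0, 3, 2, 6, 1],
    ![3, 6, 5, 1, 4, 2, 0],
    ![6, 3, 4, 0, 1, 5, 2],
    ![5, 4, 1, 2, 0, 3, 6]]

/-- the walk of order 7 -/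
def walk7 : Fin 21 → Fin 7 :=
  ![0, 1, 2, 6, 5, 3, 0, 4, 6, 0, 5, 1, 3, 4, 2, 5, 4, 1, 6, 3, 2]

theorem order7 : EulerianOrder 7 := by
  refine ⟨Fin 7, inferInstance, op7, by simp, ⟨⟨?_, ?_, ?_⟩, ?_, ?_⟩, ?_⟩
  · decide
  · decide
  · decide
  · intro a b
    revert a b
    unfold ExistsUnique
    decide
  · intro a b
    revert a b
    unfold ExistsUnique
    decide
  · refine isEulerian_of _ 21 (by simp) (walk7 : ZMod 21 → Fin 7) ?_ ?_
    · change ∀ i : Fin 21, op7 (walk7 i) (walk7 (i + 1)) = walk7 (i + 2)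
      decide
    · have h : ∀ a b : Fin 7, a ≠ b → ∃ i : Fin 21,
          ((walk7 i = a ∧ walk7 (i + 1) = b) ∨ (walk7 i = b ∧ walk7 (i + 1) = a)) ∧
          ∀ j : Fin 21, ((walk7 j = a ∧ walk7 (j + 1) = b) ∨ (walk7 j = b ∧ walk7 (j + 1) = a)) →
            j = i := by
        decide
      intro a b hab
      obtain ⟨i, hi, hu⟩ := h a b hab
      refine ⟨i, ?_, ?_⟩
      · simp only [Sym2.eq_iff]
        exact hi
      · intro j hj
        simp only [Sym2.eq_iff] at hj
        exact hu j hj

theorem odd_order {V : Type*} [Fintype V] [Nonempty V] (op : V → V → V) (hg : IsPGroupoid op) :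
    Odd (Fintype.card V) := by
  classical
  obtain ⟨b⟩ := (inferInstance : Nonempty V)
  let f : Function.End V := fun a => op a b
  have hinv : ∀ a, op (op a b) b = a := fun a => (hg.flip a b (op a b)).mp rfl
  have hf : f ^ 2 ^ 1 = 1 := by
    funext a
    have : (f ^ 2 ^ 1) a = f (f a) := by
      rw [pow_one, pow_two]; rfl
    rw [this]
    exact hinv a
  have : Fact (Nat.Prime 2) := ⟨Nat.prime_two⟩
  have h1 := Equiv.Perm.card_fixedPoints_modEq (p := 2) (n := 1) hf
  have h2 : Fintype.card (Function.fixedPoints f) = 1 := by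
    rw [Fintype.card_eq_one_iff]
    refine ⟨⟨b, ?_⟩, ?_⟩
    · exact hg.idem b
    · rintro ⟨a, ha⟩
      apply Subtype.ext
      by_contra hne
      exact (hg.ne a b hne).1 ha
  rw [h2] at h1
  rw [Nat.odd_iff]
  exact h1

theorem five_elems {V : Type*} [Fintype V] [DecidableEq V] (hc : Fintype.card V = 5)
    (a b c : V) (hab : a ≠ b) (hac : a ≠ c) (hbc : b ≠ c) :
    ∃ d e, d ≠ a ∧ d ≠ b ∧ d ≠ c ∧ e ≠ a ∧ e ≠ b ∧ e ≠ c ∧ d ≠ e ∧
      ∀ x, x = a ∨ x = b ∨ x = c ∨ x = d ∨ x = e := by
  have h3 : ({a, b, c} : Finset V).card = 3 := by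
    rw [Finset.card_eq_three]; exact ⟨a, b, c, hab, hac, hbc, rfl⟩
  have h2 : (Finset.univ \ ({a, b, c} : Finset V)).card = 2 := by
    rw [Finset.card_sdiff_of_subset (Finset.subset_univ _), Finset.card_univ, hc, h3]
  obtain ⟨d, e, hde, hset⟩ := Finset.card_eq_two.mp h2
  have hd : d ∈ Finset.univ \ ({a, b, c} : Finset V) := by rw [hset]; simp
  have he : e ∈ Finset.univ \ ({a, b, c} : Finset V) := by rw [hset]; simp
  simp only [Finset.mem_sdiff, Finset.mem_univ, true_and, Finset.mem_insert,
    Finset.mem_singleton, not_or] at hd he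
  refine ⟨d, e, hd.1, hd.2.1, hd.2.2, he.1, he.2.1, he.2.2, hde, ?_⟩
  intro x
  by_cases hx : x ∈ ({a, b, c} : Finset V)
  · simp only [Finset.mem_insert, Finset.mem_singleton] at hx
    tauto
  · have : x ∈ Finset.univ \ ({a, b, c} : Finset V) := by simp only [Finset.mem_sdiff, Finset.mem_univ, true_and]; exact hx
    rw [hset] at this
    simp only [Finset.mem_insert, Finset.mem_singleton] at this
    tauto

theorem five_key {V : Type*} [Fintype V] (op : V → V → V) (hq : IsPQuasigroup op)
    (hc : Fintype.card V = 5) (a b : V) (hab : a ≠ b) : op b (op a b) ≠ a := by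
  classical
  intro h
  have hcol : ∀ a b, op (op a b) b = a := fun a b => (hq.flip a b (op a b)).mp rfl
  have hrow : ∀ a x y, op a x = op a y → x = y := by
    intro a x y hxy
    obtain ⟨z, hz, hu⟩ := hq.left a (op a y)
    rw [hu x hxy, hu y rfl]
  obtain ⟨hca, hcb⟩ := hq.ne a b hab
  set c := op a b with hcdef
  obtain ⟨d, e, h1, h2, h3, h4, h5, h6, h7, h8⟩ := five_elems hc a b c hab (Ne.symm hca) (Ne.symm hcb)
  have hcb' : op c b = a := hcol a b
  have hac' : op a c = b := by rw [← h]; exact hcol b c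
  have e1 : op d b = e := by
    rcases h8 (op d b) with h9 | h9 | h9 | h9 | h9
    · exfalso
      have := hcol d b
      rw [h9, ← hcdef] at this
      exact h3 this.symm
    · exact absurd h9 (hq.ne d b h2).2
    · exfalso
      have := hcol d b
      rw [h9, hcb'] at this
      exact h1 this.symm
    · exact absurd h9 (hq.ne d b h2).1
    · exact h9
  have e2 : op d c = e := by
    rcases h8 (op d c) with h9 | h9 | h9 | h9 | h9
    · exfalso
      have := hcol d c
      rw [h9, hac'] at this
      exact h2 this.symm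
    · exfalso
      have := hcol d c
      rw [h9, h] at this
      exact h1 this.symm
    · exact absurd h9 (hq.ne d c h3).2
    · exact absurd h9 (hq.ne d c h3).1
    · exact h9
  exact hcb (hrow d b c (by rw [e1, e2])).symm

theorem five_walk {V : Type*} [Fintype V] (op : V → V → V) (hq : IsPQuasigroup op)
    (hcard : Fintype.card V = 5) (a b c d e f g : V) (hab : a ≠ b) (hc : op a b = c)
    (hd : op b c = d) (he : op c d = e) (hf : op d e = f) (hg : op e f = g) : f = a ∧ g = b := by
  classical
  have hcol : ∀ a b, op (op a b) b = a := fun a b => (hq.flip a b (op a b)).mp rfl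
  have hrow : ∀ a x y, op a x = op a y → x = y := by
    intro a x y hxy
    obtain ⟨z, hz, hu⟩ := hq.left a (op a y)
    rw [hu x hxy, hu y rfl]
  have key : ∀ a b, a ≠ b → op b (op a b) ≠ a := fun a b h => five_key op hq hcard a b h
  -- c
  have hca : c ≠ a := by rw [← hc]; exact (hq.ne a b hab).1
  have hcb : c ≠ b := by rw [← hc]; exact (hq.ne a b hab).2
  have hcb' : op c b = a := by rw [← hc]; exact hcol a b
  -- d
  have hdb : d ≠ b := by rw [← hd]; exact (hq.ne b c (Ne.symm hcb)).1
  have hdc : d ≠ c := by rw [← hd]; exact (hq.ne b c (Ne.symm hcb)).2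
  have hda : d ≠ a := by rw [← hd, ← hc]; exact key a b hab
  have hdc' : op d c = b := by rw [← hd]; exact hcol b c
  -- e
  have hec : e ≠ c := by rw [← he]; exact (hq.ne c d (Ne.symm hdc)).1
  have hed : e ≠ d := by rw [← he]; exact (hq.ne c d (Ne.symm hdc)).2
  have heb : e ≠ b := by rw [← he, ← hd]; exact key b c (Ne.symm hcb)
  have hea : e ≠ a := by
    intro h
    have : op c d = op c b := by rw [he, hcb', h]
    exact hdb (hrow c d b this)
  have hed' : op e d = c := by rw [← he]; exact hcol c d
  have hall : ∀ x, x = a ∨ x = b ∨ x = c ∨ x = d ∨ x = e := by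
    intro x
    obtain ⟨p, q, h1, h2, h3, h4, h5, h6, h7, h8⟩ :=
      five_elems hcard a b c hab (Ne.symm hca) (Ne.symm hcb)
    have hd9 : d = p ∨ d = q := by
      rcases h8 d with h | h | h | h | h
      · exact absurd h hda
      · exact absurd h hdb
      · exact absurd h hdc
      · exact Or.inl h
      · exact Or.inr h
    have he9 : e = p ∨ e = q := by
      rcases h8 e with h | h | h | h | h
      · exact absurd h hea
      · exact absurd h heb
      · exact absurd h hec
      · exact Or.inl h
      · exact Or.inr h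
    have hx8 := h8 x
    rcases hd9 with hd9 | hd9 <;> rcases he9 with he9 | he9
    · exact absurd (he9.trans hd9.symm) hed
    · rw [hd9, he9]; exact hx8
    · rw [hd9, he9]
      rcases hx8 with h | h | h | h | h
      · exact Or.inl h
      · exact Or.inr (Or.inl h)
      · exact Or.inr (Or.inr (Or.inl h))
      · exact Or.inr (Or.inr (Or.inr (Or.inr h)))
      · exact Or.inr (Or.inr (Or.inr (Or.inl h)))
    · exact absurd (he9.trans hd9.symm) hed
  -- f
  have hfa : f = a := by
    rcases hall f with h | h | h | h | h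
    · exact h
    · exfalso
      have : op d e = op d c := by rw [hf, hdc', h]
      exact hec (hrow d e c this)
    · exfalso
      have := key c d (Ne.symm hdc)
      rw [he, hf] at this
      exact this h
    · exfalso
      exact (hq.ne d e (Ne.symm hed)).1 (by rw [hf]; exact h)
    · exfalso
      exact (hq.ne d e (Ne.symm hed)).2 (by rw [hf]; exact h)
  refine ⟨hfa, ?_⟩
  rcases hall g with h | h | h | h | h
  · exfalso
    have h9 := (hq.ne e f (by rw [hfa]; exact hea)).2
    rw [hg] at h9
    exact h9 (by rw [h, hfa])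
  · exact h
  · exfalso
    have : op e f = op e d := by rw [hg, hed', h]
    have := hrow e f d this
    exact hda (by rw [← this, hfa])
  · exfalso
    have := key d e (Ne.symm hed)
    rw [hf, hg] at this
    exact this h
  · exfalso
    exact (hq.ne e f (by rw [hfa]; exact hea)).1 (by rw [hg]; exact h)

theorem no_five {V : Type*} [Fintype V] (op : V → V → V) (hq : IsPQuasigroup op)
    (hcard : Fintype.card V = 5) : ¬ IsEulerian op := by
  rintro ⟨v, h1, h2⟩
  have hnt : Nontrivial V := by
    rw [← Fintype.one_lt_card_iff_nontrivial, hcard]; norm_num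
  obtain ⟨a, b, hab⟩ := hnt
  obtain ⟨i, hi, hu⟩ := h2 a b hab
  have hvne : v i ≠ v (i + 1) := by
    intro h
    simp only [h] at hi
    rw [Sym2.eq_iff] at hi
    rcases hi with ⟨h3, h4⟩ | ⟨h3, h4⟩
    · exact hab (h3.symm.trans h4)
    · exact hab (h4.symm.trans h3)
  have e2 : op (v i) (v (i + 1)) = v (i + 2) := h1 i
  have e3 : op (v (i + 1)) (v (i + 2)) = v (i + 3) := by
    have := h1 (i + 1)
    have s1 : i + 1 + 1 = i + 2 := by ring
    have s2 : i + 1 + 2 = i + 3 := by ring
    rw [s1, s2] at this; exact this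
  have e4 : op (v (i + 2)) (v (i + 3)) = v (i + 4) := by
    have := h1 (i + 2)
    have s1 : i + 2 + 1 = i + 3 := by ring
    have s2 : i + 2 + 2 = i + 4 := by ring
    rw [s1, s2] at this; exact this
  have e5 : op (v (i + 3)) (v (i + 4)) = v (i + 5) := by
    have := h1 (i + 3)
    have s1 : i + 3 + 1 = i + 4 := by ring
    have s2 : i + 3 + 2 = i + 5 := by ring
    rw [s1, s2] at this; exact this
  have e6 : op (v (i + 4)) (v (i + 5)) = v (i + 6) := by
    have := h1 (i + 4)
    have s1 : i + 4 + 1 = i + 5 := by ring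
    have s2 : i + 4 + 2 = i + 6 := by ring
    rw [s1, s2] at this; exact this
  obtain ⟨h5, h6⟩ := five_walk op hq hcard _ _ _ _ _ _ _ hvne e2 e3 e4 e5 e6
  have h7 : i + 5 = i := by
    apply hu
    have s1 : i + 5 + 1 = i + 6 := by ring
    simp only [s1, h5, h6]
    exact hi
  have h8 : ((5 : ℕ) : ZMod (Fintype.card V * (Fintype.card V - 1) / 2)) = 0 := by
    have : (5 : ZMod (Fintype.card V * (Fintype.card V - 1) / 2)) = 0 := by
      linear_combination h7
    exact_mod_cast this
  rw [ZMod.natCast_eq_zero_iff, hcard] at h8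
  norm_num at h8

/-- The theorem. -/
theorem main (n : ℕ) (hn : 2 ≤ n) : EulerianOrder n ↔ Odd n ∧ n ≠ 5 := by
  constructor
  · rintro ⟨V, inst, op, hcard, hq, he⟩
    have : Nonempty V := by
      rw [← Fintype.card_pos_iff, hcard]; omega
    refine ⟨?_, ?_⟩
    · rw [← hcard]; exact odd_order op hq.toIsPGroupoid
    · intro h5
      exact no_five op hq (hcard.trans h5) he
  · rintro ⟨hodd, h5⟩
    rw [Nat.odd_iff] at hodd
    have h16 : n % 8 = 1 ∨ n % 8 = 3 ∨ n % 8 = 7 ∨ n % 16 = 5 ∨ n % 16 = 13 := by omega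
    rcases h16 with h | h | h | h | h
    · rcases Nat.lt_or_ge n 17 with h1 | h1
      · have : n = 9 := by omega
        rw [this]; exact order9
      · have := famA (n / 8 - 2)
        have e : 2 * (4 * (n / 8 - 2) + 8) + 1 = n := by omega
        rwa [e] at this
    · rcases Nat.lt_or_ge n 19 with h1 | h1
      · have : n = 3 ∨ n = 11 := by omega
        rcases this with this | this
        · rw [this]; exact order3
        · rw [this]; exact order11
      · have := famB (n / 8 - 2)
        have e : 2 * (4 * (n / 8 - 2) + 9) + 1 = n := by omega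
        rwa [e] at this
    · rcases Nat.lt_or_ge n 15 with h1 | h1
      · have : n = 7 := by omega
        rw [this]; exact order7
      · have := famC (n / 8 - 1)
        have e : 2 * (4 * (n / 8 - 1) + 7) + 1 = n := by omega
        rwa [e] at this
    · rcases Nat.lt_or_ge n 21 with h1 | h1
      · omega
      · have := famD (n / 16 - 1)
        have e : 2 * (8 * (n / 16 - 1) + 10) + 1 = n := by omega
        rwa [e] at this
    · rcases Nat.lt_or_ge n 29 with h1 | h1
      · have : n = 13 := by omega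
        rw [this]; exact order13
      · have := famE (n / 16 - 1)
        have e : 2 * (8 * (n / 16 - 1) + 14) + 1 = n := by omega
        rwa [e] at this

end Pool.Agent.H502R3.PQ
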