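import Mathlib
import Pool.Agent.H502R3.QMatData

namespace Pool.Agent.H502R3.QMat

open Matrix

/-- three blocks which together have full rank -/
def Good (i j k : Fin 9) : Prop :=
  ∃ N0 N1 N2 : Matrix (Fin 2) ix (ZMod 3), A i * N0 + A j * N1 + A k * N2 = 1

theorem Good.swap12 {i j k : Fin 9} : Good i j k → Good j i k := by
  rintro ⟨a, b, c, h⟩
  exact ⟨b, a, c, by rw [← h]; abel⟩

theorem Good.swap23 {i j k : Fin 9} : Good i j k → Good i k j := by
  rintro ⟨a, b, c, h⟩
  exact ⟨a, c, b, by rw [← h]; abel⟩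

theorem third_symm1 : ∀ i j k : Fin 9, third i j = k.val → third j i = k.val := by
  decide +kernel

theorem third_symm2 : ∀ i j k : Fin 9, third i j = k.val → third i k = j.val := by
  decide +kernel

theorem good_of_third_ne (i j k : Fin 9) (hij : i ≠ j) (hik : i ≠ k) (hjk : j ≠ k)
    (h : third i j ≠ k.val) : Good i j k := by
  have key : ∀ a b c : Fin 9, a < b → b < c → third a b ≠ c.val → Good a b c :=
    fun a b c h1 h2 h3 => ⟨_, _, _, sorted_good a b c h1 h2 h3⟩
  have s1 : third j i ≠ k.val := fun h' => h (third_symm1 _ _ _ h')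
  have s2 : third i k ≠ j.val := fun h' => h (third_symm2 _ _ _ h')
  have s3 : third k i ≠ j.val := fun h' => s2 (third_symm1 _ _ _ h')
  have s4 : third j k ≠ i.val := fun h' => s1 (third_symm2 _ _ _ h')
  have s5 : third k j ≠ i.val := fun h' => s4 (third_symm1 _ _ _ h')
  rcases lt_or_gt_of_ne hij with h1 | h1 <;> rcases lt_or_gt_of_ne hjk with h2 | h2 <;>
    rcases lt_or_gt_of_ne hik with h3 | h3
  · exact key i j k h1 h2 h
  · exact absurd (h1.trans h2) (not_lt.mpr h3.le)
  · exact (key i k j h3 h2 s2).swap23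
  · exact (key k i j h3 h1 s3).swap12.swap23
  · exact (key j i k h1 h3 s1).swap12
  · exact ((key j k i h2 h3 s4).swap23).swap12
  · exact absurd (h3.trans h2) (not_lt.mpr h1.le)
  · exact ((key k j i h2 h1 s5).swap12.swap23).swap12

section ring
variable {R : Type*} [CommRing R] [Algebra (ZMod 3) R]

/-- the blocks over an extension -/
def AL (R : Type*) [CommRing R] [Algebra (ZMod 3) R] (i : Fin 9) : Matrix ix (Fin 2) R :=
  (A i).map (algebraMap (ZMod 3) R)

/-- the generic combination -/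
def B (lam : Fin 9 → R) (v : Fin 9 → ZMod 3) : Matrix ix (Fin 2) R :=
  ∑ i, (algebraMap (ZMod 3) R (v i) * lam i) • AL R i

/-- three generic combinations side by side -/
def M (lam : Fin 9 → R) (v : Fin 3 → Fin 9 → ZMod 3) : Matrix ix ix R :=
  Matrix.of fun p q => B lam (v q.1) p q.2

theorem B_apply (lam : Fin 9 → R) (v : Fin 9 → ZMod 3) (p : ix) (c : Fin 2) :
    B lam v p c = ∑ i, (algebraMap (ZMod 3) R (v i) * lam i) * algebraMap (ZMod 3) R (A i p c) := by
  simp [B, AL, Matrix.sum_apply]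

theorem vecMul_M (lam : Fin 9 → R) (v : Fin 3 → Fin 9 → ZMod 3) (z : ix → R) (q : ix) :
    (z ᵥ* M lam v) q = (z ᵥ* B lam (v q.1)) q.2 := by
  simp [Matrix.vecMul, M, dotProduct]

theorem B_add (lam : Fin 9 → R) (v w : Fin 9 → ZMod 3) : B lam (v + w) = B lam v + B lam w := by
  simp [B, ← Finset.sum_add_distrib, add_mul, add_smul]

theorem B_smul (lam : Fin 9 → R) (c : ZMod 3) (v : Fin 9 → ZMod 3) :
    B lam (c • v) = algebraMap (ZMod 3) R c • B lam v := by
  simp [B, Finset.smul_sum, smul_smul, mul_assoc]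

theorem B_zero (lam : Fin 9 → R) : B lam 0 = 0 := by
  simp [B]

theorem B_single (lam : Fin 9 → R) (i : Fin 9) :
    B lam (Pi.single i 1) = lam i • AL R i := by
  unfold B
  rw [Finset.sum_eq_single i]
  · simp
  · intro b _ hb
    simp [Pi.single_eq_of_ne hb]
  · simp

theorem good_inj {i j k : Fin 9} (h : Good i j k) (z : ix → R)
    (h1 : z ᵥ* AL R i = 0) (h2 : z ᵥ* AL R j = 0) (h3 : z ᵥ* AL R k = 0) : z = 0 := by
  obtain ⟨N0, N1, N2, h⟩ := h
  have h' := congrArg (fun X : Matrix ix ix (ZMod 3) => X.map (algebraMap (ZMod 3) R)) h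
  have e1 : AL R i * N0.map (algebraMap (ZMod 3) R) + AL R j * N1.map (algebraMap (ZMod 3) R)
      + AL R k * N2.map (algebraMap (ZMod 3) R) = 1 := by
    have : (1 : Matrix ix ix R) = (1 : Matrix ix ix (ZMod 3)).map (algebraMap (ZMod 3) R) := by
      rw [Matrix.map_one] <;> simp
    rw [this, ← h]
    simp only [AL, Matrix.map_add _ (map_add (algebraMap (ZMod 3) R)), Matrix.map_mul]
  have : z = z ᵥ* (1 : Matrix ix ix R) := by simp
  rw [this, ← e1, Matrix.vecMul_add, Matrix.vecMul_add, ← Matrix.vecMul_vecMul,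
    ← Matrix.vecMul_vecMul, ← Matrix.vecMul_vecMul, h1, h2, h3]
  simp

end ring

/-- triples of vectors in echelon form at a good triple of places -/
def Ech (v : Fin 3 → Fin 9 → ZMod 3) : Prop :=
  ∃ i j k : Fin 9, Good i j k ∧ i ≠ j ∧ i ≠ k ∧ j ≠ k ∧ v 0 i ≠ 0 ∧ v 1 i = 0 ∧ v 1 j ≠ 0 ∧ v 2 i = 0 ∧
    v 2 j = 0 ∧ v 2 k ≠ 0

theorem sum_three {R : Type*} [AddCommMonoid R] (f : Fin 9 → R) (i j k : Fin 9)
    (hij : i ≠ j) (hik : i ≠ k) (hjk : j ≠ k) (hf : ∀ l, l ≠ i → l ≠ j → l ≠ k → f l = 0) :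
    ∑ l, f l = f i + f j + f k := by
  rw [← Finset.sum_subset (Finset.subset_univ {i, j, k})]
  · rw [Finset.sum_insert (by simp [hij, hik]), Finset.sum_insert (by simp [hjk]),
      Finset.sum_singleton, add_assoc]
  · intro l _ hl
    simp only [Finset.mem_insert, Finset.mem_singleton, not_or] at hl
    exact hf l hl.1 hl.2.1 hl.2.2

section field
variable {L : Type*} [Field L] [Algebra (ZMod 3) L]

theorem exists_det_ne (v : Fin 3 → Fin 9 → ZMod 3) (hv : Ech v) :
    ∃ lam : Fin 9 → L, (M lam v).det ≠ 0 := by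
  obtain ⟨i, j, k, hg, hij, hik, hjk, h0, h1i, h1j, h2i, h2j, h2k⟩ := hv
  let lam : Fin 9 → L := fun l => if l = i ∨ l = j ∨ l = k then 1 else 0
  refine ⟨lam, fun hdet => ?_⟩
  obtain ⟨z, hz0, hz⟩ := Matrix.exists_vecMul_eq_zero_iff.mpr hdet
  have hB : ∀ w : Fin 9 → ZMod 3, B lam w = algebraMap (ZMod 3) L (w i) • AL L i +
      algebraMap (ZMod 3) L (w j) • AL L j + algebraMap (ZMod 3) L (w k) • AL L k := by
    intro w
    unfold B
    rw [sum_three _ i j k hij hik hjk]
    · simp [lam]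
    · intro l h1 h2 h3
      simp [lam, h1, h2, h3]
  have hzB : ∀ a : Fin 3, z ᵥ* B lam (v a) = 0 := by
    intro a
    funext c
    have := congrFun hz (a, c)
    rw [vecMul_M] at this
    simpa using this
  have inj : ∀ x : ZMod 3, x ≠ 0 → algebraMap (ZMod 3) L x ≠ 0 := by
    intro x hx h
    exact hx ((map_eq_zero _).mp h)
  have e2 := hzB 2
  rw [hB, h2i, h2j] at e2
  simp only [map_zero, zero_smul, zero_add, Matrix.vecMul_smul] at e2
  have e2' : z ᵥ* AL L k = 0 := (smul_eq_zero.mp e2).resolve_left (inj _ h2k)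
  have e1 := hzB 1
  rw [hB, h1i] at e1
  simp only [map_zero, zero_smul, zero_add, Matrix.vecMul_add, Matrix.vecMul_smul, e2', smul_zero,
    add_zero] at e1
  have e1' : z ᵥ* AL L j = 0 := (smul_eq_zero.mp e1).resolve_left (inj _ h1j)
  have e0 := hzB 0
  rw [hB] at e0
  simp only [Matrix.vecMul_add, Matrix.vecMul_smul, e2', e1', smul_zero,
    add_zero] at e0
  have e0' : z ᵥ* AL L i = 0 := (smul_eq_zero.mp e0).resolve_left (inj _ h0)
  exact hz0 (good_inj hg z e0' e1' e2')

theorem exists_lam [Infinite L] :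
    ∃ lam : Fin 9 → L, (∀ i, lam i ≠ 0) ∧ ∀ v, Ech v → (M lam v).det ≠ 0 := by
  classical
  have hfin : Set.Finite {v : Fin 3 → Fin 9 → ZMod 3 | Ech v} := Set.toFinite _
  let P : MvPolynomial (Fin 9) L :=
    (∏ i, MvPolynomial.X i) *
      ∏ v ∈ hfin.toFinset,
        (M (R := MvPolynomial (Fin 9) L) MvPolynomial.X v).det
  have hev : ∀ (lam : Fin 9 → L) (v : Fin 3 → Fin 9 → ZMod 3),
      MvPolynomial.eval lam (M (R := MvPolynomial (Fin 9) L) MvPolynomial.X v).det
        = (M lam v).det := by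
    intro lam v
    rw [RingHom.map_det]
    congr 1
    ext p q
    simp only [RingHom.mapMatrix_apply, Matrix.map_apply, M, Matrix.of_apply, B_apply, map_sum,
      map_mul, MvPolynomial.eval_X]
    have : ∀ x : ZMod 3, MvPolynomial.eval lam (algebraMap (ZMod 3) (MvPolynomial (Fin 9) L) x)
        = algebraMap (ZMod 3) L x := by
      intro x
      rw [MvPolynomial.algebraMap_apply, MvPolynomial.eval_C]
    simp only [this]
  have hP : P ≠ 0 := by
    refine mul_ne_zero ?_ ?_
    · rw [Finset.prod_ne_zero_iff]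
      intro i _
      exact MvPolynomial.X_ne_zero i
    · rw [Finset.prod_ne_zero_iff]
      intro v hv
      rw [Set.Finite.mem_toFinset] at hv
      obtain ⟨lam, hlam⟩ := exists_det_ne (L := L) v hv
      intro h0
      apply hlam
      rw [← hev, h0, map_zero]
  have : ∃ lam : Fin 9 → L, MvPolynomial.eval lam P ≠ 0 := by
    by_contra hcon
    push Not at hcon
    exact hP (MvPolynomial.funext (fun x => by rw [hcon x, map_zero]))
  obtain ⟨lam, hlam⟩ := this
  refine ⟨lam, ?_, ?_⟩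
  · intro i h0
    apply hlam
    simp only [P, map_mul, map_prod, MvPolynomial.eval_X]
    rw [Finset.prod_eq_zero (Finset.mem_univ i) h0, zero_mul]
  · intro v hv h0
    apply hlam
    simp only [P, map_mul, map_prod]
    rw [Finset.prod_eq_zero (i := v) ((Set.Finite.mem_toFinset hfin).mpr hv) ?_, mul_zero]
    rw [hev, h0]

end field

end Pool.Agent.H502R3.QMat
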