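import Mathlib
import Pool.Agent.H502R3.QMat1

namespace Pool.Agent.H502R3.QMat

open Matrix

/-- every pair of places extends to a good triple -/
theorem exists_third : ∀ i j : Fin 9, i ≠ j → ∃ k : Fin 9, i ≠ k ∧ j ≠ k ∧ third i j ≠ k.val := by
  decide +kernel

theorem exists_good (i j : Fin 9) (h : i ≠ j) : ∃ k : Fin 9, i ≠ k ∧ j ≠ k ∧ Good i j k := by
  obtain ⟨k, h1, h2, h3⟩ := exists_third i j h
  exact ⟨k, h1, h2, good_of_third_ne i j k h h1 h2 h3⟩

abbrev VV := Fin 9 → ZMod 3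

abbrev ee (i : Fin 9) : VV := Pi.single i 1

theorem ech_mk (u w x : VV) (i j k : Fin 9) (hg : Good i j k) (hij : i ≠ j) (hik : i ≠ k)
    (hjk : j ≠ k) (h0 : u i ≠ 0) (h1 : w i = 0) (h2 : w j ≠ 0) (h3 : x i = 0) (h4 : x j = 0)
    (h5 : x k ≠ 0) : Ech ![u, w, x] :=
  ⟨i, j, k, hg, hij, hik, hjk, h0, h1, h2, h3, h4, h5⟩

theorem fun_ne_zero {u : VV} (h : u ≠ 0) : ∃ i, u i ≠ 0 := by
  by_contra hc
  push Not at hc
  exact h (funext hc)

/-- the shape of an arbitrary subspace -/
theorem shape (V : Submodule (ZMod 3) VV) :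
    (∃ v, Ech v ∧ ∀ a, v a ∈ V) ∨
    (∃ v, Ech v ∧ ∃ S : Finset (Fin 3), V = Submodule.span (ZMod 3) (v '' (S : Set (Fin 3)))) ∨
    (∃ i j k : Fin 9, i ≠ j ∧ i ≠ k ∧ j ≠ k ∧ third i j = k.val ∧
      V = Submodule.span (ZMod 3) {ee i, ee j, ee k}) := by
  classical
  by_cases hV : V = ⊥
  · obtain ⟨k, h1, h2, hg⟩ := exists_good 0 1 (by decide)
    refine Or.inr (Or.inl ⟨![ee 0, ee 1, ee k], ech_mk _ _ _ 0 1 k hg (by decide) h1 h2 (by simp)
      (by simp) (by simp) ?_ ?_ (by simp), ∅, by simp [hV]⟩)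
    · exact Pi.single_eq_of_ne h1 _
    · exact Pi.single_eq_of_ne h2 _
  obtain ⟨u, huV, hu0⟩ := Submodule.exists_mem_ne_zero_of_ne_bot hV
  obtain ⟨i, hi⟩ := fun_ne_zero hu0
  by_cases hV1 : V ≤ Submodule.span (ZMod 3) {u}
  · obtain ⟨j, hj⟩ : ∃ j, i ≠ j := by
      by_cases h : i = 0
      · exact ⟨1, by rw [h]; decide⟩
      · exact ⟨0, h⟩
    obtain ⟨k, h1, h2, hg⟩ := exists_good i j hj
    refine Or.inr (Or.inl ⟨![u, ee j, ee k], ech_mk _ _ _ i j k hg hj h1 h2 hi
      (Pi.single_eq_of_ne hj _) (by simp) (Pi.single_eq_of_ne h1 _) (Pi.single_eq_of_ne h2 _)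
      (by simp), {0}, ?_⟩)
    simp only [Finset.coe_singleton, Set.image_singleton, Matrix.cons_val_zero]
    exact le_antisymm hV1 (Submodule.span_le.mpr (by simpa using huV))
  -- a second vector
  obtain ⟨w₀, hw₀V, hw₀⟩ := Set.not_subset.mp hV1
  have hw : ∃ w ∈ V, w i = 0 ∧ w ≠ 0 := by
    refine ⟨w₀ - (w₀ i / u i) • u, V.sub_mem hw₀V (V.smul_mem _ huV), ?_, ?_⟩
    · simp [div_mul_cancel₀ _ hi]
    · intro h
      apply hw₀
      rw [sub_eq_zero.mp h]
      exact Submodule.smul_mem _ _ (Submodule.mem_span_singleton_self u)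
  obtain ⟨w, hwV, hwi, hw0⟩ := hw
  obtain ⟨j, hj⟩ := fun_ne_zero hw0
  have hij : i ≠ j := by
    rintro rfl
    exact hj hwi
  by_cases hV2 : V ≤ Submodule.span (ZMod 3) {u, w}
  · obtain ⟨k, h1, h2, hg⟩ := exists_good i j hij
    refine Or.inr (Or.inl ⟨![u, w, ee k], ech_mk _ _ _ i j k hg hij h1 h2 hi
      hwi hj (Pi.single_eq_of_ne h1 _) (Pi.single_eq_of_ne h2 _)
      (by simp), {0, 1}, ?_⟩)
    have : (![u, w, ee k] '' (({0, 1} : Finset (Fin 3)) : Set (Fin 3))) = {u, w} := by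
      simp [Set.image_pair]
    rw [this]
    refine le_antisymm hV2 (Submodule.span_le.mpr ?_)
    rintro y hy
    rcases hy with rfl | rfl
    · exact huV
    · exact hwV
  obtain ⟨x₀, hx₀V, hx₀⟩ := Set.not_subset.mp hV2
  have hx : ∃ x ∈ V, x i = 0 ∧ x j = 0 ∧ x ≠ 0 := by
    let x₁ := x₀ - (x₀ i / u i) • u
    have hx₁i : x₁ i = 0 := by simp [x₁, div_mul_cancel₀ _ hi]
    refine ⟨x₁ - (x₁ j / w j) • w, V.sub_mem (V.sub_mem hx₀V (V.smul_mem _ huV)) (V.smul_mem _ hwV),
      ?_, ?_, ?_⟩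
    · simp [hx₁i, hwi]
    · simp [div_mul_cancel₀ _ hj]
    · intro h
      apply hx₀
      have e1 : x₀ = (x₀ i / u i) • u + (x₁ j / w j) • w := by
        have := sub_eq_zero.mp h
        rw [← this]
        simp [x₁]
      rw [e1]
      exact Submodule.add_mem _ (Submodule.smul_mem _ _ (Submodule.subset_span (by simp)))
        (Submodule.smul_mem _ _ (Submodule.subset_span (by simp)))
  obtain ⟨x, hxV, hxi, hxj, hx0⟩ := hx
  obtain ⟨k, hk⟩ := fun_ne_zero hx0
  have hik : i ≠ k := by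
    rintro rfl
    exact hk hxi
  have hjk : j ≠ k := by
    rintro rfl
    exact hk hxj
  by_cases hG : third i j = k.val
  swap
  · left
    refine ⟨![u, w, x], ech_mk _ _ _ i j k (good_of_third_ne i j k hij hik hjk hG) hij hik hjk hi
      hwi hj hxi hxj hk, ?_⟩
    intro a
    fin_cases a
    · exact huV
    · exact hwV
    · exact hxV
  by_cases hA : ∃ v, Ech v ∧ ∀ a, v a ∈ V
  · exact Or.inl hA
  right; right
  refine ⟨i, j, k, hij, hik, hjk, hG, ?_⟩
  have mem3 : ∀ (u w x : VV), u ∈ V → w ∈ V → x ∈ V → ∀ a, ![u, w, x] a ∈ V := by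
    intro u w x h1 h2 h3 a
    fin_cases a
    · exact h1
    · exact h2
    · exact h3
  have third_inj : ∀ a b c l : Fin 9, third a b = c.val → l ≠ c → third a b ≠ l.val := by
    intro a b c l h1 h2 h3
    exact h2 (Fin.ext (h3.symm.trans h1))
  -- y with y i = y j = 0 is supported at k
  have hk1 : ∀ y ∈ V, y i = 0 → y j = 0 → ∀ l, l ≠ k → y l = 0 := by
    intro y hy hyi hyj l hl
    by_contra hyl
    have hil : i ≠ l := by rintro rfl; exact hyl hyi
    have hjl : j ≠ l := by rintro rfl; exact hyl hyj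
    exact hA ⟨![u, w, y], ech_mk _ _ _ i j l
      (good_of_third_ne i j l hij hil hjl (third_inj _ _ _ _ hG hl)) hij hil hjl hi
      hwi hj hyi hyj hyl, mem3 _ _ _ huV hwV hy⟩
  have hekV : ee k ∈ V := by
    have : ee k = (x k)⁻¹ • x := by
      funext l
      by_cases hl : l = k
      · subst hl
        simp [inv_mul_cancel₀ hk]
      · simp [Pi.single_eq_of_ne hl, hk1 x hxV hxi hxj l hl]
    rw [this]
    exact V.smul_mem _ hxV
  have hG' : third i k = j.val := third_symm2 _ _ _ hG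
  have hk2 : ∀ y ∈ V, y i = 0 → y k = 0 → ∀ l, l ≠ j → y l = 0 := by
    intro y hy hyi hyk l hl
    by_contra hyl
    have hil : i ≠ l := by rintro rfl; exact hyl hyi
    have hkl : k ≠ l := by rintro rfl; exact hyl hyk
    exact hA ⟨![u, ee k, y], ech_mk _ _ _ i k l
      (good_of_third_ne i k l hik hil hkl (third_inj _ _ _ _ hG' hl)) hik hil hkl hi
      (Pi.single_eq_of_ne hik _) (by simp) hyi hyk hyl, mem3 _ _ _ huV hekV hy⟩
  have hejV : ee j ∈ V := by
    let w' := w - w k • ee k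
    have hw'V : w' ∈ V := V.sub_mem hwV (V.smul_mem _ hekV)
    have h1 : w' i = 0 := by simp [w', hwi, Pi.single_eq_of_ne hik]
    have h2 : w' k = 0 := by simp [w']
    have h3 : w' j = w j := by simp [w', Pi.single_eq_of_ne hjk]
    have : ee j = (w' j)⁻¹ • w' := by
      funext l
      by_cases hl : l = j
      · subst hl
        rw [Pi.smul_apply, smul_eq_mul, inv_mul_cancel₀ (by rw [h3]; exact hj)]
        simp
      · simp [Pi.single_eq_of_ne hl, hk2 w' hw'V h1 h2 l hl]
    rw [this]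
    exact V.smul_mem _ hw'V
  have hG'' : third j k = i.val := third_symm2 _ _ _ (third_symm1 _ _ _ hG)
  have hk3 : ∀ y ∈ V, y j = 0 → y k = 0 → ∀ l, l ≠ i → y l = 0 := by
    intro y hy hyj hyk l hl
    by_contra hyl
    have hjl : j ≠ l := by rintro rfl; exact hyl hyj
    have hkl : k ≠ l := by rintro rfl; exact hyl hyk
    exact hA ⟨![ee j, ee k, y], ech_mk _ _ _ j k l
      (good_of_third_ne j k l hjk hjl hkl (third_inj _ _ _ _ hG'' hl)) hjk hjl hkl (by simp)
      (Pi.single_eq_of_ne hjk _) (by simp) hyj hyk hyl, mem3 _ _ _ hejV hekV hy⟩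
  have heiV : ee i ∈ V := by
    let u' := u - u k • ee k - u j • ee j
    have hu'V : u' ∈ V := V.sub_mem (V.sub_mem huV (V.smul_mem _ hekV)) (V.smul_mem _ hejV)
    have h1 : u' j = 0 := by simp [u', Pi.single_eq_of_ne hjk]
    have h2 : u' k = 0 := by simp [u', Pi.single_eq_of_ne hjk.symm]
    have h3 : u' i = u i := by simp [u', Pi.single_eq_of_ne hij, Pi.single_eq_of_ne hik]
    have : ee i = (u' i)⁻¹ • u' := by
      funext l
      by_cases hl : l = i
      · subst hl
        rw [Pi.smul_apply, smul_eq_mul, inv_mul_cancel₀ (by rw [h3]; exact hi)]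
        simp
      · simp [Pi.single_eq_of_ne hl, hk3 u' hu'V h1 h2 l hl]
    rw [this]
    exact V.smul_mem _ hu'V
  apply le_antisymm
  · intro y hy
    let y' := y - y i • ee i - y j • ee j
    have hy'V : y' ∈ V := V.sub_mem (V.sub_mem hy (V.smul_mem _ heiV)) (V.smul_mem _ hejV)
    have h1 : y' i = 0 := by simp [y', Pi.single_eq_of_ne hij]
    have h2 : y' j = 0 := by simp [y', Pi.single_eq_of_ne hij.symm]
    have h3 : y' k = y k := by simp [y', Pi.single_eq_of_ne hik.symm, Pi.single_eq_of_ne hjk.symm]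
    have h4 : y' = y k • ee k := by
      funext l
      by_cases hl : l = k
      · subst hl
        rw [h3]
        simp
      · rw [hk1 y' hy'V h1 h2 l hl]
        simp [Pi.single_eq_of_ne hl]
    have h5 : y = y i • ee i + y j • ee j + y k • ee k := by
      rw [← h4]
      simp [y']
    rw [h5]
    exact Submodule.add_mem _ (Submodule.add_mem _
      (Submodule.smul_mem _ _ (Submodule.subset_span (by simp)))
      (Submodule.smul_mem _ _ (Submodule.subset_span (by simp))))
      (Submodule.smul_mem _ _ (Submodule.subset_span (by simp)))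
  · refine Submodule.span_le.mpr ?_
    rintro y hy
    simp only [Set.mem_insert_iff, Set.mem_singleton_iff] at hy
    rcases hy with rfl | rfl | rfl
    · exact heiV
    · exact hejV
    · exact hekV

end Pool.Agent.H502R3.QMat
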