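import Mathlib
import Pool.Agent.H502R3.QMat2

namespace Pool.Agent.H502R3.QMat

open Matrix Module

section field
variable {L : Type*} [Field L] [Algebra (ZMod 3) L]

/-- vectors killed by all combinations in `V` -/
def Kern (lam : Fin 9 → L) (V : Submodule (ZMod 3) VV) : Submodule L (ix → L) where
  carrier := {z | ∀ v ∈ V, z ᵥ* B lam v = 0}
  add_mem' := by
    intro a b ha hb v hv
    rw [Matrix.add_vecMul, ha v hv, hb v hv, add_zero]
  zero_mem' := by
    intro v _
    simp
  smul_mem' := by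
    intro c z hz v hv
    rw [Matrix.smul_vecMul, hz v hv, smul_zero]

/-- vectors killed by some of three combinations -/
def KS (lam : Fin 9 → L) (v : Fin 3 → VV) (S : Finset (Fin 3)) : Submodule L (ix → L) where
  carrier := {z | ∀ a ∈ S, z ᵥ* B lam (v a) = 0}
  add_mem' := by
    intro a b ha hb v hv
    rw [Matrix.add_vecMul, ha v hv, hb v hv, add_zero]
  zero_mem' := by
    intro v _
    simp
  smul_mem' := by
    intro c z hz v hv
    rw [Matrix.smul_vecMul, hz v hv, smul_zero]

theorem mem_Kern (lam : Fin 9 → L) (V : Submodule (ZMod 3) VV) (z : ix → L) :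
    z ∈ Kern lam V ↔ ∀ v ∈ V, z ᵥ* B lam v = 0 := Iff.rfl

theorem mem_KS (lam : Fin 9 → L) (v : Fin 3 → VV) (S : Finset (Fin 3)) (z : ix → L) :
    z ∈ KS lam v S ↔ ∀ a ∈ S, z ᵥ* B lam (v a) = 0 := Iff.rfl

theorem mem_Kern_span (lam : Fin 9 → L) (X : Set VV) (z : ix → L) :
    z ∈ Kern lam (Submodule.span (ZMod 3) X) ↔ ∀ v ∈ X, z ᵥ* B lam v = 0 := by
  rw [mem_Kern]
  constructor
  · intro h v hv
    exact h v (Submodule.subset_span hv)
  · intro h v hv
    induction hv using Submodule.span_induction with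
    | mem x hx => exact h x hx
    | zero => simp [B_zero]
    | add x y _ _ hx hy => rw [B_add, Matrix.vecMul_add, hx, hy, add_zero]
    | smul c x _ hx => rw [B_smul, Matrix.vecMul_smul, hx, smul_zero]

theorem Kern_span_image (lam : Fin 9 → L) (v : Fin 3 → VV) (S : Finset (Fin 3)) :
    Kern lam (Submodule.span (ZMod 3) (v '' (S : Set (Fin 3)))) = KS lam v S := by
  ext z
  rw [mem_Kern_span, mem_KS]
  simp

theorem card_aux : ∀ S : Finset (Fin 3),
    Fintype.card {q : ix // q.1 ∉ S} = 2 * (3 - S.card) := by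
  decide

theorem finrank_KS (lam : Fin 9 → L) (v : Fin 3 → VV) (hdet : (M lam v).det ≠ 0)
    (S : Finset (Fin 3)) : finrank L (KS lam v S) = 2 * (3 - S.card) := by
  classical
  have hinj : Function.Injective (Matrix.vecMulLinear (M lam v)) := by
    rw [← LinearMap.ker_eq_bot, LinearMap.ker_eq_bot']
    intro z hz
    by_contra h0
    exact hdet (Matrix.exists_vecMul_eq_zero_iff.mp ⟨z, h0, hz⟩)
  let Φ : (ix → L) ≃ₗ[L] (ix → L) := LinearEquiv.ofInjectiveEndo _ hinj
  have hΦ : ∀ z, Φ z = z ᵥ* M lam v := fun z => rfl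
  let W : Submodule L (ix → L) := ⨅ q ∈ {q : ix | q.1 ∈ S}, LinearMap.ker (LinearMap.proj q)
  have hW : ∀ y, y ∈ W ↔ ∀ q : ix, q.1 ∈ S → y q = 0 := by
    intro y
    simp [W, Submodule.mem_iInf]
  have e1 : (KS lam v S).map (Φ : (ix → L) →ₗ[L] (ix → L)) = W := by
    ext y
    rw [hW]
    constructor
    · rintro ⟨z, hz, rfl⟩ q hq
      have := congrFun (hz q.1 hq) q.2
      rw [← vecMul_M] at this
      exact this
    · intro hy
      refine ⟨Φ.symm y, ?_, by simp⟩
      intro a ha
      funext c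
      have := hy (a, c) ha
      rw [← Φ.apply_symm_apply y, hΦ, vecMul_M] at this
      exact this
  have e2 : finrank L (KS lam v S) = finrank L W := by
    rw [← e1]
    exact (LinearEquiv.finrank_map_eq Φ _).symm
  have e3 : finrank L W = Fintype.card {q : ix // q.1 ∉ S} := by
    have hd : Disjoint {q : ix | q.1 ∉ S} {q : ix | q.1 ∈ S} := by
      rw [Set.disjoint_left]
      intro q h1 h2
      exact h1 h2
    have hu : Set.univ ⊆ {q : ix | q.1 ∉ S} ∪ {q : ix | q.1 ∈ S} := by
      intro q _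
      by_cases h : q.1 ∈ S
      · exact Or.inr h
      · exact Or.inl h
    have := (LinearMap.iInfKerProjEquiv L (fun _ : ix => L) hd hu).finrank_eq
    rw [this]
    rw [Module.finrank_fintype_fun_eq_card]
    rfl
  rw [e2, e3, card_aux]

/-- the admissible scalings -/
def Adm (lam : Fin 9 → L) : Prop := (∀ i, lam i ≠ 0) ∧ ∀ v, Ech v → (M lam v).det ≠ 0

theorem Kern_line (lam : Fin 9 → L) (hlam : ∀ i, lam i ≠ 0) (i j k l : Fin 9)
    (h : third i j = k.val) :
    Kern lam (Submodule.span (ZMod 3) {ee i, ee j, ee k}) = KS lam ![ee i, ee j, ee l] {0, 1} := by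
  ext z
  rw [mem_Kern_span, mem_KS]
  simp only [Set.mem_insert_iff, Set.mem_singleton_iff, forall_eq_or_imp, forall_eq, B_single,
    Finset.mem_insert, Finset.mem_singleton, Matrix.cons_val_zero, Matrix.cons_val_one]
  constructor
  · rintro ⟨h1, h2, h3⟩
    exact ⟨h1, h2⟩
  · rintro ⟨h1, h2⟩
    refine ⟨h1, h2, ?_⟩
    rw [Matrix.vecMul_smul] at h1 h2 ⊢
    have h1' := (smul_eq_zero.mp h1).resolve_left (hlam i)
    have h2' := (smul_eq_zero.mp h2).resolve_left (hlam j)
    have hd := line_dep i j k h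
    have hd' : AL L k = AL L i * (D i j 0).map (algebraMap (ZMod 3) L)
        + AL L j * (D i j 1).map (algebraMap (ZMod 3) L) := by
      unfold AL
      rw [hd]
      simp only [Matrix.map_add _ (map_add (algebraMap (ZMod 3) L)), Matrix.map_mul]
    rw [hd', Matrix.vecMul_add, ← Matrix.vecMul_vecMul, ← Matrix.vecMul_vecMul, h1', h2']
    simp

theorem finrank_Kern_line (lam : Fin 9 → L) (h : Adm lam) (i j k : Fin 9)
    (hij : i ≠ j) (ht : third i j = k.val) :
    finrank L (Kern lam (Submodule.span (ZMod 3) {ee i, ee j, ee k})) = 2 := by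
  obtain ⟨l, h1, h2, hg⟩ := exists_good i j hij
  rw [Kern_line lam h.1 i j k l ht, finrank_KS]
  · decide
  · exact h.2 _ (ech_mk _ _ _ i j l hg hij h1 h2 (by simp)
      (Pi.single_eq_of_ne hij _) (by simp) (Pi.single_eq_of_ne h1 _) (Pi.single_eq_of_ne h2 _)
      (by simp))

theorem finrank_Kern_of_ech (lam : Fin 9 → L) (h : Adm lam) (V : Submodule (ZMod 3) VV)
    (v : Fin 3 → VV) (hv : Ech v) (hvV : ∀ a, v a ∈ V) : finrank L (Kern lam V) = 0 := by
  have h1 : finrank L (KS lam v Finset.univ) = 0 := by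
    rw [finrank_KS lam v (h.2 v hv)]
    simp
  have h2 : Kern lam V ≤ KS lam v Finset.univ := by
    intro z hz a _
    exact hz _ (hvV a)
  have := Submodule.finrank_mono h2
  omega

theorem finrank_Kern_good (lam : Fin 9 → L) (h : Adm lam) (i j k : Fin 9)
    (hij : i ≠ j) (hik : i ≠ k) (hjk : j ≠ k) (hg : Good i j k) :
    finrank L (Kern lam (Submodule.span (ZMod 3) {ee i, ee j, ee k})) = 0 := by
  refine finrank_Kern_of_ech lam h _ ![ee i, ee j, ee k] (ech_mk _ _ _ i j k hg hij hik hjk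
    (by simp) (Pi.single_eq_of_ne hij _) (by simp) (Pi.single_eq_of_ne hik _)
    (Pi.single_eq_of_ne hjk _) (by simp)) ?_
  intro a
  apply Submodule.subset_span
  fin_cases a <;> simp

theorem even_finrank_Kern (lam : Fin 9 → L) (h : Adm lam) (V : Submodule (ZMod 3) VV) :
    2 ∣ finrank L (Kern lam V) := by
  rcases shape V with ⟨v, hv, hvV⟩ | ⟨v, hv, S, rfl⟩ | ⟨i, j, k, hij, hik, hjk, ht, rfl⟩
  · rw [finrank_Kern_of_ech lam h V v hv hvV]
    exact dvd_zero 2
  · rw [Kern_span_image, finrank_KS lam v (h.2 v hv)]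
    exact dvd_mul_right 2 _
  · rw [finrank_Kern_line lam h i j k hij ht]

end field

end Pool.Agent.H502R3.QMat
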