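import Mathlib
import Pool.Agent.H502R3.QMat3

namespace Pool.Agent.H502R3.QMat

open Matrix Module

/-- orthogonal space, written as in the problem -/
def perp (V : Submodule (ZMod 3) VV) : Submodule (ZMod 3) VV :=
  ⨅ (v : VV) (_ : v ∈ V), LinearMap.ker
    (∑ i : Fin 9, v i • (LinearMap.proj i : VV →ₗ[ZMod 3] ZMod 3))

theorem mem_perp (V : Submodule (ZMod 3) VV) (w : VV) :
    w ∈ perp V ↔ ∀ v ∈ V, ∑ i, v i * w i = 0 := by
  simp [perp, Submodule.mem_iInf, LinearMap.sum_apply]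

theorem perp_perp (V : Submodule (ZMod 3) VV) : perp (perp V) = V := by
  let Bf : LinearMap.BilinForm (ZMod 3) VV := dotProductBilin (ZMod 3) (ZMod 3)
  have happ : ∀ x y : VV, Bf x y = ∑ i, x i * y i := fun x y => rfl
  have key : ∀ W : Submodule (ZMod 3) VV, perp W = LinearMap.BilinForm.orthogonal Bf W := by
    intro W
    ext w
    rw [mem_perp, LinearMap.BilinForm.mem_orthogonal_iff]
    rfl
  have hrefl : Bf.IsRefl := by
    intro x y h
    rw [happ] at h ⊢
    rw [← h]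
    exact Finset.sum_congr rfl fun i _ => mul_comm _ _
  have hnd : Bf.Nondegenerate := by
    have hl : ∀ x : VV, (∀ y, Bf x y = 0) → x = 0 := by
      intro x h
      funext i
      have := h (Pi.single i 1)
      rw [happ, Finset.sum_eq_single i] at this
      · simpa using this
      · intro j _ hj
        simp [Pi.single_eq_of_ne hj]
      · simp
    refine ⟨hl, fun x h => hl x fun y => ?_⟩
    rw [hrefl _ _ (h y)]
  rw [key, key]
  exact LinearMap.BilinForm.orthogonal_orthogonal hnd hrefl V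

/-- the `j`-th column of a matrix, as a linear map -/
abbrev colMap (m : ℕ) (j : Fin m) : (Fin 9 → Fin m → ZMod 3) →ₗ[ZMod 3] (Fin 9 → ZMod 3) :=
  LinearMap.pi (fun i : Fin 9 =>
    LinearMap.comp (LinearMap.proj j : (Fin m → ZMod 3) →ₗ[ZMod 3] ZMod 3)
      (LinearMap.proj i : (Fin 9 → Fin m → ZMod 3) →ₗ[ZMod 3] (Fin m → ZMod 3)))

section field
variable {E : Type*} [Field E] [Algebra (ZMod 3) E] 

/-- the code map -/
def Psi {m : ℕ} (e : (Fin 2 → E) ≃ₗ[ZMod 3] (Fin m → ZMod 3)) (lam : Fin 9 → E) :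
    (ix → E) →ₗ[ZMod 3] (Fin 9 → Fin m → ZMod 3) :=
  LinearMap.pi fun i => e.toLinearMap ∘ₗ
    ((Matrix.vecMulLinear (lam i • AL E i)).restrictScalars (ZMod 3))

theorem Psi_apply {m : ℕ} (e : (Fin 2 → E) ≃ₗ[ZMod 3] (Fin m → ZMod 3)) (lam : Fin 9 → E)
    (z : ix → E) (i : Fin 9) : Psi e lam z i = e (z ᵥ* (lam i • AL E i)) := rfl

theorem Psi_sum {m : ℕ} (e : (Fin 2 → E) ≃ₗ[ZMod 3] (Fin m → ZMod 3)) (lam : Fin 9 → E)
    (z : ix → E) (v : VV) : ∑ i, v i • Psi e lam z i = e (z ᵥ* B lam v) := by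
  simp only [Psi_apply, ← map_smul, ← map_sum]
  congr 1
  rw [B, Matrix.vecMul_sum]
  refine Finset.sum_congr rfl fun i _ => ?_
  rw [Matrix.vecMul_smul, Matrix.vecMul_smul, mul_smul, algebraMap_smul]

theorem Psi_mem {m : ℕ} (e : (Fin 2 → E) ≃ₗ[ZMod 3] (Fin m → ZMod 3)) (lam : Fin 9 → E)
    (z : ix → E) (V : Submodule (ZMod 3) VV) :
    Psi e lam z ∈ (⨅ j : Fin m, Submodule.comap (colMap m j) (perp V)) ↔ z ∈ Kern lam V := by
  rw [Submodule.mem_iInf, mem_Kern]
  constructor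
  · intro h v hv
    rw [← e.map_eq_zero_iff, ← Psi_sum]
    funext j
    have := (mem_perp V _).mp (h j) v hv
    simpa [Finset.sum_apply] using this
  · intro h j
    rw [Submodule.mem_comap, mem_perp]
    intro v hv
    have h1 := h v hv
    rw [← e.map_eq_zero_iff, ← Psi_sum] at h1
    have := congrFun h1 j
    simpa [Finset.sum_apply] using this

theorem Psi_inj {m : ℕ} (e : (Fin 2 → E) ≃ₗ[ZMod 3] (Fin m → ZMod 3)) (lam : Fin 9 → E)
    (h : Adm lam) : Function.Injective (Psi e lam) := by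
  rw [← LinearMap.ker_eq_bot, LinearMap.ker_eq_bot']
  intro z hz
  have h1 : z ∈ Kern lam ⊤ := by
    intro v _
    rw [← e.map_eq_zero_iff, ← Psi_sum, hz]
    simp
  obtain ⟨k, h1', h2', hg⟩ := exists_good 0 1 (by decide)
  have h2 : z ∈ Kern lam (Submodule.span (ZMod 3) {ee 0, ee 1, ee k}) := fun v _ => h1 v trivial
  rw [mem_Kern_span] at h2
  simp only [Set.mem_insert_iff, Set.mem_singleton_iff, forall_eq_or_imp, forall_eq, B_single,
    Matrix.vecMul_smul] at h2
  obtain ⟨a, b, c⟩ := h2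
  exact good_inj hg z ((smul_eq_zero.mp a).resolve_left (h.1 _))
    ((smul_eq_zero.mp b).resolve_left (h.1 _)) ((smul_eq_zero.mp c).resolve_left (h.1 _))

theorem finrank_code [FiniteDimensional (ZMod 3) E] {m : ℕ}
    (e : (Fin 2 → E) ≃ₗ[ZMod 3] (Fin m → ZMod 3)) (lam : Fin 9 → E)
    (h : Adm lam) (V : Submodule (ZMod 3) VV) :
    finrank (ZMod 3) ↥(LinearMap.range (Psi e lam) ⊓
      ⨅ j : Fin m, Submodule.comap (colMap m j) (perp V))
      = finrank (ZMod 3) E * finrank E (Kern lam V) := by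
  have e1 : LinearMap.range (Psi e lam) ⊓ (⨅ j : Fin m, Submodule.comap (colMap m j) (perp V))
      = ((Kern lam V).restrictScalars (ZMod 3)).map (Psi e lam) := by
    ext y
    rw [Submodule.mem_inf]
    constructor
    · rintro ⟨⟨z, rfl⟩, hz⟩
      exact ⟨z, (Psi_mem e lam z V).mp hz, rfl⟩
    · rintro ⟨z, hz, rfl⟩
      exact ⟨⟨z, rfl⟩, (Psi_mem e lam z V).mpr hz⟩
  rw [e1, ← (Submodule.equivMapOfInjective (Psi e lam) (Psi_inj e lam h) _).finrank_eq]
  rw [Module.finrank_mul_finrank (ZMod 3) E (Kern lam V)]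
  rfl

theorem finrank_code_top [FiniteDimensional (ZMod 3) E] {m : ℕ}
    (e : (Fin 2 → E) ≃ₗ[ZMod 3] (Fin m → ZMod 3)) (lam : Fin 9 → E)
    (h : Adm lam) : finrank (ZMod 3) ↥(LinearMap.range (Psi e lam))
      = finrank (ZMod 3) E * 6 := by
  rw [LinearMap.finrank_range_of_inj (Psi_inj e lam h)]
  rw [← Module.finrank_mul_finrank (ZMod 3) E (ix → E)]
  simp

end field

end Pool.Agent.H502R3.QMat
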