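import Mathlib
import Pool.Agent.H502R3.QMat4

namespace Pool.Agent.H502R3.QMat

open Matrix Module

theorem indep_three {K V : Type*} [Field K] [AddCommGroup V] [Module K V] {x y z : V}
    (h : LinearIndependent K ![x, y, z]) {a b c : K} (h0 : a • x + b • y + c • z = 0) :
    a = 0 ∧ b = 0 ∧ c = 0 := by
  have := Fintype.linearIndependent_iff.mp h ![a, b, c] (by simpa [Fin.sum_univ_three] using h0)
  exact ⟨this 0, this 1, this 2⟩

/-- Pappus in the form used below -/
theorem pappus {K V : Type*} [Field K] [AddCommGroup V] [Module K V] (g : Fin 9 → V)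
    (hrel : ∀ i j k : Fin 9, third i j = k.val → ∃ a b : K, g k = a • g i + b • g j)
    (h1 : LinearIndependent K ![g 0, g 1, g 3]) (h2 : LinearIndependent K ![g 6, g 7, g 8]) :
    False := by
  obtain ⟨a, b, e2⟩ := hrel 0 1 2 (by decide)
  obtain ⟨c, d, e6⟩ := hrel 1 3 6 (by decide)
  obtain ⟨p, q, e4⟩ := hrel 0 6 4 (by decide)
  obtain ⟨r, u, e5⟩ := hrel 3 4 5 (by decide)
  obtain ⟨f, h, e7⟩ := hrel 2 3 7 (by decide)
  obtain ⟨f', h', e7'⟩ := hrel 0 5 7 (by decide)
  obtain ⟨i, j, e8⟩ := hrel 1 5 8 (by decide)
  obtain ⟨i', j', e8'⟩ := hrel 2 4 8 (by decide)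
  rw [e6] at e4
  rw [e4] at e5 e8'
  rw [e2] at e7 e8'
  rw [e5] at e7' e8
  have q7 : (f * a - (f' + h' * (u * p))) • g 0 + (f * b - h' * (u * (q * c))) • g 1
      + (h - h' * (r + u * (q * d))) • g 3 = 0 := by
    have : (f • (a • g 0 + b • g 1) + h • g 3) - (f' • g 0 + h' • (r • g 3 + u • (p • g 0 + q • (c • g 1 + d • g 3)))) = 0 := by
      rw [← e7, ← e7', sub_self]
    rw [← this]
    module
  have q8 : ((i' * a + j' * p) - j * (u * p)) • g 0
      + ((i' * b + j' * (q * c)) - (i + j * (u * (q * c)))) • g 1
      + (j' * (q * d) - j * (r + u * (q * d))) • g 3 = 0 := by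
    have : (i' • (a • g 0 + b • g 1) + j' • (p • g 0 + q • (c • g 1 + d • g 3)))
        - (i • g 1 + j • (r • g 3 + u • (p • g 0 + q • (c • g 1 + d • g 3)))) = 0 := by
      rw [← e8, ← e8', sub_self]
    rw [← this]
    module
  obtain ⟨-, s2, s3⟩ := indep_three h1 q7
  obtain ⟨t1, -, t3⟩ := indep_three h1 q8
  let N : Matrix (Fin 3) (Fin 3) K :=
    !![0, c, d; f * a, f * b, h; i' * a + j' * p, i' * b + j' * (q * c), j' * (q * d)]
  have hN : N.det = 0 := by
    rw [Matrix.det_fin_three]
    simp only [N, Matrix.of_apply, Matrix.cons_val', Matrix.cons_val_zero, Matrix.cons_val_one,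
      Matrix.cons_val]
    linear_combination (-d * j' * p) * s2 + (c * (i' * a + j' * p)) * s3
      + (c * h' * (r + u * q * d)) * t1 - (c * h' * u * p) * t3
  obtain ⟨v, hv0, hv⟩ := Matrix.exists_vecMul_eq_zero_iff.mpr hN
  have w0 := congrFun hv 0
  have w1 := congrFun hv 1
  have w2 := congrFun hv 2
  simp only [Matrix.vecMul, dotProduct, Fin.sum_univ_three, N, Matrix.of_apply, Matrix.cons_val',
    Matrix.cons_val_zero, Matrix.cons_val_one, Matrix.cons_val, Pi.zero_apply] at w0 w1 w2
  have hz : v 0 • g 6 + v 1 • g 7 + v 2 • g 8 = 0 := by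
    rw [e6, e7, e8']
    have : v 0 • (c • g 1 + d • g 3) + v 1 • (f • (a • g 0 + b • g 1) + h • g 3) +
        v 2 • (i' • (a • g 0 + b • g 1) + j' • (p • g 0 + q • (c • g 1 + d • g 3)))
        = (v 0 * 0 + v 1 * (f * a) + v 2 * (i' * a + j' * p)) • g 0
          + (v 0 * c + v 1 * (f * b) + v 2 * (i' * b + j' * (q * c))) • g 1
          + (v 0 * d + v 1 * h + v 2 * (j' * (q * d))) • g 3 := by
      module
    rw [this, w0, w1, w2]
    simp
  obtain ⟨z0, z1, z2⟩ := indep_three h2 hz
  apply hv0
  funext x
  fin_cases x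
  · exact z0
  · exact z1
  · exact z2

theorem span_image_span {F K V W : Type*} [Field F] [Field K] [Algebra F K] [AddCommGroup V]
    [Module F V] [AddCommGroup W] [Module K W] [Module F W] [IsScalarTower F K W]
    (φ : V →ₗ[F] W) (X : Set V) :
    Submodule.span K (φ '' (Submodule.span F X : Set V)) = Submodule.span K (φ '' X) := by
  apply le_antisymm
  · rw [Submodule.span_le]
    rintro _ ⟨v, hv, rfl⟩
    induction hv using Submodule.span_induction with
    | mem x hx => exact Submodule.subset_span ⟨x, hx, rfl⟩
    | zero => simp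
    | add x y _ _ hx hy =>
      rw [map_add]
      exact Submodule.add_mem _ hx hy
    | smul c x _ hx =>
      rw [map_smul, ← algebraMap_smul K c (φ x)]
      exact Submodule.smul_mem _ _ hx
  · exact Submodule.span_mono (Set.image_mono Submodule.subset_span)

section
variable {K : Type*} [Field K] [Algebra (ZMod 3) K] {k : ℕ} (G : Matrix (Fin k) (Fin 9) K)

/-- evaluation of the representing matrix -/
def phi : VV →ₗ[ZMod 3] (Fin k → K) where
  toFun v := G *ᵥ (fun i => algebraMap (ZMod 3) K (v i))
  map_add' v w := by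
    have : (fun i => algebraMap (ZMod 3) K ((v + w) i)) =
        (fun i => algebraMap (ZMod 3) K (v i)) + (fun i => algebraMap (ZMod 3) K (w i)) := by
      funext i
      simp
    rw [this, Matrix.mulVec_add]
  map_smul' c v := by
    have : (fun i => algebraMap (ZMod 3) K ((c • v) i)) =
        algebraMap (ZMod 3) K c • (fun i => algebraMap (ZMod 3) K (v i)) := by
      funext i
      simp
    rw [this, Matrix.mulVec_smul, RingHom.id_apply, algebraMap_smul]

theorem not_rep (rk : Submodule (ZMod 3) VV → ℕ)
    (hgood : ∀ i j k : Fin 9, i ≠ j → i ≠ k → j ≠ k → Good i j k →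
      rk (Submodule.span (ZMod 3) {ee i, ee j, ee k}) = 3)
    (hline : ∀ i j k : Fin 9, i ≠ j → third i j = k.val →
      rk (Submodule.span (ZMod 3) {ee i, ee j, ee k}) = 2)
    (hG : ∀ V : Submodule (ZMod 3) VV,
      finrank K (Submodule.span K ((fun v : VV => Matrix.mulVec G
        (fun i => algebraMap (ZMod 3) K (v i))) '' (V : Set VV))) = rk V) : False := by
  let g : Fin 9 → (Fin k → K) := fun i => phi G (ee i)
  have h3 : ∀ i j k : Fin 9,
      finrank K (Submodule.span K {g i, g j, g k}) =
        rk (Submodule.span (ZMod 3) {ee i, ee j, ee k}) := by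
    intro i j l
    rw [← hG]
    have : (fun v : VV => Matrix.mulVec G
        (fun i => algebraMap (ZMod 3) K (v i))) = phi G := rfl
    have himg : (phi G) '' {ee i, ee j, ee l} = {g i, g j, g l} := by
      simp [Set.image_insert_eq, g]
    rw [this, span_image_span, himg]
  have hind : ∀ i j k : Fin 9, i ≠ j → i ≠ k → j ≠ k → Good i j k →
      LinearIndependent K ![g i, g j, g k] := by
    intro i j l h1 h2 h4 hg
    rw [linearIndependent_iff_card_eq_finrank_span]
    have hr : Set.range ![g i, g j, g l] = {g i, g j, g l} := by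
      ext y
      simp [Matrix.range_cons, or_comm, or_assoc]
    rw [Set.finrank, hr, h3, hgood i j l h1 h2 h4 hg]
    simp
  have hpair : ∀ i j : Fin 9, i ≠ j → finrank K (Submodule.span K {g i, g j}) = 2 := by
    intro i j hij
    obtain ⟨l, h1, h2, hg⟩ := exists_good i j hij
    have hli := hind i j l hij h1 h2 hg
    have hli2 : LinearIndependent K ![g i, g j] := by
      have := hli.comp ![0, 1] (by intro a b; fin_cases a <;> fin_cases b <;> simp)
      convert this using 1
      funext a
      fin_cases a <;> rfl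
    have := linearIndependent_iff_card_eq_finrank_span.mp hli2
    have hr : Set.range ![g i, g j] = {g i, g j} := by
      ext y
      simp [Matrix.range_cons, or_comm]
    rw [Set.finrank, hr] at this
    rw [← this]
    simp
  have hrel : ∀ i j k : Fin 9, third i j = k.val → ∃ a b : K, g k = a • g i + b • g j := by
    intro i j l ht
    have hij : i ≠ j := by
      rintro rfl
      revert ht
      revert i l
      decide
    have e1 : Submodule.span K {g i, g j} = Submodule.span K {g i, g j, g l} := by
      have : FiniteDimensional K (Submodule.span K {g i, g j, g l}) :=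
        FiniteDimensional.span_of_finite K (Set.toFinite _)
      apply Submodule.eq_of_le_of_finrank_eq
      · apply Submodule.span_mono
        intro y hy
        simp only [Set.mem_insert_iff, Set.mem_singleton_iff] at hy ⊢
        tauto
      · rw [hpair i j hij, h3, hline i j l hij ht]
    have : g l ∈ Submodule.span K {g i, g j} := by
      rw [e1]
      exact Submodule.subset_span (by simp)
    obtain ⟨a, b, hab⟩ := Submodule.mem_span_pair.mp this
    exact ⟨a, b, hab.symm⟩
  refine pappus g hrel (hind 0 1 3 (by decide) (by decide) (by decide) ?_)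
    (hind 6 7 8 (by decide) (by decide) (by decide) ?_)
  · exact good_of_third_ne _ _ _ (by decide) (by decide) (by decide) (by decide)
  · exact good_of_third_ne _ _ _ (by decide) (by decide) (by decide) (by decide)

end

end Pool.Agent.H502R3.QMat
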