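import Mathlib

namespace Pool.Agent.H502R3.TwoChoice

open Finset

variable {k n m : ℕ}

/-- clauses -/
abbrev Clause (k n : ℕ) := (Fin k ↪ Fin n) × (Fin k → Bool)

/-- places of the positive literals -/
def pos (s : Fin k → Bool) : Finset (Fin k) := univ.filter (fun j => s j = true)

/-- the first three places -/
def first3 (k : ℕ) : Finset (Fin k) := univ.filter (fun j => j.val < 3)

theorem card_first3 : (first3 k).card ≤ 3 := by
  have : (first3 k).map Fin.valEmbedding ⊆ Finset.range 3 := by
    intro x hx
    simp only [first3, mem_map, mem_filter, mem_univ, true_and, Fin.valEmbedding_apply] at hx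
    obtain ⟨a, ha, rfl⟩ := hx
    simpa using ha
  have := Finset.card_le_card this
  simpa using this

/-- the places relevant for a sign pattern -/
def places (s : Fin k → Bool) : Finset (Fin k) :=
  if (pos s).card ≤ 2 then first3 k else pos s

/-- the core of a clause -/
def core (c : Clause k n) : Finset (Fin n) := (places c.2).map c.1

/-- the clause is risky -/
def risky (c : Clause k n) : Prop := (pos c.2).card ≤ 2

instance (c : Clause k n) : Decidable (risky c) := by unfold risky; infer_instance

theorem det_sat (φ : Fin m → Clause k n)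
    (hX : ∀ X : Finset (Fin n), 64 * X.card ≤ n →
      (univ.filter fun i => core (φ i) ⊆ X).card ≤ X.card)
    (hU : 192 * (univ.filter fun i => risky (φ i)).card ≤ n) :
    ∃ a : Fin n → Bool, ∀ i, ∃ j, a ((φ i).1 j) = (φ i).2 j := by
  classical
  set B : Finset (Fin m) := univ.filter fun i => risky (φ i) with hB
  set U : Finset (Fin n) := B.biUnion (fun i => core (φ i)) with hUdef
  have hUcard : U.card ≤ 3 * B.card := by
    calc U.card ≤ ∑ i ∈ B, (core (φ i)).card := Finset.card_biUnion_le
      _ ≤ ∑ _i ∈ B, 3 := by
        refine Finset.sum_le_sum fun i hi => ?_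
        have hr : (pos (φ i).2).card ≤ 2 := (Finset.mem_filter.mp hi).2
        rw [core, Finset.card_map, places, if_pos hr]
        exact card_first3
      _ = 3 * B.card := by rw [Finset.sum_const, smul_eq_mul, mul_comm]
  let I := {i : Fin m // core (φ i) ⊆ U}
  let t : I → Finset (Fin n) := fun i => core (φ i.1)
  have hall : ∀ S : Finset I, S.card ≤ (S.biUnion t).card := by
    intro S
    have h1 : S.biUnion t ⊆ U := by
      intro v hv
      obtain ⟨i, _, hi⟩ := Finset.mem_biUnion.mp hv
      exact i.2 hi
    have h2 := Finset.card_le_card h1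
    have h3 : (S.map (Function.Embedding.subtype _)) ⊆
        (univ.filter fun i => core (φ i) ⊆ S.biUnion t) := by
      intro i hi
      obtain ⟨j, hj, rfl⟩ := Finset.mem_map.mp hi
      simp only [Finset.mem_filter, Finset.mem_univ, true_and]
      intro v hv
      exact Finset.mem_biUnion.mpr ⟨j, hj, hv⟩
    have h4 := Finset.card_le_card h3
    rw [Finset.card_map] at h4
    refine h4.trans (hX _ ?_)
    omega
  obtain ⟨f, hf, hft⟩ := (Finset.all_card_le_biUnion_card_iff_exists_injective t).mp hall
  -- every chosen variable sits at some place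
  have hplace : ∀ i : I, ∃ j : Fin k, j ∈ places (φ i.1).2 ∧ (φ i.1).1 j = f i := by
    intro i
    obtain ⟨j, hj, hj'⟩ := Finset.mem_map.mp (hft i)
    exact ⟨j, hj, hj'⟩
  choose pl hpl hpl' using hplace
  let a : Fin n → Bool := fun v =>
    if h : ∃ i : I, f i = v then (φ h.choose.1).2 (pl h.choose) else true
  have ha : ∀ i : I, a (f i) = (φ i.1).2 (pl i) := by
    intro i
    have h : ∃ i' : I, f i' = f i := ⟨i, rfl⟩
    have h2 : h.choose = i := hf h.choose_spec
    simp only [a, dif_pos h]
    rw [h2]
  refine ⟨a, fun i => ?_⟩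
  by_cases hi : core (φ i) ⊆ U
  · refine ⟨pl ⟨i, hi⟩, ?_⟩
    rw [hpl' ⟨i, hi⟩, ha]
  · -- a positive variable outside `U`
    obtain ⟨v, hv, hvU⟩ := Finset.not_subset.mp hi
    obtain ⟨j, hj, rfl⟩ := Finset.mem_map.mp hv
    have hnr : ¬ risky (φ i) := by
      intro hr
      apply hvU
      exact Finset.mem_biUnion.mpr ⟨i, Finset.mem_filter.mpr ⟨Finset.mem_univ _, hr⟩, hv⟩
    have hj' : (φ i).2 j = true := by
      have : j ∈ pos (φ i).2 := by
        have hnr' : ¬ (pos (φ i).2).card ≤ 2 := hnr
        rw [places, if_neg hnr'] at hj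
        exact hj
      exact (Finset.mem_filter.mp this).2
    refine ⟨j, ?_⟩
    rw [hj']
    have : ¬ ∃ i' : I, f i' = (φ i).1 j := by
      rintro ⟨i', hi'⟩
      apply hvU
      have := i'.2 (hft i')
      rw [hi'] at this
      exact this
    simp only [a, dif_neg this]

end Pool.Agent.H502R3.TwoChoice
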