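import Mathlib
import Pool.Agent.H502R3.TC1

namespace Pool.Agent.H502R3.TwoChoice

open Finset

variable {k n m : ℕ}

theorem card_first3_eq (hk : 3 ≤ k) : (first3 k).card = 3 := by
  apply le_antisymm card_first3
  have : ({⟨0, by omega⟩, ⟨1, by omega⟩, ⟨2, by omega⟩} : Finset (Fin k)) ⊆ first3 k := by
    intro x hx
    simp only [mem_insert, mem_singleton] at hx
    rcases hx with rfl | rfl | rfl <;> simp [first3]
  refine le_trans (le_of_eq ?_) (Finset.card_le_card this)
  rw [Finset.card_insert_of_notMem (by simp), Finset.card_insert_of_notMem (by simp),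
    Finset.card_singleton]

/-- few injections send a given set of places into `X` -/
theorem card_emb_le (J : Finset (Fin k)) (X : Finset (Fin n)) :
    (univ.filter fun e : Fin k ↪ Fin n => J.map e ⊆ X).card ≤ X.card ^ J.card * n ^ (k - J.card) := by
  classical
  let P := Fintype.piFinset (fun i : Fin k => if i ∈ J then X else (univ : Finset (Fin n)))
  have h1 : (univ.filter fun e : Fin k ↪ Fin n => J.map e ⊆ X).card ≤ P.card := by
    refine Finset.card_le_card_of_injOn (fun e : Fin k ↪ Fin n => (⇑e : Fin k → Fin n)) ?_ ?_
    · intro e he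
      have he' : J.map e ⊆ X := (Finset.mem_filter.mp he).2
      simp only [P, Finset.mem_coe, Fintype.mem_piFinset]
      intro i
      by_cases hi : i ∈ J
      · simp only [hi, if_true]
        exact he' (Finset.mem_map_of_mem e hi)
      · simp [hi]
    · intro e _ e' _ h
      exact DFunLike.coe_injective h
  refine h1.trans (le_of_eq ?_)
  rw [Fintype.card_piFinset]
  have : ∀ i : Fin k, (if i ∈ J then X else (univ : Finset (Fin n))).card
      = if i ∈ J then X.card else n := by
    intro i
    by_cases hi : i ∈ J <;> simp [hi]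
  simp only [this]
  rw [Finset.prod_ite, Finset.prod_const, Finset.prod_const]
  congr 2
  · congr 1
    ext i; simp
  · have : (univ.filter fun i : Fin k => i ∉ J) = Jᶜ := by ext i; simp
    rw [this, Finset.card_compl, Fintype.card_fin]

/-- number of sign patterns with at most `j` positive signs -/
def hh (k j : ℕ) : ℕ := (univ.filter fun s : Fin k → Bool => (pos s).card ≤ j).card

theorem sum_weights (y : ℝ) : ∑ s : Fin k → Bool, y ^ (pos s).card = (1 + y) ^ k := by
  have h := Fintype.sum_pow (fun b : Bool => if b = true then y else (1 : ℝ)) k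
  have h1 : (∑ b : Bool, if b = true then y else (1 : ℝ)) = 1 + y := by
    simp [add_comm]
  rw [h1] at h
  rw [h]
  refine Finset.sum_congr rfl fun s _ => ?_
  rw [Finset.prod_ite, Finset.prod_const, Finset.prod_const_one, mul_one]
  rfl

theorem hh_le (k j : ℕ) : (hh k j : ℝ) ≤ 8 ^ j * (9 / 8) ^ k := by
  have h1 : (hh k j : ℝ) = ∑ s : Fin k → Bool, if (pos s).card ≤ j then (1 : ℝ) else 0 := by
    rw [hh, Finset.card_filter]
    push_cast
    rfl
  rw [h1]
  have h2 : (9 / 8 : ℝ) = 1 + 1 / 8 := by norm_num
  rw [h2, ← sum_weights, Finset.mul_sum]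
  refine Finset.sum_le_sum fun s _ => ?_
  split_ifs with h
  · rw [one_div, inv_pow, ← div_eq_mul_inv, le_div_iff₀ (by positivity), one_mul]
    exact pow_le_pow_right₀ (by norm_num) h
  · positivity

theorem hh_two (k : ℕ) : hh k 2 ≤ 1 + k + k.choose 2 := by
  classical
  have h1 : hh k 2 ≤ ((Finset.powersetCard 0 (univ : Finset (Fin k))) ∪
      (Finset.powersetCard 1 (univ : Finset (Fin k))) ∪
      (Finset.powersetCard 2 (univ : Finset (Fin k)))).card := by
    apply Finset.card_le_card_of_injOn pos
    · intro s hs
      have hs' : (pos s).card ≤ 2 := (Finset.mem_filter.mp hs).2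
      simp only [Finset.coe_union, Set.mem_union, Finset.mem_coe, Finset.mem_powersetCard,
        Finset.subset_univ, true_and]
      omega
    · intro s _ s' _ h
      funext j
      have : j ∈ pos s ↔ j ∈ pos s' := by rw [h]
      simp only [pos, Finset.mem_filter, Finset.mem_univ, true_and] at this
      by_cases hj : s j = true
      · rw [hj, this.mp hj]
      · have hj' : ¬ s' j = true := fun h' => hj (this.mpr h')
        simp only [Bool.not_eq_true] at hj hj'
        rw [hj, hj']
  refine h1.trans ((Finset.card_union_le _ _).trans ?_)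
  refine (add_le_add_left (Finset.card_union_le _ _) _).trans ?_
  simp [Finset.card_powersetCard]

/-- the rule: keep the clause with more positive literals -/
def pick (p : Clause k n × Clause k n) : Clause k n :=
  if (pos p.1.2).card < (pos p.2.2).card then p.2 else p.1

/-- number of pairs whose chosen clause has core inside `X` -/
noncomputable def W (k : ℕ) {n : ℕ} (X : Finset (Fin n)) : ℕ :=
  (univ.filter fun p : Clause k n × Clause k n => core (pick p) ⊆ X).card

theorem card_second (j : ℕ) :
    (univ.filter fun c : Clause k n => (pos c.2).card ≤ j).card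
      = Fintype.card (Fin k ↪ Fin n) * hh k j := by
  have : (univ.filter fun c : Clause k n => (pos c.2).card ≤ j)
      = (univ : Finset (Fin k ↪ Fin n)) ×ˢ
        (univ.filter fun s : Fin k → Bool => (pos s).card ≤ j) := by
    ext c
    simp
  rw [this, Finset.card_product, Finset.card_univ]
  rfl

theorem W_le_sum (X : Finset (Fin n)) :
    (W k X : ℝ) ≤ 2 * ∑ c : Clause k n, if core c ⊆ X then
      ((Fintype.card (Fin k ↪ Fin n) : ℝ) * hh k (pos c.2).card) else 0 := by
  classical
  have h1 : (W k X : ℝ) = ∑ c : Clause k n, ∑ c' : Clause k n,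
      if core (pick (c, c')) ⊆ X then (1 : ℝ) else 0 := by
    rw [W, Finset.card_filter]
    push_cast
    rw [← Finset.univ_product_univ, Finset.sum_product]
  have h2 : ∀ c c' : Clause k n, (if core (pick (c, c')) ⊆ X then (1 : ℝ) else 0) ≤
      (if core c ⊆ X ∧ (pos c'.2).card ≤ (pos c.2).card then (1 : ℝ) else 0) +
      (if core c' ⊆ X ∧ (pos c.2).card ≤ (pos c'.2).card then (1 : ℝ) else 0) := by
    intro c c'
    by_cases h : (pos c.2).card < (pos c'.2).card
    · have : pick (c, c') = c' := by simp [pick, h]
      rw [this]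
      by_cases h' : core c' ⊆ X
      · simp only [h', h.le, and_self, if_true]
        have : (0 : ℝ) ≤ if core c ⊆ X ∧ (pos c'.2).card ≤ (pos c.2).card then (1 : ℝ) else 0 := by
          split_ifs <;> norm_num
        linarith
      · simp only [h', if_false, false_and, add_zero]
        split_ifs <;> norm_num
    · have : pick (c, c') = c := by simp [pick, h]
      rw [this]
      push Not at h
      by_cases h' : core c ⊆ X
      · simp only [h', h, and_self, if_true]
        have : (0 : ℝ) ≤ if core c' ⊆ X ∧ (pos c.2).card ≤ (pos c'.2).card then (1 : ℝ) else 0 := by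
          split_ifs <;> norm_num
        linarith
      · simp only [h', if_false, false_and, zero_add]
        split_ifs <;> norm_num
  have h3 : ∀ c : Clause k n,
      (∑ c' : Clause k n, if core c ⊆ X ∧ (pos c'.2).card ≤ (pos c.2).card then (1 : ℝ) else 0)
      = if core c ⊆ X then
      ((Fintype.card (Fin k ↪ Fin n) : ℝ) * hh k (pos c.2).card) else 0 := by
    intro c
    by_cases h : core c ⊆ X
    · simp only [h, true_and, if_true]
      rw [← Nat.cast_mul, ← card_second, Finset.card_filter]
      push_cast
      rfl
    · simp [h]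
  calc (W k X : ℝ) = ∑ c : Clause k n, ∑ c' : Clause k n,
      if core (pick (c, c')) ⊆ X then (1 : ℝ) else 0 := h1
    _ ≤ ∑ c : Clause k n, ∑ c' : Clause k n,
      ((if core c ⊆ X ∧ (pos c'.2).card ≤ (pos c.2).card then (1 : ℝ) else 0) +
      (if core c' ⊆ X ∧ (pos c.2).card ≤ (pos c'.2).card then (1 : ℝ) else 0)) :=
        Finset.sum_le_sum fun c _ => Finset.sum_le_sum fun c' _ => h2 c c'
    _ = (∑ c : Clause k n, ∑ c' : Clause k n,
      (if core c ⊆ X ∧ (pos c'.2).card ≤ (pos c.2).card then (1 : ℝ) else 0)) +
      ∑ c : Clause k n, ∑ c' : Clause k n,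
      (if core c' ⊆ X ∧ (pos c.2).card ≤ (pos c'.2).card then (1 : ℝ) else 0) := by
        rw [← Finset.sum_add_distrib]
        exact Finset.sum_congr rfl fun c _ => Finset.sum_add_distrib
    _ = 2 * ∑ c : Clause k n, ∑ c' : Clause k n,
      (if core c ⊆ X ∧ (pos c'.2).card ≤ (pos c.2).card then (1 : ℝ) else 0) := by
        rw [Finset.sum_comm (f := fun c c' : Clause k n =>
          (if core c' ⊆ X ∧ (pos c.2).card ≤ (pos c'.2).card then (1 : ℝ) else 0)), two_mul]
    _ = _ := by
        congr 1
        exact Finset.sum_congr rfl fun c _ => h3 c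

end Pool.Agent.H502R3.TwoChoice
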