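import Mathlib
import Pool.Agent.H502R3.TC2

namespace Pool.Agent.H502R3.TwoChoice

open Finset

variable {k n m : ℕ}

/-- the number `1 + k + k (k - 1) / 2` -/
noncomputable def uu (k : ℕ) : ℝ := 1 + k + (k : ℝ) * (k - 1) / 2

theorem hh_two_real (k : ℕ) : (hh k 2 : ℝ) ≤ uu k := by
  have h := hh_two k
  have h' : (hh k 2 : ℝ) ≤ ((1 + k + k.choose 2 : ℕ) : ℝ) := by exact_mod_cast h
  refine h'.trans (le_of_eq ?_)
  push_cast
  rw [Nat.cast_choose_two, uu]

theorem uu_nonneg (k : ℕ) : 0 ≤ uu k := le_trans (Nat.cast_nonneg _) (hh_two_real k)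

theorem uu_sq (k : ℕ) (hk : 26 ≤ k) : 500 * uu k ^ 2 ≤ 2 ^ k := by
  induction k, hk using Nat.le_induction with
  | base => norm_num [uu]
  | succ k hk ih =>
    have hk' : (26 : ℝ) ≤ k := by exact_mod_cast hk
    have h1 : uu (k + 1) = uu k + (1 + k) := by
      unfold uu
      push_cast
      ring
    have h2 : uu (k + 1) ^ 2 ≤ 2 * uu k ^ 2 := by
      rw [h1]
      have h3 : (1 + k : ℝ) ≤ uu k / 4 := by
        unfold uu
        nlinarith
      have h4 : 0 ≤ uu k := uu_nonneg k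
      nlinarith
    have h5 : (2 : ℝ) ^ (k + 1) = 2 * 2 ^ k := by ring
    rw [h5]
    linarith

theorem num_bound (k : ℕ) (hk : 26 ≤ k) :
    2 * (11 / 10) * (uu k ^ 2 + 8 ^ 6 * (81 / 64) ^ k) ≤ 4 * (2 : ℝ) ^ k := by
  have h1 := uu_sq k hk
  have h2 : (8 : ℝ) ^ 6 * (81 / 64) ^ k ≤ (18 / 10) * 2 ^ k := by
    induction k, hk using Nat.le_induction with
    | base => norm_num
    | succ k hk ih =>
      have := ih (uu_sq k hk)
      have h5 : (2 : ℝ) ^ (k + 1) = 2 * 2 ^ k := by ring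
      have h6 : (81 / 64 : ℝ) ^ (k + 1) = (81 / 64) * (81 / 64) ^ k := by ring
      rw [h5, h6]
      have h3 : (0 : ℝ) ≤ 8 ^ 6 * (81 / 64) ^ k := by positivity
      nlinarith
  have h3 : (0 : ℝ) < 2 ^ k := by positivity
  nlinarith

theorem sum_core (X : Finset (Fin n)) (f : ℕ → ℝ) (hf : ∀ j, 0 ≤ f j) :
    (∑ c : Clause k n, if core c ⊆ X then f (pos c.2).card else 0)
      ≤ ∑ s : Fin k → Bool, ((X.card : ℝ) ^ (places s).card * (n : ℝ) ^ (k - (places s).card))
        * f (pos s).card := by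
  rw [Fintype.sum_prod_type_right]
  refine Finset.sum_le_sum fun s _ => ?_
  have h1 : (∑ e : Fin k ↪ Fin n, if core ((e, s) : Clause k n) ⊆ X then f (pos s).card else 0)
      = ((univ.filter fun e : Fin k ↪ Fin n => (places s).map e ⊆ X).card : ℝ)
        * f (pos s).card := by
    rw [Finset.card_filter]
    push_cast
    rw [Finset.sum_mul]
    refine Finset.sum_congr rfl fun e _ => ?_
    by_cases h : (places s).map e ⊆ X
    · simp [core, h]
    · simp [core, h]
  refine (le_of_eq h1).trans ?_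
  apply mul_le_mul_of_nonneg_right _ (hf _)
  have := card_emb_le (places s) X
  exact_mod_cast this

theorem W_bound (hk : 26 ≤ k) (hn : 0 < n) (X : Finset (Fin n)) (hX : 64 * X.card ≤ n) :
    (W k X : ℝ) ≤ 2 * (Fintype.card (Fin k ↪ Fin n) : ℝ) *
      ((n : ℝ) ^ k * ((X.card : ℝ) / n) ^ 3 * (uu k ^ 2 + 8 ^ 6 * (81 / 64) ^ k)) := by
  have hn' : (0 : ℝ) < n := by exact_mod_cast hn
  set x : ℝ := (X.card : ℝ) with hx
  set E : ℝ := (Fintype.card (Fin k ↪ Fin n) : ℝ) with hE
  have hE0 : 0 ≤ E := Nat.cast_nonneg _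
  have hx0 : 0 ≤ x := Nat.cast_nonneg _
  have hxn : 8 * (x / n) ≤ 1 / 8 := by
    have : (64 : ℝ) * x ≤ n := by rw [hx]; exact_mod_cast hX
    rw [← mul_div_assoc, div_le_iff₀ hn']
    linarith
  have h1 := W_le_sum (k := k) X
  have h2 := sum_core (k := k) X (fun j => E * hh k j) (fun j => by positivity)
  have h3 : ∀ s : Fin k → Bool,
      (x ^ (places s).card * (n : ℝ) ^ (k - (places s).card)) * (E * hh k (pos s).card) ≤
      E * ((n : ℝ) ^ k * (x / n) ^ 3 * ((if (pos s).card ≤ 2 then uu k else 0)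
        + (9 / 8) ^ k * 8 ^ 6 * (1 / 8) ^ (pos s).card)) := by
    intro s
    by_cases hs : (pos s).card ≤ 2
    · have e1 : (places s).card = 3 := by
        rw [places, if_pos hs, card_first3_eq (by omega)]
      have e2 : x ^ 3 * (n : ℝ) ^ (k - 3) = (n : ℝ) ^ k * (x / n) ^ 3 := by
        rw [div_pow, ← mul_div_assoc, eq_div_iff (by positivity)]
        have : (n : ℝ) ^ k = (n : ℝ) ^ (k - 3) * (n : ℝ) ^ 3 := by
          rw [← pow_add]; congr 1; omega
        rw [this]; ring
      have e3 : (hh k (pos s).card : ℝ) ≤ uu k := by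
        refine le_trans ?_ (hh_two_real k)
        have : hh k (pos s).card ≤ hh k 2 := by
          unfold hh
          apply Finset.card_le_card
          intro s' hs'
          simp only [Finset.mem_filter, Finset.mem_univ, true_and] at hs' ⊢
          omega
        exact_mod_cast this
      rw [e1, e2, if_pos hs]
      have e4 : (0 : ℝ) ≤ (9 / 8) ^ k * 8 ^ 6 * (1 / 8) ^ (pos s).card := by positivity
      have e5 : (0 : ℝ) ≤ (n : ℝ) ^ k * (x / n) ^ 3 := by positivity
      calc (n : ℝ) ^ k * (x / n) ^ 3 * (E * hh k (pos s).card)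
          = E * ((n : ℝ) ^ k * (x / n) ^ 3 * hh k (pos s).card) := by ring
        _ ≤ _ := by
          apply mul_le_mul_of_nonneg_left _ hE0
          apply mul_le_mul_of_nonneg_left _ e5
          linarith
    · have e1 : (places s) = pos s := by
        rw [places, if_neg hs]
      rw [e1, if_neg hs, zero_add]
      set j := (pos s).card with hj
      have hj3 : 3 ≤ j := by omega
      have hjk : j ≤ k := by
        have := Finset.card_le_univ (pos s)
        simpa using this
      have e2 : x ^ j * (n : ℝ) ^ (k - j) = (n : ℝ) ^ k * (x / n) ^ j := by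
        rw [div_pow, ← mul_div_assoc, eq_div_iff (by positivity)]
        have : (n : ℝ) ^ k = (n : ℝ) ^ (k - j) * (n : ℝ) ^ j := by
          rw [← pow_add]; congr 1; omega
        rw [this]; ring
      have e3 := hh_le k j
      have e4 : (x / n) ^ j * 8 ^ j ≤ (x / n) ^ 3 * (8 ^ 6 * (1 / 8) ^ j) := by
        have : (x / n) ^ j * 8 ^ j = (8 * (x / n)) ^ 3 * (8 * (x / n)) ^ (j - 3) := by
          rw [← pow_add, ← mul_pow, mul_comm (x / n) 8]
          congr 1
          omega
        rw [this]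
        have e5 : (8 * (x / n)) ^ (j - 3) ≤ (1 / 8 : ℝ) ^ (j - 3) :=
          pow_le_pow_left₀ (by positivity) hxn _
        have e6 : (1 / 8 : ℝ) ^ j = (1 / 8) ^ (j - 3) * (1 / 8) ^ 3 := by
          rw [← pow_add]
          congr 1
          omega
        rw [e6]
        have e7 : (0 : ℝ) ≤ (8 * (x / n)) ^ 3 := by positivity
        calc (8 * (x / n)) ^ 3 * (8 * (x / n)) ^ (j - 3)
            ≤ (8 * (x / n)) ^ 3 * (1 / 8 : ℝ) ^ (j - 3) := mul_le_mul_of_nonneg_left e5 e7
          _ = _ := by ring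
      rw [e2]
      calc (n : ℝ) ^ k * (x / n) ^ j * (E * hh k j)
          ≤ (n : ℝ) ^ k * (x / n) ^ j * (E * (8 ^ j * (9 / 8) ^ k)) := by
            apply mul_le_mul_of_nonneg_left _ (by positivity)
            exact mul_le_mul_of_nonneg_left e3 hE0
        _ = E * ((n : ℝ) ^ k * (9 / 8) ^ k * ((x / n) ^ j * 8 ^ j)) := by ring
        _ ≤ E * ((n : ℝ) ^ k * (9 / 8) ^ k * ((x / n) ^ 3 * (8 ^ 6 * (1 / 8) ^ j))) := by
            apply mul_le_mul_of_nonneg_left _ hE0
            exact mul_le_mul_of_nonneg_left e4 (by positivity)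
        _ = _ := by ring
  have h4 : ∑ s : Fin k → Bool, ((if (pos s).card ≤ 2 then uu k else 0)
        + (9 / 8) ^ k * 8 ^ 6 * (1 / 8) ^ (pos s).card) ≤ uu k ^ 2 + 8 ^ 6 * (81 / 64) ^ k := by
    rw [Finset.sum_add_distrib, ← Finset.mul_sum, sum_weights, ← Finset.sum_filter,
      Finset.sum_const, nsmul_eq_mul]
    have e1 : ((univ.filter fun s : Fin k → Bool => (pos s).card ≤ 2).card : ℝ) * uu k
        ≤ uu k ^ 2 := by
      rw [sq]
      exact mul_le_mul_of_nonneg_right (hh_two_real k) (uu_nonneg k)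
    have e2 : (9 / 8 : ℝ) ^ k * 8 ^ 6 * (1 + 1 / 8) ^ k = 8 ^ 6 * (81 / 64) ^ k := by
      have : (81 / 64 : ℝ) = (9 / 8) * (1 + 1 / 8) := by norm_num
      rw [this, mul_pow]
      ring
    rw [e2]
    linarith
  calc (W k X : ℝ) ≤ 2 * ∑ c : Clause k n, if core c ⊆ X then
      ((Fintype.card (Fin k ↪ Fin n) : ℝ) * hh k (pos c.2).card) else 0 := h1
    _ ≤ 2 * ∑ s : Fin k → Bool, ((X.card : ℝ) ^ (places s).card * (n : ℝ) ^ (k - (places s).card))
        * (E * hh k (pos s).card) := by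
        apply mul_le_mul_of_nonneg_left h2 (by norm_num)
    _ ≤ 2 * ∑ s : Fin k → Bool, E * ((n : ℝ) ^ k * (x / n) ^ 3 *
        ((if (pos s).card ≤ 2 then uu k else 0)
        + (9 / 8) ^ k * 8 ^ 6 * (1 / 8) ^ (pos s).card)) := by
        apply mul_le_mul_of_nonneg_left _ (by norm_num)
        exact Finset.sum_le_sum fun s _ => h3 s
    _ = 2 * E * ((n : ℝ) ^ k * (x / n) ^ 3 * ∑ s : Fin k → Bool,
        ((if (pos s).card ≤ 2 then uu k else 0)
        + (9 / 8) ^ k * 8 ^ 6 * (1 / 8) ^ (pos s).card)) := by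
        rw [← Finset.mul_sum, ← Finset.mul_sum]
        ring
    _ ≤ _ := by
        apply mul_le_mul_of_nonneg_left _ (by positivity)
        apply mul_le_mul_of_nonneg_left h4 (by positivity)

end Pool.Agent.H502R3.TwoChoice
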