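import Mathlib
import Pool.Agent.H502R3.TC3

namespace Pool.Agent.H502R3.TwoChoice

open Finset

variable {k n m : ℕ}

/-- number of pairs of clauses -/
noncomputable def Tt (k n : ℕ) : ℝ := (Fintype.card (Clause k n × Clause k n) : ℝ)

theorem Tt_eq (k n : ℕ) : Tt k n = ((Fintype.card (Fin k ↪ Fin n) : ℝ) * 2 ^ k) ^ 2 := by
  rw [Tt, Fintype.card_prod, Fintype.card_prod]
  simp
  ring

theorem q_bound (hk : 26 ≤ k) (hn : 0 < n)
    (hE : (n : ℝ) ^ k ≤ (11 / 10) * (Fintype.card (Fin k ↪ Fin n) : ℝ))
    (X : Finset (Fin n)) (hX : 64 * X.card ≤ n) :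
    (W k X : ℝ) ≤ Tt k n * ((4 / 2 ^ k) * ((X.card : ℝ) / n) ^ 3) := by
  have h1 := W_bound hk hn X hX
  have h2 := num_bound k hk
  rw [Tt_eq]
  set E : ℝ := (Fintype.card (Fin k ↪ Fin n) : ℝ)
  set y : ℝ := ((X.card : ℝ) / n) ^ 3
  set S : ℝ := (uu k ^ 2 + 8 ^ 6 * (81 / 64) ^ k)
  have hE0 : 0 ≤ E := Nat.cast_nonneg _
  have hy : 0 ≤ y := by positivity
  have hS : 0 ≤ S := by positivity
  have hk0 : (0 : ℝ) < 2 ^ k := by positivity
  calc (W k X : ℝ) ≤ 2 * E * ((n : ℝ) ^ k * y * S) := h1
    _ ≤ 2 * E * (((11 / 10) * E) * y * S) := by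
        apply mul_le_mul_of_nonneg_left _ (by positivity)
        apply mul_le_mul_of_nonneg_right _ hS
        exact mul_le_mul_of_nonneg_right hE hy
    _ = E ^ 2 * y * (2 * (11 / 10) * S) := by ring
    _ ≤ E ^ 2 * y * (4 * 2 ^ k) := mul_le_mul_of_nonneg_left h2 (by positivity)
    _ = (E * 2 ^ k) ^ 2 * ((4 / 2 ^ k) * y) := by
        field_simp

theorem card_forall {α : Type*} [Fintype α] (P : α → Prop) [DecidablePred P]
    (T : Finset (Fin m)) :
    (univ.filter fun ω : Fin m → α => ∀ i ∈ T, P (ω i)).card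
      = (univ.filter P).card ^ T.card * (Fintype.card α) ^ (m - T.card) := by
  classical
  have h1 : (univ.filter fun ω : Fin m → α => ∀ i ∈ T, P (ω i))
      = Fintype.piFinset (fun i : Fin m => if i ∈ T then univ.filter P else univ) := by
    ext ω
    simp only [mem_filter, mem_univ, true_and, Fintype.mem_piFinset]
    constructor
    · intro h i
      by_cases hi : i ∈ T
      · simp [hi, h i hi]
      · simp [hi]
    · intro h i hi
      have := h i
      simpa [hi] using this
  rw [h1, Fintype.card_piFinset]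
  have : ∀ i : Fin m, (if i ∈ T then univ.filter P else (univ : Finset α)).card
      = if i ∈ T then (univ.filter P).card else Fintype.card α := by
    intro i
    by_cases hi : i ∈ T <;> simp [hi]
  simp only [this]
  rw [Finset.prod_ite, Finset.prod_const, Finset.prod_const]
  congr 2
  · congr 1
    ext i; simp
  · have : (univ.filter fun i : Fin m => i ∉ T) = Tᶜ := by ext i; simp
    rw [this, Finset.card_compl, Fintype.card_fin]

/-- first bad event -/
def bad1 (ω : Fin m → Clause k n × Clause k n) : Prop :=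
  ∃ X : Finset (Fin n), 64 * X.card ≤ n ∧ X.card < (univ.filter fun i => core (pick (ω i)) ⊆ X).card

/-- the weight of sets of a given size in the union bound -/
noncomputable def ff (k n m x : ℕ) : ℝ :=
  if 64 * x ≤ n then (m.choose (x + 1) : ℝ) * ((4 / 2 ^ k) * ((x : ℝ) / n) ^ 3) ^ (x + 1) else 0

open Classical in
theorem bad1_le (hk : 26 ≤ k) (hn : 0 < n)
    (hE : (n : ℝ) ^ k ≤ (11 / 10) * (Fintype.card (Fin k ↪ Fin n) : ℝ)) :
    ((univ.filter fun ω : Fin m → Clause k n × Clause k n => bad1 ω).card : ℝ)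
      ≤ Tt k n ^ m * ∑ x ∈ range (n + 1), (n.choose x : ℝ) * ff k n m x := by
  have h1 : (univ.filter fun ω : Fin m → Clause k n × Clause k n => bad1 ω) ⊆
      (univ.filter fun X : Finset (Fin n) => 64 * X.card ≤ n).biUnion fun X =>
        (powersetCard (X.card + 1) (univ : Finset (Fin m))).biUnion fun T =>
          (univ.filter fun ω : Fin m → Clause k n × Clause k n =>
            ∀ i ∈ T, core (pick (ω i)) ⊆ X) := by
    intro ω hω
    obtain ⟨X, hX, hlt⟩ := (mem_filter.mp hω).2
    obtain ⟨T, hT, hTc⟩ := Finset.exists_subset_card_eq (Nat.succ_le_of_lt hlt)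
    rw [mem_biUnion]
    refine ⟨X, by simpa using hX, ?_⟩
    rw [mem_biUnion]
    refine ⟨T, by simp [mem_powersetCard, hTc], ?_⟩
    simp only [mem_filter, mem_univ, true_and]
    intro i hi
    exact (mem_filter.mp (hT hi)).2
  have h2 : ∀ X : Finset (Fin n), 64 * X.card ≤ n →
      ∀ T ∈ powersetCard (X.card + 1) (univ : Finset (Fin m)),
      ((univ.filter fun ω : Fin m → Clause k n × Clause k n =>
            ∀ i ∈ T, core (pick (ω i)) ⊆ X).card : ℝ) ≤
        Tt k n ^ m * ((4 / 2 ^ k) * ((X.card : ℝ) / n) ^ 3) ^ (X.card + 1) := by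
    intro X hX T hT
    have hTc : T.card = X.card + 1 := (mem_powersetCard.mp hT).2
    have hTm : T.card ≤ m := by
      have := Finset.card_le_univ T
      simpa using this
    have e1 := card_forall (m := m) (fun p : Clause k n × Clause k n => core (pick p) ⊆ X) T
    rw [e1]
    push_cast
    have e2 := q_bound hk hn hE X hX
    have e3 : ((Fintype.card (Clause k n × Clause k n) : ℕ) : ℝ) = Tt k n := rfl
    have e4 : (0 : ℝ) ≤ Tt k n := Nat.cast_nonneg _
    rw [e3]
    calc ((W k X : ℕ) : ℝ) ^ T.card * Tt k n ^ (m - T.card)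
        ≤ (Tt k n * ((4 / 2 ^ k) * ((X.card : ℝ) / n) ^ 3)) ^ T.card * Tt k n ^ (m - T.card) := by
          apply mul_le_mul_of_nonneg_right _ (by positivity)
          exact pow_le_pow_left₀ (Nat.cast_nonneg _) e2 _
      _ = (Tt k n ^ T.card * Tt k n ^ (m - T.card)) *
            ((4 / 2 ^ k) * ((X.card : ℝ) / n) ^ 3) ^ T.card := by
          rw [mul_pow]
          ring
      _ = _ := by
          rw [← pow_add, hTc.symm]
          congr 2
          omega
  have h3 : ((univ.filter fun ω : Fin m → Clause k n × Clause k n => bad1 ω).card : ℝ) ≤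
      ∑ X ∈ (univ.filter fun X : Finset (Fin n) => 64 * X.card ≤ n),
        ∑ T ∈ powersetCard (X.card + 1) (univ : Finset (Fin m)),
          Tt k n ^ m * ((4 / 2 ^ k) * ((X.card : ℝ) / n) ^ 3) ^ (X.card + 1) := by
    have e1 := (Finset.card_le_card h1).trans Finset.card_biUnion_le
    have e2 : ((univ.filter fun ω : Fin m → Clause k n × Clause k n => bad1 ω).card : ℝ) ≤
        ((∑ X ∈ (univ.filter fun X : Finset (Fin n) => 64 * X.card ≤ n),
        ((powersetCard (X.card + 1) (univ : Finset (Fin m))).biUnion fun T =>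
          (univ.filter fun ω : Fin m → Clause k n × Clause k n =>
            ∀ i ∈ T, core (pick (ω i)) ⊆ X)).card : ℕ) : ℝ) := by exact_mod_cast e1
    refine e2.trans ?_
    push_cast
    refine Finset.sum_le_sum fun X hX => ?_
    have hX' : 64 * X.card ≤ n := (mem_filter.mp hX).2
    have e3 : ((((powersetCard (X.card + 1) (univ : Finset (Fin m))).biUnion fun T =>
          (univ.filter fun ω : Fin m → Clause k n × Clause k n =>
            ∀ i ∈ T, core (pick (ω i)) ⊆ X)).card : ℕ) : ℝ) ≤
        ((∑ T ∈ (powersetCard (X.card + 1) (univ : Finset (Fin m))),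
          (univ.filter fun ω : Fin m → Clause k n × Clause k n =>
            ∀ i ∈ T, core (pick (ω i)) ⊆ X).card : ℕ) : ℝ) := by
      exact_mod_cast Finset.card_biUnion_le
    refine e3.trans ?_
    push_cast
    exact Finset.sum_le_sum fun T hT => h2 X hX' T hT
  refine h3.trans (le_of_eq ?_)
  rw [Finset.sum_filter]
  have h4 : ∀ X : Finset (Fin n), (if 64 * X.card ≤ n then
      ∑ T ∈ powersetCard (X.card + 1) (univ : Finset (Fin m)),
          Tt k n ^ m * ((4 / 2 ^ k) * ((X.card : ℝ) / n) ^ 3) ^ (X.card + 1) else 0)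
      = Tt k n ^ m * ff k n m X.card := by
    intro X
    unfold ff
    split_ifs
    · rw [Finset.sum_const, Finset.card_powersetCard, Finset.card_univ, Fintype.card_fin,
        nsmul_eq_mul]
      ring
    · simp
  rw [Finset.sum_congr rfl fun X _ => h4 X, ← Finset.mul_sum, ← Finset.powerset_univ,
    Finset.sum_powerset_apply_card (fun x => ff k n m x)]
  simp [nsmul_eq_mul]

end Pool.Agent.H502R3.TwoChoice
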