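import Mathlib
import Pool.Agent.H502R3.TC4

namespace Pool.Agent.H502R3.TwoChoice

open Finset

variable {k n m : ℕ}

theorem sq_le_two_pow (x : ℕ) : (x : ℝ) ^ 2 ≤ 2 * 2 ^ x := by
  have h : ∀ x : ℕ, x ^ 2 ≤ 2 * 2 ^ x := by
    intro x
    rcases Nat.lt_or_ge x 4 with h | h
    · interval_cases x <;> norm_num
    · induction x, h using Nat.le_induction with
      | base => norm_num
      | succ x hx ih =>
        rw [pow_succ 2 x]
        nlinarith
  exact_mod_cast h x

theorem exp_two_lt : 4 * Real.exp 2 / 64 ≤ 1 / 2 := by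
  have h1 : Real.exp 2 = Real.exp 1 ^ 2 := by
    rw [← Real.exp_nat_mul]; norm_num
  have h2 : Real.exp 1 < 2.7182818286 := Real.exp_one_lt_d9
  have h3 : 0 < Real.exp 1 := Real.exp_pos 1
  rw [h1]
  nlinarith

theorem term_bound (hn : 0 < n) (hm : m ≤ 2 ^ k * n) (x : ℕ) :
    (n.choose x : ℝ) * ff k n m x ≤ 8 / (n : ℝ) ^ 2 := by
  have hn' : (0 : ℝ) < n := by exact_mod_cast hn
  unfold ff
  split_ifs with hx
  swap
  · rw [mul_zero]; positivity
  rcases Nat.eq_zero_or_pos x with rfl | hx0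
  · simp
    positivity
  have hx' : (0 : ℝ) < x := by exact_mod_cast hx0
  have hxn : (x : ℝ) / n ≤ 1 / 64 := by
    have : (64 : ℝ) * x ≤ n := by exact_mod_cast hx
    rw [div_le_iff₀ hn']
    linarith
  have h1 : (n.choose x : ℝ) ≤ (n / x) ^ x * Real.exp x := by
    have e1 : (n.choose x : ℝ) ≤ (n : ℝ) ^ x / (x.factorial : ℝ) := Nat.choose_le_pow_div x n
    have e2 := Real.pow_div_factorial_le_exp (x : ℝ) hx'.le x
    have e3 : (n : ℝ) ^ x / (x.factorial : ℝ) = (n / x) ^ x * ((x : ℝ) ^ x / (x.factorial : ℝ)) := by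
      rw [div_pow]
      field_simp
    rw [e3] at e1
    exact e1.trans (mul_le_mul_of_nonneg_left e2 (by positivity))
  have h2 : (m.choose (x + 1) : ℝ) ≤ (2 ^ k * (n / x)) ^ (x + 1) * Real.exp x := by
    have e1 : (m.choose (x + 1) : ℝ) ≤ (m : ℝ) ^ (x + 1) / ((x + 1).factorial : ℝ) :=
      Nat.choose_le_pow_div (x + 1) m
    have e2 := Real.pow_div_factorial_le_exp (x : ℝ) hx'.le (x + 1)
    have hm' : (m : ℝ) ≤ 2 ^ k * n := by exact_mod_cast hm
    have e3 : (2 ^ k * (n : ℝ)) ^ (x + 1) / ((x + 1).factorial : ℝ) =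
        (2 ^ k * (n / x)) ^ (x + 1) * ((x : ℝ) ^ (x + 1) / ((x + 1).factorial : ℝ)) := by
      rw [mul_pow, mul_pow, div_pow]
      field_simp
    calc (m.choose (x + 1) : ℝ) ≤ (m : ℝ) ^ (x + 1) / ((x + 1).factorial : ℝ) := e1
      _ ≤ (2 ^ k * (n : ℝ)) ^ (x + 1) / ((x + 1).factorial : ℝ) := by
          apply div_le_div_of_nonneg_right _ (by positivity)
          exact pow_le_pow_left₀ (by positivity) hm' _
      _ = (2 ^ k * (n / x)) ^ (x + 1) * ((x : ℝ) ^ (x + 1) / ((x + 1).factorial : ℝ)) := e3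
      _ ≤ _ := mul_le_mul_of_nonneg_left e2 (by positivity)
  have h3 : (0 : ℝ) ≤ ((4 / 2 ^ k) * ((x : ℝ) / n) ^ 3) ^ (x + 1) := by positivity
  calc (n.choose x : ℝ) * ((m.choose (x + 1) : ℝ) * ((4 / 2 ^ k) * ((x : ℝ) / n) ^ 3) ^ (x + 1))
      ≤ ((n / x) ^ x * Real.exp x) * (((2 ^ k * (n / x)) ^ (x + 1) * Real.exp x) *
        ((4 / 2 ^ k) * ((x : ℝ) / n) ^ 3) ^ (x + 1)) := by
        apply mul_le_mul h1 _ (by positivity) (by positivity)
        exact mul_le_mul_of_nonneg_right h2 h3
    _ = 4 * (4 * Real.exp 2 * (x / n)) ^ x * (x / n) ^ 2 := by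
        have e1 : Real.exp x = Real.exp 1 ^ x := by
          rw [← Real.exp_nat_mul]; simp
        have e2 : Real.exp 2 = Real.exp 1 ^ 2 := by
          rw [← Real.exp_nat_mul]; norm_num
        rw [e1, e2]
        set e := Real.exp 1
        have hy : (n : ℝ) / x = ((x : ℝ) / n)⁻¹ := by rw [inv_div]
        rw [hy]
        set y : ℝ := (x : ℝ) / n with hyd
        have hy0 : 0 < y := by positivity
        have hk0 : (0 : ℝ) < 2 ^ k := by positivity
        have e3 : (2 ^ k * y⁻¹) ^ (x + 1) * (4 / 2 ^ k * y ^ 3) ^ (x + 1) = (4 * y ^ 2) ^ (x + 1) := by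
          rw [← mul_pow]
          congr 1
          field_simp
        calc (y⁻¹ ^ x * e ^ x) * (((2 ^ k * y⁻¹) ^ (x + 1) * e ^ x) * (4 / 2 ^ k * y ^ 3) ^ (x + 1))
            = (y⁻¹ ^ x * (e ^ x * e ^ x)) * ((2 ^ k * y⁻¹) ^ (x + 1) * (4 / 2 ^ k * y ^ 3) ^ (x + 1)) := by ring
          _ = (y⁻¹ ^ x * (e ^ x * e ^ x)) * (4 * y ^ 2) ^ (x + 1) := by rw [e3]
          _ = 4 * ((y⁻¹ * y) * (4 * e ^ 2 * y)) ^ x * y ^ 2 := by
              rw [pow_succ (4 * y ^ 2) x]
              have : ((y⁻¹ * y) * (4 * e ^ 2 * y)) ^ x = (y⁻¹ ^ x * (e ^ x * e ^ x)) * (4 * y ^ 2) ^ x := by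
                rw [← mul_pow, ← mul_pow, ← mul_pow]
                congr 1
                ring
              rw [this]
              ring
          _ = _ := by rw [inv_mul_cancel₀ hy0.ne', one_mul]
    _ ≤ 4 * (1 / 2) ^ x * (x / n) ^ 2 := by
        apply mul_le_mul_of_nonneg_right _ (by positivity)
        apply mul_le_mul_of_nonneg_left _ (by norm_num)
        apply pow_le_pow_left₀ (by positivity)
        have := exp_two_lt
        have h5 : 0 < Real.exp 2 := Real.exp_pos 2
        calc 4 * Real.exp 2 * (x / n) ≤ 4 * Real.exp 2 * (1 / 64) :=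
              mul_le_mul_of_nonneg_left hxn (by positivity)
          _ = 4 * Real.exp 2 / 64 := by ring
          _ ≤ 1 / 2 := this
    _ ≤ 8 / (n : ℝ) ^ 2 := by
        have := sq_le_two_pow x
        have h2x : (0 : ℝ) < 2 ^ x := by positivity
        have e5 : (1 / 2 : ℝ) ^ x = (2 ^ x)⁻¹ := by rw [one_div, inv_pow]
        rw [e5, div_pow ((x : ℝ)), ← mul_div_assoc, div_le_div_iff_of_pos_right (by positivity)]
        calc 4 * (2 ^ x)⁻¹ * (x : ℝ) ^ 2 ≤ 4 * (2 ^ x)⁻¹ * (2 * 2 ^ x) :=
              mul_le_mul_of_nonneg_left this (by positivity)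
          _ = 8 := by
              field_simp
              norm_num

theorem bad1_prob (hk : 26 ≤ k) (hn : 0 < n) (hm : m ≤ 2 ^ k * n)
    (hE : (n : ℝ) ^ k ≤ (11 / 10) * (Fintype.card (Fin k ↪ Fin n) : ℝ)) :
    (∑ x ∈ range (n + 1), (n.choose x : ℝ) * ff k n m x) ≤ (n + 1) * (8 / (n : ℝ) ^ 2) := by
  calc (∑ x ∈ range (n + 1), (n.choose x : ℝ) * ff k n m x)
      ≤ ∑ x ∈ range (n + 1), 8 / (n : ℝ) ^ 2 := Finset.sum_le_sum fun x _ => term_bound hn hm x
    _ = _ := by
      rw [Finset.sum_const, Finset.card_range, nsmul_eq_mul]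
      push_cast
      ring

/-- second bad event -/
def bad2 (ω : Fin m → Clause k n × Clause k n) : Prop :=
  n < 192 * (univ.filter fun i => risky (pick (ω i))).card

theorem exp_half_le : Real.exp (1 / 2) ≤ 1.65 := by
  have h1 : Real.exp (1 / 2) ^ 2 = Real.exp 1 := by
    rw [← Real.exp_nat_mul]; norm_num
  have h2 : Real.exp 1 < 2.7182818286 := Real.exp_one_lt_d9
  have h3 : 0 < Real.exp (1 / 2) := Real.exp_pos _
  nlinarith

open Classical in
theorem bad2_le (hk : 26 ≤ k) (hm : m ≤ 2 ^ k * n) (hE : 0 < Fintype.card (Fin k ↪ Fin n)) :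
    ((univ.filter fun ω : Fin m → Clause k n × Clause k n => bad2 ω).card : ℝ)
      ≤ Tt k n ^ m * Real.exp (-(n : ℝ) / 1000) := by
  set w : ℝ := Real.exp (1 / 2) with hw
  have hw1 : 1 ≤ w := Real.one_le_exp (by norm_num)
  set f : Clause k n × Clause k n → ℝ := fun p => if risky (pick p) then w else 1 with hf
  have hsum : ∑ p, f p ≤ Tt k n * (1 + (w - 1) * (uu k ^ 2 / 4 ^ k)) := by
    have e1 : ∑ p, f p = Tt k n + (w - 1) *
        ((univ.filter fun p : Clause k n × Clause k n => risky (pick p)).card : ℝ) := by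
      have : ∀ p, f p = 1 + (w - 1) * (if risky (pick p) then (1 : ℝ) else 0) := by
        intro p
        simp only [hf]
        split_ifs <;> ring
      rw [Finset.sum_congr rfl fun p _ => this p, Finset.sum_add_distrib, ← Finset.mul_sum,
        Finset.sum_const, nsmul_eq_mul, mul_one, Finset.card_univ, Finset.card_filter]
      push_cast
      rfl
    have e2 : ((univ.filter fun p : Clause k n × Clause k n => risky (pick p)).card : ℝ)
        ≤ ((Fintype.card (Fin k ↪ Fin n) : ℝ) * uu k) ^ 2 := by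
      have e3 : (univ.filter fun p : Clause k n × Clause k n => risky (pick p)) ⊆
          (univ.filter fun c : Clause k n => (pos c.2).card ≤ 2) ×ˢ
          (univ.filter fun c : Clause k n => (pos c.2).card ≤ 2) := by
        intro p hp
        have hr : (pos (pick p).2).card ≤ 2 := (mem_filter.mp hp).2
        simp only [mem_product, mem_filter, mem_univ, true_and]
        unfold pick at hr
        split_ifs at hr with h <;> omega
      have e4 := Finset.card_le_card e3
      rw [Finset.card_product, card_second] at e4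
      have e5 : ((univ.filter fun p : Clause k n × Clause k n => risky (pick p)).card : ℝ)
        ≤ ((Fintype.card (Fin k ↪ Fin n) : ℝ) * hh k 2) * ((Fintype.card (Fin k ↪ Fin n) : ℝ) * hh k 2) := by
        exact_mod_cast e4
      refine e5.trans ?_
      rw [sq]
      have e6 := hh_two_real k
      have e7 : (0 : ℝ) ≤ (Fintype.card (Fin k ↪ Fin n) : ℝ) := Nat.cast_nonneg _
      have e8 : (Fintype.card (Fin k ↪ Fin n) : ℝ) * hh k 2 ≤ (Fintype.card (Fin k ↪ Fin n) : ℝ) * uu k :=
        mul_le_mul_of_nonneg_left e6 e7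
      exact mul_le_mul e8 e8 (by positivity) (by have := uu_nonneg k; positivity)
    rw [e1]
    have e9 : Tt k n * (1 + (w - 1) * (uu k ^ 2 / 4 ^ k)) = Tt k n + (w - 1) *
        ((Fintype.card (Fin k ↪ Fin n) : ℝ) * uu k) ^ 2 := by
      rw [Tt_eq]
      have : (4 : ℝ) ^ k = 2 ^ k * 2 ^ k := by
        rw [← mul_pow]; norm_num
      rw [this]
      field_simp
    rw [e9]
    have : (w - 1) * ((univ.filter fun p : Clause k n × Clause k n => risky (pick p)).card : ℝ)
      ≤ (w - 1) * ((Fintype.card (Fin k ↪ Fin n) : ℝ) * uu k) ^ 2 :=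
      mul_le_mul_of_nonneg_left e2 (by linarith)
    linarith
  have hTt : 0 ≤ Tt k n := Nat.cast_nonneg _
  have h1 : (∑ ω : Fin m → Clause k n × Clause k n, ∏ i, f (ω i)) ≤
      Tt k n ^ m * Real.exp ((13 / 10000 : ℝ) * n) := by
    rw [← Fintype.sum_pow]
    have hf0 : 0 ≤ ∑ p, f p := Finset.sum_nonneg fun p _ => by
      simp only [hf]; split_ifs <;> positivity
    calc (∑ p, f p) ^ m ≤ (Tt k n * (1 + (w - 1) * (uu k ^ 2 / 4 ^ k))) ^ m :=
          pow_le_pow_left₀ hf0 hsum m
      _ = Tt k n ^ m * (1 + (w - 1) * (uu k ^ 2 / 4 ^ k)) ^ m := mul_pow _ _ _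
      _ ≤ Tt k n ^ m * Real.exp ((w - 1) * (uu k ^ 2 / 4 ^ k)) ^ m := by
          apply mul_le_mul_of_nonneg_left _ (by positivity)
          have hnn : 0 ≤ (w - 1) * (uu k ^ 2 / 4 ^ k) := mul_nonneg (by linarith) (by positivity)
          apply pow_le_pow_left₀ (by linarith)
          rw [add_comm]
          exact Real.add_one_le_exp _
      _ = Tt k n ^ m * Real.exp (m * ((w - 1) * (uu k ^ 2 / 4 ^ k))) := by
          rw [← Real.exp_nat_mul]
      _ ≤ _ := by
          apply mul_le_mul_of_nonneg_left _ (by positivity)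
          apply Real.exp_le_exp.mpr
          have hm' : (m : ℝ) ≤ 2 ^ k * n := by exact_mod_cast hm
          have e1 := uu_sq k hk
          have e2 := exp_half_le
          have hnn : 0 ≤ (w - 1) * (uu k ^ 2 / 4 ^ k) := mul_nonneg (by linarith) (by positivity)
          calc (m : ℝ) * ((w - 1) * (uu k ^ 2 / 4 ^ k)) ≤ (2 ^ k * n) * ((w - 1) * (uu k ^ 2 / 4 ^ k)) :=
                mul_le_mul_of_nonneg_right hm' hnn
            _ = (w - 1) * (uu k ^ 2 / 2 ^ k) * n := by
                have : (4 : ℝ) ^ k = 2 ^ k * 2 ^ k := by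
                  rw [← mul_pow]; norm_num
                rw [this]
                field_simp
            _ ≤ (13 / 10000 : ℝ) * n := by
                apply mul_le_mul_of_nonneg_right _ (Nat.cast_nonneg n)
                have e3 : uu k ^ 2 / 2 ^ k ≤ 1 / 500 := by
                  rw [div_le_iff₀ (by positivity)]
                  linarith
                have e4 : 0 ≤ uu k ^ 2 / 2 ^ k := by positivity
                calc (w - 1) * (uu k ^ 2 / 2 ^ k) ≤ (1.65 - 1) * (1 / 500) := by
                      apply mul_le_mul (by linarith) e3 e4 (by norm_num)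
                  _ ≤ 13 / 10000 := by norm_num
  have h2 : ((univ.filter fun ω : Fin m → Clause k n × Clause k n => bad2 ω).card : ℝ) *
      Real.exp ((n : ℝ) / 384) ≤ ∑ ω : Fin m → Clause k n × Clause k n, ∏ i, f (ω i) := by
    have e0 : ∀ ω : Fin m → Clause k n × Clause k n, 0 ≤ ∏ i, f (ω i) := fun ω =>
      Finset.prod_nonneg fun i _ => by simp only [hf]; split_ifs <;> positivity
    rw [← nsmul_eq_mul, ← Finset.sum_const]
    refine (Finset.sum_le_sum (f := fun _ => Real.exp ((n : ℝ) / 384))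
      (g := fun ω : Fin m → Clause k n × Clause k n => ∏ i, f (ω i)) ?_).trans
      (Finset.sum_le_sum_of_subset_of_nonneg (Finset.filter_subset _ _) fun ω _ _ => e0 ω)
    intro ω hω
    have hb : n < 192 * (univ.filter fun i => risky (pick (ω i))).card := (mem_filter.mp hω).2
    have e1 : ∏ i, f (ω i) = w ^ (univ.filter fun i => risky (pick (ω i))).card := by
      simp only [hf]
      rw [Finset.prod_ite, Finset.prod_const, Finset.prod_const_one, mul_one]
    show Real.exp ((n : ℝ) / 384) ≤ ∏ i, f (ω i)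
    rw [e1, hw, ← Real.exp_nat_mul]
    apply Real.exp_le_exp.mpr
    have hb' : (n : ℝ) < 192 * ((univ.filter fun i => risky (pick (ω i))).card : ℝ) := by
      exact_mod_cast hb
    linarith
  have h3 := h2.trans h1
  have hpos : (0 : ℝ) < Real.exp ((n : ℝ) / 384) := Real.exp_pos _
  have h4 : ((univ.filter fun ω : Fin m → Clause k n × Clause k n => bad2 ω).card : ℝ) ≤
      Tt k n ^ m * Real.exp ((13 / 10000 : ℝ) * n) / Real.exp ((n : ℝ) / 384) := by
    rw [le_div_iff₀ hpos]
    exact h3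
  refine h4.trans ?_
  rw [mul_div_assoc, ← Real.exp_sub]
  apply mul_le_mul_of_nonneg_left _ (by positivity)
  apply Real.exp_le_exp.mpr
  have : (0 : ℝ) ≤ n := Nat.cast_nonneg n
  linarith

end Pool.Agent.H502R3.TwoChoice
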