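import Mathlib
import Pool.Agent.H502R3.TC5

namespace Pool.Agent.H502R3.TwoChoice

open Finset

variable {k n m : ℕ}

/-- the picked formula is satisfiable -/
def good (ω : Fin m → Clause k n × Clause k n) : Prop :=
  ∃ a : Fin n → Bool, ∀ i, ∃ j, a ((pick (ω i)).1 j) = (pick (ω i)).2 j

open Classical in
theorem good_card (hk : 26 ≤ k) (hn : 0 < n) (hm : m ≤ 2 ^ k * n)
    (hE : (n : ℝ) ^ k ≤ (11 / 10) * (Fintype.card (Fin k ↪ Fin n) : ℝ))
    (hE0 : 0 < Fintype.card (Fin k ↪ Fin n)) :
    Tt k n ^ m * (1 - (n + 1) * (8 / (n : ℝ) ^ 2) - Real.exp (-(n : ℝ) / 1000)) ≤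
    ((univ.filter fun ω : Fin m → Clause k n × Clause k n => good ω).card : ℝ) := by
  have h1 := bad1_le (m := m) hk hn hE
  have h2 := bad2_le (m := m) hk hm hE0
  have h3 := bad1_prob (m := m) hk hn hm hE
  have hTt : 0 ≤ Tt k n ^ m := pow_nonneg (Nat.cast_nonneg _) _
  have h4 : (univ : Finset (Fin m → Clause k n × Clause k n)) ⊆
      (univ.filter fun ω => good ω) ∪ ((univ.filter fun ω => bad1 ω) ∪
        (univ.filter fun ω => bad2 ω)) := by
    intro ω _
    simp only [mem_union, mem_filter, mem_univ, true_and]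
    by_cases hb1 : bad1 ω
    · exact Or.inr (Or.inl hb1)
    by_cases hb2 : bad2 ω
    · exact Or.inr (Or.inr hb2)
    left
    unfold bad1 at hb1
    unfold bad2 at hb2
    push Not at hb1 hb2
    exact det_sat (fun i => pick (ω i)) hb1 hb2
  have h5 := (Finset.card_le_card h4).trans ((Finset.card_union_le _ _).trans
    (Nat.add_le_add_left (Finset.card_union_le _ _) _))
  have h6 : ((univ : Finset (Fin m → Clause k n × Clause k n)).card : ℝ) = Tt k n ^ m := by
    rw [Finset.card_univ, Fintype.card_fun, Fintype.card_fin, Tt]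
    push_cast
    rfl
  have h7 : ((univ : Finset (Fin m → Clause k n × Clause k n)).card : ℝ) ≤
      ((univ.filter fun ω : Fin m → Clause k n × Clause k n => good ω).card : ℝ) +
      (((univ.filter fun ω : Fin m → Clause k n × Clause k n => bad1 ω).card : ℝ) +
      ((univ.filter fun ω : Fin m → Clause k n × Clause k n => bad2 ω).card : ℝ)) := by
    exact_mod_cast h5
  rw [h6] at h7
  have h8 := mul_le_mul_of_nonneg_left h3 hTt
  nlinarith

/-- injections are almost all functions -/
theorem card_emb_ge (k : ℕ) (hk : 1 ≤ k) (n : ℕ) (hn : 11 * k ^ 2 ≤ n) :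
    (n : ℝ) ^ k ≤ (11 / 10) * (Fintype.card (Fin k ↪ Fin n) : ℝ) := by
  have hcard : Fintype.card (Fin k ↪ Fin n) = n.descFactorial k := by
    rw [Fintype.card_embedding_eq, Fintype.card_fin, Fintype.card_fin]
  rw [hcard]
  have h1 : (n + 1 - k) ^ k ≤ n.descFactorial k := Nat.pow_sub_le_descFactorial n k
  have hkn : k ≤ n := by nlinarith
  have h2 : ((n : ℝ) + 1 - k) ^ k ≤ (n.descFactorial k : ℝ) := by
    have : ((n + 1 - k : ℕ) : ℝ) = (n : ℝ) + 1 - k := by
      rw [Nat.cast_sub (by omega)]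
      push_cast
      ring
    rw [← this]
    exact_mod_cast h1
  have hn0 : (0 : ℝ) < n := by
    have : 0 < n := by nlinarith
    exact_mod_cast this
  have hk0 : (1 : ℝ) ≤ k := by exact_mod_cast hk
  have hnk : (11 : ℝ) * k ^ 2 ≤ n := by exact_mod_cast hn
  have h3 : 1 + (k : ℝ) * (-((k : ℝ) / n)) ≤ (1 + -((k : ℝ) / n)) ^ k := by
    apply one_add_mul_le_pow
    have : (k : ℝ) / n ≤ 1 := by
      rw [div_le_one hn0]
      exact_mod_cast hkn
    linarith
  have h4 : (10 / 11 : ℝ) ≤ 1 + (k : ℝ) * (-((k : ℝ) / n)) := by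
    have : (k : ℝ) * ((k : ℝ) / n) ≤ 1 / 11 := by
      rw [← mul_div_assoc, div_le_div_iff₀ hn0 (by norm_num)]
      nlinarith
    linarith
  have h5 : (n : ℝ) ^ k * (1 + -((k : ℝ) / n)) ^ k ≤ ((n : ℝ) + 1 - k) ^ k := by
    rw [← mul_pow]
    apply pow_le_pow_left₀
    · have : (k : ℝ) / n ≤ 1 := by
        rw [div_le_one hn0]
        exact_mod_cast hkn
      exact mul_nonneg hn0.le (by linarith)
    · have : (n : ℝ) * (1 + -((k : ℝ) / n)) = n - k := by
        field_simp
        ring
      rw [this]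
      linarith
  have h6 : (n : ℝ) ^ k * (10 / 11) ≤ (n : ℝ) ^ k * (1 + -((k : ℝ) / n)) ^ k :=
    mul_le_mul_of_nonneg_left (h4.trans h3) (by positivity)
  linarith

/-- the classical first moment bound for random `k`-SAT, as a count -/
theorem sat_count_le (k n m : ℕ) [DecidablePred fun F : Fin m → Clause k n =>
      ∃ a : Fin n → Bool, ∀ i, ∃ j : Fin k, a ((F i).1 j) = (F i).2 j] :
    (univ.filter fun F : Fin m → Clause k n =>
      ∃ a : Fin n → Bool, ∀ i, ∃ j : Fin k, a ((F i).1 j) = (F i).2 j).card ≤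
    2 ^ n * (Fintype.card (Fin k ↪ Fin n) * (2 ^ k - 1)) ^ m := by
  classical
  have h1 : (univ.filter fun F : Fin m → Clause k n =>
      ∃ a : Fin n → Bool, ∀ i, ∃ j : Fin k, a ((F i).1 j) = (F i).2 j) ⊆
      (univ : Finset (Fin n → Bool)).biUnion fun a =>
        univ.filter fun F : Fin m → Clause k n => ∀ i ∈ (univ : Finset (Fin m)),
          ∃ j : Fin k, a ((F i).1 j) = (F i).2 j := by
    intro F hF
    obtain ⟨a, ha⟩ := (mem_filter.mp hF).2
    rw [mem_biUnion]
    exact ⟨a, mem_univ _, by simpa using ha⟩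
  refine (Finset.card_le_card h1).trans (Finset.card_biUnion_le.trans ?_)
  have h2 : ∀ a : Fin n → Bool, (univ.filter fun F : Fin m → Clause k n =>
      ∀ i ∈ (univ : Finset (Fin m)), ∃ j : Fin k, a ((F i).1 j) = (F i).2 j).card
      ≤ (Fintype.card (Fin k ↪ Fin n) * (2 ^ k - 1)) ^ m := by
    intro a
    have e1 := card_forall (m := m) (fun c : Clause k n => ∃ j : Fin k, a (c.1 j) = c.2 j) univ
    rw [e1]
    simp only [Finset.card_univ, Fintype.card_fin, Nat.sub_self, pow_zero, mul_one]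
    apply Nat.pow_le_pow_left
    have e2 : (univ.filter fun c : Clause k n => ∃ j : Fin k, a (c.1 j) = c.2 j).card
        = ∑ e : Fin k ↪ Fin n, (univ.filter fun s : Fin k → Bool => ∃ j : Fin k, a (e j) = s j).card := by
      rw [Finset.card_filter, Fintype.sum_prod_type]
      refine Finset.sum_congr rfl fun e _ => ?_
      rw [Finset.card_filter]
    rw [e2]
    have e3 : ∀ e : Fin k ↪ Fin n,
        (univ.filter fun s : Fin k → Bool => ∃ j : Fin k, a (e j) = s j).card ≤ 2 ^ k - 1 := by
      intro e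
      have : (univ.filter fun s : Fin k → Bool => ∃ j : Fin k, a (e j) = s j) ⊆
          univ.erase (fun j => !(a (e j))) := by
        intro s hs
        obtain ⟨j, hj⟩ := (mem_filter.mp hs).2
        rw [mem_erase]
        refine ⟨?_, mem_univ _⟩
        intro h
        have := congrFun h j
        rw [← hj] at this
        cases hh : a (e j) <;> simp [hh] at this
      refine (Finset.card_le_card this).trans ?_
      rw [Finset.card_erase_of_mem (mem_univ _)]
      simp
    calc ∑ e : Fin k ↪ Fin n, (univ.filter fun s : Fin k → Bool => ∃ j : Fin k, a (e j) = s j).card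
        ≤ ∑ _e : Fin k ↪ Fin n, (2 ^ k - 1) := Finset.sum_le_sum fun e _ => e3 e
      _ = _ := by rw [Finset.sum_const, smul_eq_mul, Finset.card_univ]
  calc ∑ a : Fin n → Bool, (univ.filter fun F : Fin m → Clause k n =>
      ∀ i ∈ (univ : Finset (Fin m)), ∃ j : Fin k, a ((F i).1 j) = (F i).2 j).card
      ≤ ∑ _a : Fin n → Bool, (Fintype.card (Fin k ↪ Fin n) * (2 ^ k - 1)) ^ m :=
        Finset.sum_le_sum fun a _ => h2 a
    _ = _ := by
      rw [Finset.sum_const, smul_eq_mul, Finset.card_univ]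
      simp

end Pool.Agent.H502R3.TwoChoice
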