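import Mathlib
import Pool.Agent.H502R3.TC6

namespace Pool.Agent.H502R3.TwoChoice

open Finset Filter

variable {k n m : ℕ}

theorem exp_aux : Real.exp (-(99 / 100)) ≤ 3 / 8 := by
  have h1 : Real.exp (99 / 100) = Real.exp 1 * Real.exp (-(1 / 100)) := by
    rw [← Real.exp_add]; norm_num
  have h2 : 2.7182818283 < Real.exp 1 := Real.exp_one_gt_d9
  have h3 := Real.add_one_le_exp (-(1 / 100 : ℝ))
  have h4 : (8 / 3 : ℝ) ≤ Real.exp (99 / 100) := by
    rw [h1]
    nlinarith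
  rw [Real.exp_neg]
  rw [inv_le_comm₀ (Real.exp_pos _) (by norm_num)]
  norm_num
  exact h4

/-- satisfiability fraction of random `k`-SAT is small beyond density `2 ^ k - 2` -/
theorem frac_le (hk : 26 ≤ k) (hn : k ≤ n) (hm : (2 ^ k - 2) * n ≤ m)
    [DecidablePred fun F : Fin m → Clause k n =>
      ∃ a : Fin n → Bool, ∀ i, ∃ j : Fin k, a ((F i).1 j) = (F i).2 j] :
    ((univ.filter fun F : Fin m → Clause k n =>
      ∃ a : Fin n → Bool, ∀ i, ∃ j : Fin k, a ((F i).1 j) = (F i).2 j).card : ℝ) /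
      (Fintype.card (Fin m → Clause k n) : ℝ) ≤ (3 / 4) ^ n := by
  have h1 := sat_count_le k n m
  have hE0 : 0 < Fintype.card (Fin k ↪ Fin n) := by
    rw [Fintype.card_pos_iff]
    exact ⟨Fin.castLEEmb hn⟩
  set E := Fintype.card (Fin k ↪ Fin n) with hE
  have hcard : (Fintype.card (Fin m → Clause k n) : ℝ) = ((E : ℝ) * 2 ^ k) ^ m := by
    rw [Fintype.card_fun, Fintype.card_prod]
    simp [hE]
  have h2k : (1 : ℕ) ≤ 2 ^ k := Nat.one_le_two_pow
  have h2 : ((univ.filter fun F : Fin m → Clause k n =>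
      ∃ a : Fin n → Bool, ∀ i, ∃ j : Fin k, a ((F i).1 j) = (F i).2 j).card : ℝ) ≤
      2 ^ n * ((E : ℝ) * (2 ^ k - 1)) ^ m := by
    have : ((2 ^ n * (E * (2 ^ k - 1)) ^ m : ℕ) : ℝ) = 2 ^ n * ((E : ℝ) * (2 ^ k - 1)) ^ m := by
      push_cast [h2k]
      ring
    rw [← this]
    exact_mod_cast h1
  have hEr : (0 : ℝ) < E := by exact_mod_cast hE0
  have hk0 : (0 : ℝ) < 2 ^ k := by positivity
  rw [hcard, div_le_iff₀ (by positivity)]
  refine h2.trans ?_
  -- reduce to a statement about `x = 1 - 2 ^ (-k)`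
  set x : ℝ := 1 - 1 / 2 ^ k with hx
  have hx0 : 0 ≤ x := by
    have : (1 : ℝ) / 2 ^ k ≤ 1 := by
      rw [div_le_one hk0]
      exact_mod_cast h2k
    linarith
  have hx1 : x ≤ 1 := by
    have : (0 : ℝ) ≤ 1 / 2 ^ k := by positivity
    linarith
  have e1 : (E : ℝ) * (2 ^ k - 1) = (E * 2 ^ k) * x := by
    rw [hx]; field_simp
  have hbig : (200 : ℝ) ≤ 2 ^ k := by
    calc (200 : ℝ) ≤ 2 ^ 26 := by norm_num
      _ ≤ 2 ^ k := pow_le_pow_right₀ (by norm_num) hk
  have e2 : x ^ (2 ^ k - 2) ≤ 3 / 8 := by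
    have e3 : x ≤ Real.exp (-(1 / 2 ^ k)) := by
      have := Real.add_one_le_exp (-(1 / 2 ^ k : ℝ))
      linarith
    calc x ^ (2 ^ k - 2) ≤ Real.exp (-(1 / 2 ^ k)) ^ (2 ^ k - 2) := pow_le_pow_left₀ hx0 e3 _
      _ = Real.exp (((2 ^ k - 2 : ℕ) : ℝ) * (-(1 / 2 ^ k))) := by rw [← Real.exp_nat_mul]
      _ ≤ Real.exp (-(99 / 100)) := by
          apply Real.exp_le_exp.mpr
          have h2k' : (2 : ℕ) ≤ 2 ^ k := by
            have : (2 : ℝ) ≤ 2 ^ k := by linarith
            exact_mod_cast this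
          rw [Nat.cast_sub h2k']
          push_cast
          have : ((2 : ℝ) ^ k - 2) * (-(1 / 2 ^ k)) = -1 + 2 / 2 ^ k := by
            field_simp
            ring
          rw [this]
          have : (2 : ℝ) / 2 ^ k ≤ 1 / 100 := by
            rw [div_le_div_iff₀ hk0 (by norm_num)]
            linarith
          linarith
      _ ≤ 3 / 8 := exp_aux
  have e4 : 2 ^ n * x ^ m ≤ (3 / 4) ^ n := by
    calc (2 : ℝ) ^ n * x ^ m ≤ 2 ^ n * x ^ ((2 ^ k - 2) * n) := by
          apply mul_le_mul_of_nonneg_left _ (by positivity)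
          exact pow_le_pow_of_le_one hx0 hx1 hm
      _ = (2 * x ^ (2 ^ k - 2)) ^ n := by rw [pow_mul, mul_pow]
      _ ≤ (3 / 4) ^ n := by
          apply pow_le_pow_left₀ (by positivity)
          linarith
  rw [e1, mul_pow]
  calc 2 ^ n * (((E : ℝ) * 2 ^ k) ^ m * x ^ m) = (2 ^ n * x ^ m) * ((E : ℝ) * 2 ^ k) ^ m := by ring
    _ ≤ (3 / 4) ^ n * ((E : ℝ) * 2 ^ k) ^ m := mul_le_mul_of_nonneg_right e4 (by positivity)

open Classical in
/-- lower bound for the fraction of good outcomes -/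
theorem good_frac (hk : 26 ≤ k) (hn : 11 * k ^ 2 ≤ n) (hm : m ≤ 2 ^ k * n) :
    1 - (n + 1) * (8 / (n : ℝ) ^ 2) - Real.exp (-(n : ℝ) / 1000) ≤
    ((univ.filter fun ω : Fin m → Clause k n × Clause k n => good ω).card : ℝ) /
      (Fintype.card (Fin m → Clause k n × Clause k n) : ℝ) := by
  have hkn : k ≤ n := by nlinarith
  have hn0 : 0 < n := by omega
  have hE0 : 0 < Fintype.card (Fin k ↪ Fin n) := by
    rw [Fintype.card_pos_iff]
    exact ⟨Fin.castLEEmb hkn⟩
  have h1 := good_card (m := m) hk hn0 hm (card_emb_ge k (by omega) n hn) hE0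
  have h6 : (Fintype.card (Fin m → Clause k n × Clause k n) : ℝ) = Tt k n ^ m := by
    rw [Fintype.card_fun, Fintype.card_fin, Tt]
    push_cast
    rfl
  have hpos : 0 < Tt k n ^ m := by
    apply pow_pos
    rw [Tt_eq]
    have : (0 : ℝ) < (Fintype.card (Fin k ↪ Fin n) : ℝ) := by exact_mod_cast hE0
    positivity
  rw [h6, le_div_iff₀ hpos]
  linarith

theorem err_tendsto : Tendsto (fun n : ℕ => 1 - ((n : ℝ) + 1) * (8 / (n : ℝ) ^ 2)
    - Real.exp (-(n : ℝ) / 1000)) atTop (nhds 1) := by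
  have h1 : Tendsto (fun n : ℕ => ((n : ℝ) + 1) * (8 / (n : ℝ) ^ 2)) atTop (nhds 0) := by
    have e1 : Tendsto (fun n : ℕ => 8 * ((1 / (n : ℝ)) + (1 / (n : ℝ)) * (1 / (n : ℝ)))) atTop
        (nhds (8 * (0 + 0 * 0))) :=
      Tendsto.const_mul 8 ((tendsto_one_div_atTop_nhds_zero_nat).add
        ((tendsto_one_div_atTop_nhds_zero_nat).mul (tendsto_one_div_atTop_nhds_zero_nat)))
    simp only [mul_zero, add_zero] at e1
    refine e1.congr' ?_
    filter_upwards [eventually_gt_atTop 0] with n hn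
    have : (n : ℝ) ≠ 0 := by positivity
    field_simp
  have h2 : Tendsto (fun n : ℕ => Real.exp (-(n : ℝ) / 1000)) atTop (nhds 0) := by
    apply Real.tendsto_exp_atBot.comp
    have e1 : Tendsto (fun n : ℕ => (n : ℝ) / 1000) atTop atTop :=
      Tendsto.atTop_div_const (by norm_num) tendsto_natCast_atTop_atTop
    refine (tendsto_neg_atTop_atBot.comp e1).congr fun n => ?_
    simp [neg_div]
  have h3 := (tendsto_const_nhds (x := (1 : ℝ))).sub h1
  have h4 := h3.sub h2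
  simpa using h4

end Pool.Agent.H502R3.TwoChoice
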